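import Mathlib

open CategoryTheory Limits Category ZeroObject

universe w v u v' u'

namespace Pool.Agent.H72.MP

noncomputable section

variable {C : Type u} [Category.{v} C] [Abelian C]

namespace Two

/-- The objects of a two-term complex in degrees `-1` and `0`. -/
def X (A B : C) : ℤ → C
  | .negSucc 0 => A
  | .ofNat 0 => B
  | _ => 0

/-- The differentials. -/
def d {A B : C} (f : A ⟶ B) : ∀ i j : ℤ, X A B i ⟶ X A B j
  | .negSucc 0, .ofNat 0 => f
  | _, _ => 0

/-- The maps. -/
def map {A B A' B' : C} (a : A ⟶ A') (b : B ⟶ B') : ∀ i : ℤ, X A B i ⟶ X A' B' i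
  | .negSucc 0 => a
  | .ofNat 0 => b
  | _ => 0

end Two

/-- The two-term complex `A ⟶ B` in degrees `-1` and `0`. -/
def two {A B : C} (f : A ⟶ B) : CochainComplex C ℤ where
  X := Two.X A B
  d := Two.d f
  shape i j h := by
    rcases i with (_ | i) | (_ | i) <;> rcases j with (_ | j) | (_ | j) <;> try rfl
    exact absurd rfl h
  d_comp_d' i j k _ _ := by
    rcases i with (_ | i) | (_ | i) <;> rcases j with (_ | j) | (_ | j) <;>
      rcases k with (_ | k) | (_ | k) <;> first | exact zero_comp | exact comp_zero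

/-- The morphism of two-term complexes defined by a commutative square. -/
def twoMap {A B A' B' : C} {f : A ⟶ B} {f' : A' ⟶ B'} (a : A ⟶ A') (b : B ⟶ B')
    (h : a ≫ f' = f ≫ b) : two f ⟶ two f' where
  f := Two.map a b
  comm' i j _ := by
    rcases i with (_ | i) | (_ | i) <;> rcases j with (_ | j) | (_ | j) <;>
      first | exact h | exact comp_zero.trans zero_comp.symm

lemma two_hom_ext {A B : C} {f : A ⟶ B} {K : CochainComplex C ℤ} {u v : two f ⟶ K}
    (h1 : u.f (-1) = v.f (-1)) (h0 : u.f 0 = v.f 0) : u = v := by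
  refine HomologicalComplex.hom_ext _ _ (fun i => ?_)
  rcases i with (_ | i) | (_ | i)
  · exact h0
  · exact (isZero_zero C).eq_of_src _ _
  · exact h1
  · exact (isZero_zero C).eq_of_src _ _

lemma to_two_hom_ext {A B : C} {f : A ⟶ B} {K : CochainComplex C ℤ} {u v : K ⟶ two f}
    (h1 : u.f (-1) = v.f (-1)) (h0 : u.f 0 = v.f 0) : u = v := by
  refine HomologicalComplex.hom_ext _ _ (fun i => ?_)
  rcases i with (_ | i) | (_ | i)
  · exact h0
  · exact (isZero_zero C).eq_of_tgt _ _
  · exact h1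
  · exact (isZero_zero C).eq_of_tgt _ _

@[simp] lemma twoMap_f_neg {A B A' B' : C} {f : A ⟶ B} {f' : A' ⟶ B'} (a : A ⟶ A') (b : B ⟶ B')
    (h : a ≫ f' = f ≫ b) : (twoMap a b h).f (-1) = a := rfl

@[simp] lemma twoMap_f_zero {A B A' B' : C} {f : A ⟶ B} {f' : A' ⟶ B'} (a : A ⟶ A') (b : B ⟶ B')
    (h : a ≫ f' = f ≫ b) : (twoMap a b h).f 0 = b := rfl

@[simp] lemma two_d {A B : C} (f : A ⟶ B) : (two f).d (-1) 0 = f := rfl

lemma two_X_neg {A B : C} (f : A ⟶ B) : (two f).X (-1) = A := rfl
lemma two_X_zero {A B : C} (f : A ⟶ B) : (two f).X 0 = B := rfl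

lemma isZero_two_X {A B : C} (f : A ⟶ B) (i : ℤ) (h1 : i ≠ -1) (h0 : i ≠ 0) :
    IsZero ((two f).X i) := by
  rcases i with (_ | i) | (_ | i)
  · exact absurd rfl h0
  · exact isZero_zero C
  · exact absurd rfl h1
  · exact isZero_zero C

lemma twoMap_id {A B : C} (f : A ⟶ B) : twoMap (f := f) (f' := f) (𝟙 A) (𝟙 B) (by simp) =
    𝟙 (two f) :=
  two_hom_ext rfl rfl

lemma twoMap_comp {A B A' B' A'' B'' : C} {f : A ⟶ B} {f' : A' ⟶ B'} {f'' : A'' ⟶ B''}
    (a : A ⟶ A') (b : B ⟶ B') (h : a ≫ f' = f ≫ b) (a' : A' ⟶ A'') (b' : B' ⟶ B'')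
    (h' : a' ≫ f'' = f' ≫ b') :
    twoMap a b h ≫ twoMap a' b' h' = twoMap (a ≫ a') (b ≫ b') (by
      rw [assoc, h', reassoc_of% h]) :=
  two_hom_ext rfl rfl

/-- Isomorphisms of two-term complexes. -/
@[simps]
def twoIso {A B A' B' : C} {f : A ⟶ B} {f' : A' ⟶ B'} (a : A ≅ A') (b : B ≅ B')
    (h : a.hom ≫ f' = f ≫ b.hom) : two f ≅ two f' where
  hom := twoMap a.hom b.hom h
  inv := twoMap a.inv b.inv (by rw [Iso.inv_comp_eq, reassoc_of% h, b.hom_inv_id, comp_id])
  hom_inv_id := two_hom_ext (a.hom_inv_id) (b.hom_inv_id)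
  inv_hom_id := two_hom_ext (a.inv_hom_id) (b.inv_hom_id)

/-- A short exact sequence of two-term complexes. -/
lemma two_shortExact {A B A' B' A'' B'' : C} {f : A ⟶ B} {f' : A' ⟶ B'} {f'' : A'' ⟶ B''}
    {a : A ⟶ A'} {b : B ⟶ B'} (h : a ≫ f' = f ≫ b) {a' : A' ⟶ A''} {b' : B' ⟶ B''}
    (h' : a' ≫ f'' = f' ≫ b') (za : a ≫ a' = 0) (zb : b ≫ b' = 0)
    (ha : (ShortComplex.mk a a' za).ShortExact) (hb : (ShortComplex.mk b b' zb).ShortExact) :
    (ShortComplex.mk (twoMap a b h) (twoMap a' b' h') (two_hom_ext za zb)).ShortExact := by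
  rw [HomologicalComplex.shortExact_iff_degreewise_shortExact]
  intro i
  rcases i with (_ | i) | (_ | i)
  · exact hb
  · exact { exact := ShortComplex.exact_of_isZero_X₂ _ (isZero_zero C)
            mono_f := ⟨fun _ _ _ => (isZero_zero C).eq_of_tgt _ _⟩
            epi_g := ⟨fun _ _ _ => (isZero_zero C).eq_of_src _ _⟩ }
  · exact ha
  · exact { exact := ShortComplex.exact_of_isZero_X₂ _ (isZero_zero C)
            mono_f := ⟨fun _ _ _ => (isZero_zero C).eq_of_tgt _ _⟩
            epi_g := ⟨fun _ _ _ => (isZero_zero C).eq_of_src _ _⟩ }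

/-- A two-term complex with zero source. -/
def twoZeroIso (B : C) : two (0 : (0 : C) ⟶ B) ≅ (HomologicalComplex.single C _ 0).obj B where
  hom := HomologicalComplex.mkHomToSingle (𝟙 B) (fun i _ => by
    rcases i with (_ | i) | (_ | i) <;> exact zero_comp)
  inv := HomologicalComplex.mkHomFromSingle (𝟙 B) (fun i _ => by
    rcases i with (_ | i) | (_ | i) <;> exact comp_zero)
  hom_inv_id := by
    refine two_hom_ext ((isZero_zero C).eq_of_src _ _) ?_
    simp
    exact comp_id _
  inv_hom_id := by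
    ext
    simp
    erw [id_comp, id_comp]
    exact id_comp _

/-- A two-term complex with zero target. -/
def twoZeroIso' (A : C) : two (0 : A ⟶ (0 : C)) ≅ (HomologicalComplex.single C _ (-1)).obj A where
  hom := HomologicalComplex.mkHomToSingle (𝟙 A) (fun i _ => by
    rcases i with (_ | i) | (_ | i) <;> exact zero_comp)
  inv := HomologicalComplex.mkHomFromSingle (𝟙 A) (fun i _ => by
    rcases i with (_ | i) | (_ | i) <;> exact comp_zero)
  hom_inv_id := by
    refine two_hom_ext ?_ ((isZero_zero C).eq_of_src _ _)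
    simp
    exact comp_id _
  inv_hom_id := by
    ext
    simp
    erw [id_comp, id_comp]
    exact id_comp _

section map

variable {D : Type u'} [Category.{v'} D] [Abelian D] (F : C ⥤ D) [F.Additive]

/-- Additive functors preserve two-term complexes. -/
def mapTwo {A B : C} (f : A ⟶ B) :
    (F.mapHomologicalComplex (ComplexShape.up ℤ)).obj (two f) ≅ two (F.map f) :=
  HomologicalComplex.Hom.isoOfComponents (fun i => match i with
    | .negSucc 0 => Iso.refl _
    | .ofNat 0 => Iso.refl _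
    | .negSucc (_ + 1) => (F.map_isZero (isZero_zero C)).iso (isZero_zero D)
    | .ofNat (_ + 1) => (F.map_isZero (isZero_zero C)).iso (isZero_zero D)) (fun i j _ => by
      rcases i with (_ | i) | (_ | i) <;> rcases j with (_ | j) | (_ | j) <;> first
        | exact (id_comp _).trans (comp_id _).symm
        | exact (isZero_zero D).eq_of_tgt _ _
        | exact (F.map_isZero (isZero_zero C)).eq_of_src _ _
        | exact comp_zero.trans ((congrArg (fun z => z ≫ _) (F.map_zero _ _)).trans zero_comp).symm)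

end map

end

end Pool.Agent.H72.MP
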