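import Pool.Agent.H72.MP.Functors

open CategoryTheory Limits AlgebraicGeometry TopologicalSpace Opposite

namespace Pool.Agent.H72.MP

namespace Tw

noncomputable section

variable {P : MorphismProperty Scheme.{0}} {k : Type} [Field k] {G : Type} [Group G]
  [TopologicalSpace G] [IsTopologicalGroup G] {ρ : G →* (k ≃+* k)} {X : Scheme.{0}}
  {ℓ : ℕ} [Fact ℓ.Prime]
  [P.IsStableUnderBaseChange] [P.IsStableUnderComposition] [P.HasOfPostcompProperty P]

variable (P ρ X ℓ) in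
/-- The constant sheaf `ℚ_ℓ`. -/
def unitM : Md P ρ X ℓ := SheafOfModules.unit (ringS P ρ X ℓ)

/-- Sections of the constant sheaf. -/
lemma unitM_rst {U V : Tw P ρ X} (u : V ⟶ U) (a : (ringS P ρ X ℓ).obj.obj (op U)) :
    rst (unitM P ρ X ℓ).val u a = (ringS P ρ X ℓ).obj.map u.op a := rfl

section ext

variable (χ : G →* ℚ_[ℓ]ˣ) (hχ : Continuous χ) (τ : C(G, ℚ_[ℓ]))
  (hτ : ∀ g h, τ (g * h) = τ g + ((χ g)⁻¹ : ℚ_[ℓ]ˣ) * τ h)

/-- The function `t ↦ τ (c t)`. -/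
def tauF {U : Tw P ρ X} (c : C(U.T, G)) : (ringS P ρ X ℓ).obj.obj (op U) :=
  (⟨τ.comp c⟩ : ULift.{1} C(U.T, ℚ_[ℓ]))

lemma tauF_map {U V : Tw P ρ X} (u : U ⟶ V) (c : C(V.T, G)) :
    (ringS P ρ X ℓ).obj.map u.op (tauF τ c) = tauF τ (c.comp ⟨u.f, by fun_prop⟩) := rfl

include hτ in
lemma tauF_mul {U : Tw P ρ X} (c d : C(U.T, G)) :
    tauF τ (c * d) = tauF τ c + chiF χ hχ c⁻¹ * tauF (ρ := ρ) τ d := by
  refine ULift.down_injective (ContinuousMap.ext fun t => ?_)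
  change τ (c t * d t) = τ (c t) + ((χ (c t)⁻¹ : ℚ_[ℓ]ˣ) : ℚ_[ℓ]) * τ (d t)
  rw [hτ, map_inv]

include hτ in
omit [IsTopologicalGroup G] in
lemma tau_one : τ 1 = 0 := by
  have := hτ 1 1
  simp at this
  exact this

include hτ in
lemma tauF_one {U : Tw P ρ X} : tauF (ρ := ρ) τ (1 : C(U.T, G)) = 0 := by
  refine ULift.down_injective (ContinuousMap.ext fun t => ?_)
  exact tau_one χ τ hτ

/-- The restriction maps of the rank two sheaf. -/
def extMap {U V : Tw P ρ X} (u : V ⟶ U)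
    (x : (ringS P ρ X ℓ).obj.obj (op U) × (ringS P ρ X ℓ).obj.obj (op U)) :
    (ringS P ρ X ℓ).obj.obj (op V) × (ringS P ρ X ℓ).obj.obj (op V) :=
  ((ringS P ρ X ℓ).obj.map u.op x.1 - tauF τ u.c * (ringS P ρ X ℓ).obj.map u.op x.2,
    chiF χ hχ (u.c)⁻¹ * (ringS P ρ X ℓ).obj.map u.op x.2)

include hτ in
lemma extMap_id (U : Tw P ρ X)
    (x : (ringS P ρ X ℓ).obj.obj (op U) × (ringS P ρ X ℓ).obj.obj (op U)) :
    extMap χ hχ τ (𝟙 U) x = x := by
  refine Prod.ext ?_ ?_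
  · change (ringS P ρ X ℓ).obj.map (𝟙 (op U)) x.1 - tauF τ (1 : C(U.T, G)) *
      (ringS P ρ X ℓ).obj.map (𝟙 (op U)) x.2 = x.1
    rw [tauF_one χ τ hτ, zero_mul, sub_zero]
    rfl
  · change chiF χ hχ (1 : C(U.T, G))⁻¹ * (ringS P ρ X ℓ).obj.map (𝟙 (op U)) x.2 = x.2
    rw [inv_one, chiF_one, one_mul]
    rfl

include hτ in
lemma extMap_comp {W V U : Tw P ρ X} (v : W ⟶ V) (u : V ⟶ U)
    (x : (ringS P ρ X ℓ).obj.obj (op U) × (ringS P ρ X ℓ).obj.obj (op U)) :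
    extMap χ hχ τ (v ≫ u) x = extMap χ hχ τ v (extMap χ hχ τ u x) := by
  have h0 : ∀ y : (ringS P ρ X ℓ).obj.obj (op U), (ringS P ρ X ℓ).obj.map (v ≫ u).op y =
    (ringS P ρ X ℓ).obj.map v.op ((ringS P ρ X ℓ).obj.map u.op y) := fun y => rfl
  refine Prod.ext ?_ ?_
  · change (ringS P ρ X ℓ).obj.map (v ≫ u).op x.1 -
      tauF τ (u.c.comp ⟨v.f, by fun_prop⟩ * v.c) * (ringS P ρ X ℓ).obj.map (v ≫ u).op x.2 =
      (ringS P ρ X ℓ).obj.map v.op ((ringS P ρ X ℓ).obj.map u.op x.1 -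
        tauF τ u.c * (ringS P ρ X ℓ).obj.map u.op x.2) -
      tauF τ v.c * (ringS P ρ X ℓ).obj.map v.op (chiF χ hχ (u.c)⁻¹ *
        (ringS P ρ X ℓ).obj.map u.op x.2)
    rw [map_sub, map_mul, map_mul, tauF_map, chiF_map, tauF_mul χ hχ τ hτ, h0, h0, add_mul]
    rw [← mul_assoc (tauF τ v.c), ringS_mul_comm (tauF τ v.c)]
    rw [sub_sub]
    rfl
  · change chiF χ hχ (u.c.comp ⟨v.f, by fun_prop⟩ * v.c)⁻¹ *
        (ringS P ρ X ℓ).obj.map (v ≫ u).op x.2 =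
      chiF χ hχ (v.c)⁻¹ * (ringS P ρ X ℓ).obj.map v.op (chiF χ hχ (u.c)⁻¹ *
        (ringS P ρ X ℓ).obj.map u.op x.2)
    rw [map_mul, chiF_map, h0, mul_inv_rev, chiF_mul, mul_assoc]
    rfl

set_option backward.isDefEq.respectTransparency false in
/-- The rank two presheaf. -/
def extP : PresheafOfModules.{1} (ringS P ρ X ℓ).obj where
  obj U := ModuleCat.of _ ((ringS P ρ X ℓ).obj.obj U × (ringS P ρ X ℓ).obj.obj U)
  map {U V} u := ModuleCat.ofHom
    (Y := (ModuleCat.restrictScalars ((ringS P ρ X ℓ).obj.map u).hom).obj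
      (ModuleCat.of _ ((ringS P ρ X ℓ).obj.obj V × (ringS P ρ X ℓ).obj.obj V)))
    { toFun := extMap χ hχ τ u.unop
      map_add' := fun x y => by
        refine Prod.ext ?_ ?_
        · change (ringS P ρ X ℓ).obj.map u (x.1 + y.1) -
            tauF τ u.unop.c * (ringS P ρ X ℓ).obj.map u (x.2 + y.2) =
            ((ringS P ρ X ℓ).obj.map u x.1 - tauF τ u.unop.c * (ringS P ρ X ℓ).obj.map u x.2) +
            ((ringS P ρ X ℓ).obj.map u y.1 - tauF τ u.unop.c * (ringS P ρ X ℓ).obj.map u y.2)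
          rw [map_add, map_add, mul_add]
          abel
        · change chiF χ hχ (u.unop.c)⁻¹ * (ringS P ρ X ℓ).obj.map u (x.2 + y.2) =
            chiF χ hχ (u.unop.c)⁻¹ * (ringS P ρ X ℓ).obj.map u x.2 +
            chiF χ hχ (u.unop.c)⁻¹ * (ringS P ρ X ℓ).obj.map u y.2
          rw [map_add, mul_add]
      map_smul' := fun r x => by
        refine Prod.ext ?_ ?_
        · change (ringS P ρ X ℓ).obj.map u (r * x.1) -
            tauF τ u.unop.c * (ringS P ρ X ℓ).obj.map u (r * x.2) =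
            (ringS P ρ X ℓ).obj.map u r * ((ringS P ρ X ℓ).obj.map u x.1 -
              tauF τ u.unop.c * (ringS P ρ X ℓ).obj.map u x.2)
          rw [map_mul, map_mul, mul_sub, ← mul_assoc, ← mul_assoc,
            ringS_mul_comm (tauF τ u.unop.c)]
        · change chiF χ hχ (u.unop.c)⁻¹ * (ringS P ρ X ℓ).obj.map u (r * x.2) =
            (ringS P ρ X ℓ).obj.map u r *
              (chiF χ hχ (u.unop.c)⁻¹ * (ringS P ρ X ℓ).obj.map u x.2)
          rw [map_mul, ← mul_assoc, ← mul_assoc, ringS_mul_comm (chiF χ hχ (u.unop.c)⁻¹)] }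
  map_id U := by
    refine ModuleCat.hom_ext (LinearMap.ext fun x => ?_)
    exact extMap_id χ hχ τ hτ U.unop x
  map_comp {U V W} u v := by
    refine ModuleCat.hom_ext (LinearMap.ext fun x => ?_)
    exact extMap_comp χ hχ τ hτ v.unop u.unop x

lemma extP_rst {U V : Tw P ρ X} (u : V ⟶ U)
    (x : (ringS P ρ X ℓ).obj.obj (op U) × (ringS P ρ X ℓ).obj.obj (op U)) :
    rst (extP χ hχ τ hτ) u x = extMap χ hχ τ u x := rfl

/-- A copy of `ℚ_ℓ × ℚ_ℓ` on which the group acts. -/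
@[nolint unusedArguments]
def VV (_ : ∀ g h, τ (g * h) = τ g + ((χ g)⁻¹ : ℚ_[ℓ]ˣ) * τ h) : Type := ℚ_[ℓ] × ℚ_[ℓ]

instance : TopologicalSpace (VV χ τ hτ) := inferInstanceAs (TopologicalSpace (ℚ_[ℓ] × ℚ_[ℓ]))

instance : MulAction G (VV χ τ hτ) where
  smul g x := (show ℚ_[ℓ] × ℚ_[ℓ] from (x.1 + χ g * τ g * x.2, χ g * x.2))
  one_smul x := by
    refine Prod.ext ?_ ?_
    · change x.1 + χ 1 * τ 1 * x.2 = x.1
      rw [tau_one χ τ hτ]; ring
    · change χ 1 * x.2 = x.2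
      rw [map_one, Units.val_one, one_mul]
  mul_smul g h x := by
    refine Prod.ext ?_ ?_
    · change x.1 + χ (g * h) * τ (g * h) * x.2 =
        (x.1 + χ h * τ h * x.2) + χ g * τ g * (χ h * x.2)
      rw [hτ, map_mul, Units.val_mul]
      have h1 : (χ g : ℚ_[ℓ]) * ((χ g)⁻¹ : ℚ_[ℓ]ˣ) = 1 := Units.mul_inv _
      linear_combination (χ h * τ h * x.2) * h1
    · change χ (g * h) * x.2 = χ g * (χ h * x.2)
      rw [map_mul, Units.val_mul, mul_assoc]

lemma VV_continuousSMul (hχ : Continuous χ) : ContinuousSMul G (VV χ τ hτ) := by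
  refine ⟨?_⟩
  change Continuous (fun z : G × (ℚ_[ℓ] × ℚ_[ℓ]) =>
    ((z.2.1 + χ z.1 * τ z.1 * z.2.2, χ z.1 * z.2.2) : ℚ_[ℓ] × ℚ_[ℓ]))
  fun_prop

/-- Comparison of pairs of functions and functions with values in pairs. -/
def extEquiv (T : Type) [TopologicalSpace T] :
    ULift.{1} C(T, VV χ τ hτ) ≃ ULift.{1} C(T, ℚ_[ℓ]) × ULift.{1} C(T, ℚ_[ℓ]) where
  toFun φ := (⟨⟨fun t => (show ℚ_[ℓ] × ℚ_[ℓ] from φ.down t).1,
      continuous_fst.comp φ.down.continuous⟩⟩,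
    ⟨⟨fun t => (show ℚ_[ℓ] × ℚ_[ℓ] from φ.down t).2, continuous_snd.comp φ.down.continuous⟩⟩)
  invFun x := ⟨⟨fun t => (show ℚ_[ℓ] × ℚ_[ℓ] from (x.1.down t, x.2.down t)),
    x.1.down.continuous.prodMk x.2.down.continuous⟩⟩
  left_inv _ := rfl
  right_inv _ := rfl

include hχ hτ in
lemma extP_isSheaf : Presheaf.IsSheaf (topo P ρ X)
    (extP χ hχ τ hτ (P := P) (ρ := ρ) (X := X)).presheaf := by
  refine Presheaf.isSheaf_of_isSheaf_comp _ _ (CategoryTheory.forget Ab.{1}) ?_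
  rw [isSheaf_iff_isSheaf_of_type]
  have := VV_continuousSMul χ τ hτ hχ
  have h : Presieve.IsSheaf (topo P ρ X) (fn P ρ X (VV χ τ hτ) ⋙ uliftFunctor.{1, 0}) :=
    (Presieve.isSheaf_comp_uliftFunctor_iff _).2 fn_isSheaf
  refine Presieve.isSheaf_iso _ (NatIso.ofComponents
    (fun U => (extEquiv χ τ hτ U.unop.T).toIso) (fun {U V} u => ?_)) h
  ext φ
  refine Prod.ext ?_ ?_
  · refine ULift.down_injective (ContinuousMap.ext fun t => ?_)
    let ψ : C(U.unop.T, VV χ τ hτ) := φ.down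
    let y : ℚ_[ℓ] × ℚ_[ℓ] := ψ (u.unop.f t)
    change y.1 + χ (u.unop.c t)⁻¹ * τ (u.unop.c t)⁻¹ * y.2 = y.1 - τ (u.unop.c t) * y.2
    have h1 := hτ (u.unop.c t)⁻¹ (u.unop.c t)
    rw [inv_mul_cancel, tau_one χ τ hτ] at h1
    have h2 : (χ (u.unop.c t)⁻¹ : ℚ_[ℓ]) * ((χ (u.unop.c t)⁻¹)⁻¹ : ℚ_[ℓ]ˣ) = 1 :=
      Units.mul_inv _
    linear_combination (-(χ (u.unop.c t)⁻¹ : ℚ_[ℓ]) * y.2) * h1 -
      (τ (u.unop.c t) * y.2) * h2
  · exact ULift.down_injective (ContinuousMap.ext fun t => rfl)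

variable (P ρ X) in
/-- The rank two sheaf, an extension of a twist of the constant sheaf by the constant sheaf. -/
def extM : Md P ρ X ℓ := ⟨extP χ hχ τ hτ, extP_isSheaf χ hχ τ hτ⟩

variable (P ρ X) in
/-- The inclusion of the constant sheaf. -/
def extInc : unitM P ρ X ℓ ⟶ extM P ρ X χ hχ τ hτ :=
  ⟨{ app := fun U => ModuleCat.ofHom (LinearMap.inl _ _ _)
     naturality := fun {U V} u => by
      refine ModuleCat.hom_ext (LinearMap.ext fun x => ?_)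
      refine Prod.ext ?_ ?_
      · change (ringS P ρ X ℓ).obj.map u x = (ringS P ρ X ℓ).obj.map u x -
          tauF τ u.unop.c * (ringS P ρ X ℓ).obj.map u 0
        rw [map_zero, mul_zero, sub_zero]
      · change 0 = chiF χ hχ (u.unop.c)⁻¹ * (ringS P ρ X ℓ).obj.map u 0
        rw [map_zero, mul_zero] }⟩

variable (P ρ X) in
/-- The projection to the twist of the constant sheaf. -/
def extProj : extM P ρ X χ hχ τ hτ ⟶ (twM χ hχ).obj (unitM P ρ X ℓ) :=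
  ⟨{ app := fun U => ModuleCat.ofHom (LinearMap.snd _ _ _)
     naturality := fun {U V} u => by
      refine ModuleCat.hom_ext (LinearMap.ext fun x => ?_)
      rfl }⟩

end ext

end

end Tw

end Pool.Agent.H72.MP
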