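import Pool.Agent.H72.MP.Defs
import Pool.Agent.H72.MP.Two
import Pool.Agent.H72.MP.Rank2
import Pool.Agent.H72.MP.Mod.A3

open CategoryTheory Limits AlgebraicGeometry TopologicalSpace Opposite ZeroObject

namespace Pool.Agent.H72.MP

noncomputable section

namespace Tw

variable {P : MorphismProperty Scheme.{0}} {k : Type} [Field k] {G : Type} [Group G]
  [TopologicalSpace G] [IsTopologicalGroup G] {ρ : G →* (k ≃+* k)} {X Y : Scheme.{0}}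
  {ℓ : ℕ} [Fact ℓ.Prime]
  [P.IsStableUnderBaseChange] [P.IsStableUnderComposition] [P.HasOfPostcompProperty P]

variable (P ρ ℓ) in
/-- The restriction of the constant sheaf to a subscheme. -/
def unitRes (i : Y ⟶ X) : unitM P ρ X ℓ ⟶ (pushM P ρ ℓ i).obj (unitM P ρ Y ℓ) :=
  SheafOfModules.unitToPushforwardObjUnit (φpull P ρ ℓ i)

lemma unitRes_apply (i : Y ⟶ X) (U : Tw P ρ X) (a : (ringS P ρ X ℓ).obj.obj (op U)) :
    (unitRes P ρ ℓ i).val.app (op U) a = (φpull P ρ ℓ i).hom.app (op U) a := rfl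

end Tw

open Tw

variable {p ℓ : ℕ} [Fact p.Prime] [Fact ℓ.Prime] (κ : Kum p ℓ) {X Y : Scheme.{0}}

/-- The Kummer cocycle as a continuous function. -/
def kumC : C(Gη p, ℚ_[ℓ]) := ⟨fun g => (κ.t g : ℚ_[ℓ]), continuous_subtype_val.comp κ.continuous⟩

lemma kumC_mul (g h : Gη p) :
    kumC κ (g * h) = kumC κ g + (((cycInv p ℓ g)⁻¹ : ℚ_[ℓ]ˣ) : ℚ_[ℓ]) * kumC κ h := by
  have h1 := κ.cocycle g h
  change ((κ.t (g * h) : ℤ_[ℓ]) : ℚ_[ℓ]) = (κ.t g : ℚ_[ℓ]) +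
    (((cycInv p ℓ g)⁻¹ : ℚ_[ℓ]ˣ) : ℚ_[ℓ]) * (κ.t h : ℚ_[ℓ])
  rw [h1, PadicInt.coe_add, PadicInt.coe_mul]
  congr 2

/-- The sheaf `E`, a non-split extension of `ℚ_ℓ(-1)` by `ℚ_ℓ`. -/
def EE (Y : Scheme.{0}) : Shη p ℓ Y :=
  extM @WeaklyEtale (ρη p) Y (cycInv p ℓ) (cycInv_continuous p ℓ) (kumC κ) (kumC_mul κ)

variable (p ℓ) in
/-- The constant sheaf. -/
abbrev OE (Y : Scheme.{0}) : Shη p ℓ Y := unitM @WeaklyEtale (ρη p) Y ℓ

/-- The inclusion of `ℚ_ℓ` in `E`. -/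
def eInc (Y : Scheme.{0}) : OE p ℓ Y ⟶ EE κ Y :=
  extInc @WeaklyEtale (ρη p) Y (cycInv p ℓ) (cycInv_continuous p ℓ) (kumC κ) (kumC_mul κ)

/-- The projection of `E` to `ℚ_ℓ(-1)`. -/
def eProj (Y : Scheme.{0}) : EE κ Y ⟶ (tateM p ℓ Y).obj (OE p ℓ Y) :=
  extProj @WeaklyEtale (ρη p) Y (cycInv p ℓ) (cycInv_continuous p ℓ) (kumC κ) (kumC_mul κ)

/-- Push-forward of sheaves. -/
abbrev pushη (i : Y ⟶ X) : Shη p ℓ Y ⥤ Shη p ℓ X := pushM @WeaklyEtale (ρη p) ℓ i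

/-- The differential of the complex `ℚ_ℓ ⟶ i_* E`. -/
def dI (i : Y ⟶ X) : OE p ℓ X ⟶ (pushη i).obj (EE κ Y) :=
  unitRes @WeaklyEtale (ρη p) ℓ i ≫ (pushη i).map (eInc κ Y)

instance two_isStrictlyGE {C : Type*} [Category C] [Abelian C] {A B : C} (f : A ⟶ B) :
    (two f).IsStrictlyGE (-1) := by
  rw [CochainComplex.isStrictlyGE_iff]
  intro i hi
  exact isZero_two_X f i (by omega) (by omega)

/-- The complex `ℚ_ℓ ⟶ i_* E` in degrees `-1` and `0`, as a bounded below complex. -/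
def CP (i : Y ⟶ X) : CochainComplex.Plus (Shη p ℓ X) := ⟨two (dI κ i), -1, inferInstance⟩

/-- The counterexample. -/
def FF (i : Y ⟶ X) : DerivedCategory.Plus (Shη p ℓ X) := DerivedCategory.Plus.Q.obj (CP κ i)

lemma FF_ι (i : Y ⟶ X) : DerivedCategory.Plus.ι.obj (FF κ i) = DerivedCategory.Q.obj (two (dI κ i)) :=
  rfl

end

end Pool.Agent.H72.MP
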