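import Pool.Agent.H72.MP.Groth

open CategoryTheory Limits Opposite

universe u

namespace Pool.Agent.H72.MP

variable {C : Type u} [SmallCategory C] {J : GrothendieckTopology C} {R : Sheaf J RingCat.{u}}

instance toSheaf_preservesColimits (K : Type) [SmallCategory K] [FinCategory K] :
    PreservesColimitsOfShape K (SheafOfModules.toSheaf.{u} R) where
  preservesColimit {F} := by
    let L := PresheafOfModules.sheafification (𝟙 R.obj)
    let i := SheafOfModules.forget.{u} R ⋙ PresheafOfModules.restrictScalars (𝟙 R.obj)
    let adj := PresheafOfModules.sheafificationAdjunction.{u} (𝟙 R.obj)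
    let e : (F ⋙ i) ⋙ L ≅ F := Functor.associator _ _ _ ≪≫
      Functor.isoWhiskerLeft F (asIso adj.counit) ≪≫ F.rightUnitor
    have h1 : PreservesColimit ((F ⋙ i) ⋙ L) (SheafOfModules.toSheaf.{u} R) := by
      have hL : PreservesColimitsOfSize.{0, 0} L := adj.leftAdjoint_preservesColimits
      have hc := colimit.isColimit (F ⋙ i)
      refine preservesColimit_of_preserves_colimit_cocone (isColimitOfPreserves L hc) ?_
      have h2 : PreservesColimitsOfSize.{0, 0} (presheafToSheaf J AddCommGrpCat.{u}) :=
        (sheafificationAdjunction J AddCommGrpCat.{u}).leftAdjoint_preservesColimits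
      have h3 : PreservesColimitsOfShape K
          (PresheafOfModules.toPresheaf.{u} R.obj ⋙ presheafToSheaf J AddCommGrpCat.{u}) :=
        inferInstance
      exact isColimitOfPreserves
        (PresheafOfModules.toPresheaf.{u} R.obj ⋙ presheafToSheaf J AddCommGrpCat.{u}) hc
    exact preservesColimit_of_iso_diagram _ e

instance : PreservesFiniteColimits (SheafOfModules.toSheaf.{u} R) where
  preservesFiniteColimits _ _ _ := inferInstance

instance : PreservesFiniteLimits (SheafOfModules.toSheaf.{u} R) := inferInstance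

/-- Local surjectivity, elementwise. -/
def LocSurj {M N : SheafOfModules.{u} R} (f : M ⟶ N) : Prop :=
  ∀ (U : C) (y : N.val.obj (op U)), ∃ S ∈ J U, ∀ (V : C) (g : V ⟶ U), S g →
    ∃ x : M.val.obj (op V), f.val.app (op V) x = N.val.map g.op y

lemma epi_iff_locSurj {M N : SheafOfModules.{u} R} (f : M ⟶ N) : Epi f ↔ LocSurj f := by
  have h1 : Epi f ↔ Epi ((SheafOfModules.toSheaf.{u} R).map f) :=
    ⟨fun _ => inferInstance, fun h => (SheafOfModules.toSheaf.{u} R).epi_of_epi_map h⟩
  rw [h1, ← Sheaf.isLocallySurjective_iff_epi']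
  constructor
  · intro h U y
    have h2 := Presheaf.imageSieve_mem J ((SheafOfModules.toSheaf.{u} R).map f).hom y
    exact ⟨_, h2, fun V g hg => hg⟩
  · intro h
    refine ⟨fun {U} y => ?_⟩
    obtain ⟨S, hS, hS'⟩ := h U y
    exact J.superset_covering (fun V g hg => hS' V g hg) hS

instance (U : Cᵒᵖ) : (SheafOfModules.evaluation.{u} R U).Additive := by
  dsimp [SheafOfModules.evaluation]; infer_instance

lemma mono_iff_injective {M N : SheafOfModules.{u} R} (f : M ⟶ N) :
    Mono f ↔ ∀ (U : C), Function.Injective (f.val.app (op U)) := by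
  constructor
  · intro h U
    have h1 : Mono ((SheafOfModules.evaluation R (op U)).map f) := inferInstance
    exact (ModuleCat.mono_iff_injective _).1 h1
  · intro h
    have : Mono ((SheafOfModules.forget.{u} R).map f) :=
      PresheafOfModules.mono_of_injective (fun X => h X.unop)
    exact (SheafOfModules.forget.{u} R).mono_of_mono_map this

lemma kernel_section {M N : SheafOfModules.{u} R} (f : M ⟶ N) (U : C) (y : M.val.obj (op U))
    (hy : f.val.app (op U) y = 0) :
    ∃ z : (kernel f).val.obj (op U), (kernel.ι f).val.app (op U) z = y := by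
  let S : ShortComplex (SheafOfModules.{u} R) := ShortComplex.mk (kernel.ι f) f (kernel.condition f)
  have hS : S.Exact := ShortComplex.exact_kernel f
  have hS' : (S.map (SheafOfModules.evaluation R (op U))).Exact :=
    hS.map_of_mono_of_preservesKernel _ (inferInstanceAs (Mono (kernel.ι f))) inferInstance
  rw [ShortComplex.moduleCat_exact_iff] at hS'
  exact hS' y hy

/-- Exactness at the middle, elementwise. -/
lemma exact_iff (S : ShortComplex (SheafOfModules.{u} R)) :
    S.Exact ↔ ∀ (U : C) (y : S.X₂.val.obj (op U)), S.g.val.app (op U) y = 0 →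
      ∃ T ∈ J U, ∀ (V : C) (h : V ⟶ U), T h →
        ∃ x : S.X₁.val.obj (op V), S.f.val.app (op V) x = S.X₂.val.map h.op y := by
  rw [S.exact_iff_epi_kernel_lift, epi_iff_locSurj]
  have hinj : ∀ V : C, Function.Injective ((kernel.ι S.g).val.app (op V)) :=
    (mono_iff_injective (kernel.ι S.g)).1 inferInstance
  have hfac : ∀ (V : C) (x : S.X₁.val.obj (op V)),
      (kernel.ι S.g).val.app (op V) ((kernel.lift S.g S.f S.zero).val.app (op V) x) =
        S.f.val.app (op V) x := by
    intro V x
    have h1 := kernel.lift_ι S.g S.f S.zero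
    have h2 := congrArg (fun q : S.X₁ ⟶ S.X₂ => q.val.app (op V) x) h1
    exact h2
  constructor
  · intro h U y hy
    obtain ⟨z, rfl⟩ := kernel_section S.g U y hy
    obtain ⟨T, hT, hT'⟩ := h U z
    refine ⟨T, hT, fun V g hg => ?_⟩
    obtain ⟨x, hx⟩ := hT' V g hg
    refine ⟨x, ?_⟩
    rw [← hfac, hx]
    exact PresheafOfModules.naturality_apply (kernel.ι S.g).val g.op z
  · intro h U z
    have hz : S.g.val.app (op U) ((kernel.ι S.g).val.app (op U) z) = 0 := by
      have h2 := congrArg (fun q : kernel S.g ⟶ S.X₃ => q.val.app (op U) z)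
        (kernel.condition S.g)
      exact h2
    obtain ⟨T, hT, hT'⟩ := h U _ hz
    refine ⟨T, hT, fun V g hg => ?_⟩
    obtain ⟨x, hx⟩ := hT' V g hg
    refine ⟨x, hinj V ?_⟩
    rw [hfac, hx]
    exact (PresheafOfModules.naturality_apply (kernel.ι S.g).val g.op z).symm

section pushforward

variable {D : Type u} [SmallCategory D] {K : GrothendieckTopology D} {F : C ⥤ D}
  {A : Sheaf K RingCat.{u}} [Functor.IsContinuous F J K]
  (φ : R ⟶ (F.sheafPushforwardContinuous RingCat.{u} J K).obj A)

instance pushforward_additive : (SheafOfModules.pushforward.{u} φ).Additive where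
  map_add := rfl

/-- The push-forward preserves an epimorphism if its local liftings are compatible with `F`. -/
lemma pushforward_epi {M N : SheafOfModules.{u} A} (f : M ⟶ N)
    (h : ∀ (U : C) (y : N.val.obj (op (F.obj U))), ∃ S ∈ J U, ∀ (V : C) (g : V ⟶ U), S g →
      ∃ x : M.val.obj (op (F.obj V)), f.val.app (op (F.obj V)) x = N.val.map (F.map g).op y) :
    Epi ((SheafOfModules.pushforward.{u} φ).map f) := by
  rw [epi_iff_locSurj]
  exact h

lemma pushforward_preservesFiniteColimits
    (h : ∀ {M N : SheafOfModules.{u} A} (f : M ⟶ N) [Epi f],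
      Epi ((SheafOfModules.pushforward.{u} φ).map f)) :
    PreservesFiniteColimits (SheafOfModules.pushforward.{u} φ) := by
  have : (SheafOfModules.pushforward.{u} φ).PreservesEpimorphisms := ⟨fun f hf => h f⟩
  have h0 : PreservesFiniteLimits (SheafOfModules.pushforward.{u} φ) := inferInstance
  have h1 : ∀ {X Y : SheafOfModules.{u} A} (f : X ⟶ Y),
      PreservesLimit (parallelPair f 0) (SheafOfModules.pushforward.{u} φ) :=
    fun {X Y} f => inferInstance
  have h2 := Functor.preservesHomology_of_preservesEpis_and_kernels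
    (SheafOfModules.pushforward.{u} φ)
  exact Functor.preservesFiniteColimits_of_preservesHomology _

lemma pushforward_preservesFiniteColimits_of_cocontinuous [F.IsCocontinuous J K] :
    PreservesFiniteColimits (SheafOfModules.pushforward.{u} φ) := by
  refine pushforward_preservesFiniteColimits φ (fun {M N} f hf => ?_)
  refine pushforward_epi φ f (fun U y => ?_)
  obtain ⟨S, hS, hS'⟩ := (epi_iff_locSurj f).1 hf (F.obj U) y
  exact ⟨S.functorPullback F, F.cover_lift J K hS, fun V g hg => hS' _ _ hg⟩

end pushforward

end Pool.Agent.H72.MP
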