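import Mathlib

open CategoryTheory Limits Category

universe w v u w' v' u' w'' v'' u''

namespace Pool.Agent.H72.MP

noncomputable section

variable {A : Type u} [Category.{v} A] [Abelian A] [HasDerivedCategory.{w} A]
  {B : Type u'} [Category.{v'} B] [Abelian B] [HasDerivedCategory.{w'} B]
  {C : Type u''} [Category.{v''} C] [Abelian C] [HasDerivedCategory.{w''} C]

section lift

variable {E : Type*} [Category E] {F G H : DerivedCategory A ⥤ E}

/-- Natural transformations of functors on a derived category may be defined on complexes. -/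
def dLift (τ : DerivedCategory.Q ⋙ F ⟶ DerivedCategory.Q ⋙ G) : F ⟶ G :=
  (Localization.whiskeringLeftFunctor' DerivedCategory.Q
    (HomologicalComplex.quasiIso A (ComplexShape.up ℤ)) E).preimage τ

@[simp]
lemma dLift_app (τ : DerivedCategory.Q ⋙ F ⟶ DerivedCategory.Q ⋙ G) (K : CochainComplex A ℤ) :
    (dLift τ).app (DerivedCategory.Q.obj K) = τ.app K :=
  congr_app (Functor.map_preimage (Localization.whiskeringLeftFunctor' DerivedCategory.Q
    (HomologicalComplex.quasiIso A (ComplexShape.up ℤ)) E) τ) K

lemma dNat_ext {σ τ : F ⟶ G}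
    (h : ∀ K : CochainComplex A ℤ,
      σ.app (DerivedCategory.Q.obj K) = τ.app (DerivedCategory.Q.obj K)) : σ = τ :=
  Localization.natTrans_ext DerivedCategory.Q
    (HomologicalComplex.quasiIso A (ComplexShape.up ℤ)) h

/-- Natural isomorphisms of functors on a derived category may be defined on complexes. -/
@[simps]
def dLiftIso (e : DerivedCategory.Q ⋙ F ≅ DerivedCategory.Q ⋙ G) : F ≅ G where
  hom := dLift e.hom
  inv := dLift e.inv
  hom_inv_id := dNat_ext (fun K => by simp)
  inv_hom_id := dNat_ext (fun K => by simp)

end lift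

section nat

variable {F G H : A ⥤ B} [F.Additive] [PreservesFiniteLimits F] [PreservesFiniteColimits F]
  [G.Additive] [PreservesFiniteLimits G] [PreservesFiniteColimits G]
  [H.Additive] [PreservesFiniteLimits H] [PreservesFiniteColimits H]

/-- The natural transformation of functors on derived categories induced by a natural
transformation of exact functors. -/
def dNat (τ : F ⟶ G) : F.mapDerivedCategory ⟶ G.mapDerivedCategory :=
  dLift (F.mapDerivedCategoryFactors.hom ≫
    Functor.whiskerRight (NatTrans.mapHomologicalComplex τ (ComplexShape.up ℤ)) DerivedCategory.Q ≫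
      G.mapDerivedCategoryFactors.inv)

lemma dNat_app_Q (τ : F ⟶ G) (K : CochainComplex A ℤ) :
    (dNat τ).app (DerivedCategory.Q.obj K) = F.mapDerivedCategoryFactors.hom.app K ≫
      DerivedCategory.Q.map ((NatTrans.mapHomologicalComplex τ (ComplexShape.up ℤ)).app K) ≫
        G.mapDerivedCategoryFactors.inv.app K :=
  dLift_app _ _

lemma dNat_id : dNat (𝟙 F) = 𝟙 _ := by
  refine dNat_ext (fun K => ?_)
  rw [dNat_app_Q, NatTrans.mapHomologicalComplex_id, NatTrans.id_app, NatTrans.id_app,
    CategoryTheory.Functor.map_id]
  erw [id_comp]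
  rw [Iso.hom_inv_id_app]
  rfl

lemma dNat_comp (σ : F ⟶ G) (τ : G ⟶ H) : dNat (σ ≫ τ) = dNat σ ≫ dNat τ := by
  refine dNat_ext (fun K => ?_)
  rw [NatTrans.comp_app, dNat_app_Q, dNat_app_Q, dNat_app_Q, NatTrans.mapHomologicalComplex_comp,
    assoc, assoc, Iso.inv_hom_id_app_assoc, NatTrans.comp_app, Functor.map_comp, assoc]

/-- The isomorphism of functors on derived categories induced by an
isomorphism of exact functors. -/
@[simps]
def dIso (e : F ≅ G) : F.mapDerivedCategory ≅ G.mapDerivedCategory where
  hom := dNat e.hom
  inv := dNat e.inv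
  hom_inv_id := by rw [← dNat_comp, e.hom_inv_id, dNat_id]
  inv_hom_id := by rw [← dNat_comp, e.inv_hom_id, dNat_id]

end nat

section comp

variable (F : A ⥤ B) [F.Additive] [PreservesFiniteLimits F] [PreservesFiniteColimits F]
  (G : B ⥤ C) [G.Additive] [PreservesFiniteLimits G] [PreservesFiniteColimits G]

instance : PreservesFiniteLimits (F ⋙ G) := comp_preservesFiniteLimits F G
instance : PreservesFiniteColimits (F ⋙ G) := comp_preservesFiniteColimits F G

/-- Auxiliary isomorphism for `dComp`. -/
def dCompAux : DerivedCategory.Q ⋙ F.mapDerivedCategory ⋙ G.mapDerivedCategory ≅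
    DerivedCategory.Q ⋙ (F ⋙ G).mapDerivedCategory :=
  (Functor.associator _ _ _).symm ≪≫
    Functor.isoWhiskerRight F.mapDerivedCategoryFactors G.mapDerivedCategory ≪≫
    Functor.associator _ _ _ ≪≫
    Functor.isoWhiskerLeft (F.mapHomologicalComplex (ComplexShape.up ℤ))
      G.mapDerivedCategoryFactors ≪≫ (F ⋙ G).mapDerivedCategoryFactors.symm

/-- The functor induced by a composite functor on derived categories. -/
def dComp : F.mapDerivedCategory ⋙ G.mapDerivedCategory ≅ (F ⋙ G).mapDerivedCategory :=
  dLiftIso (dCompAux F G)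

lemma dComp_hom_app_Q (K : CochainComplex A ℤ) :
    (dComp F G).hom.app (DerivedCategory.Q.obj K) =
      G.mapDerivedCategory.map (F.mapDerivedCategoryFactors.hom.app K) ≫
        G.mapDerivedCategoryFactors.hom.app
          ((F.mapHomologicalComplex (ComplexShape.up ℤ)).obj K) ≫
        (F ⋙ G).mapDerivedCategoryFactors.inv.app K := by
  refine (dLift_app _ _).trans ?_
  simp [dCompAux]

end comp

section homology

variable (F : A ⥤ B) [F.Additive] [PreservesFiniteLimits F] [PreservesFiniteColimits F]

/-- Exact functors commute with the homology of complexes. -/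
def mapHomIso (n : ℤ) : F.mapHomologicalComplex (ComplexShape.up ℤ) ⋙
    HomologicalComplex.homologyFunctor B (ComplexShape.up ℤ) n ≅
      HomologicalComplex.homologyFunctor A (ComplexShape.up ℤ) n ⋙ F :=
  NatIso.ofComponents (fun K => (K.sc n).mapHomologyIso F)
    (fun f => ShortComplex.mapHomologyIso_hom_naturality
      (φ := (HomologicalComplex.shortComplexFunctor A _ n).map f) F)

/-- Auxiliary isomorphism for `dHom`. -/
def dHomAux (n : ℤ) : DerivedCategory.Q ⋙ F.mapDerivedCategory ⋙
    DerivedCategory.homologyFunctor B n ≅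
      DerivedCategory.Q ⋙ DerivedCategory.homologyFunctor A n ⋙ F :=
  (Functor.associator _ _ _).symm ≪≫
    Functor.isoWhiskerRight F.mapDerivedCategoryFactors _ ≪≫
    Functor.associator _ _ _ ≪≫
    Functor.isoWhiskerLeft _ (DerivedCategory.homologyFunctorFactors B n) ≪≫
    mapHomIso F n ≪≫
    Functor.isoWhiskerRight (DerivedCategory.homologyFunctorFactors A n).symm F ≪≫
    Functor.associator _ _ _

/-- Exact functors commute with homology. -/
def dHom (n : ℤ) : F.mapDerivedCategory ⋙ DerivedCategory.homologyFunctor B n ≅
    DerivedCategory.homologyFunctor A n ⋙ F :=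
  dLiftIso (dHomAux F n)

lemma dHom_hom_app_Q (n : ℤ) (K : CochainComplex A ℤ) :
    (dHom F n).hom.app (DerivedCategory.Q.obj K) =
      (DerivedCategory.homologyFunctor B n).map (F.mapDerivedCategoryFactors.hom.app K) ≫
        (DerivedCategory.homologyFunctorFactors B n).hom.app
          ((F.mapHomologicalComplex (ComplexShape.up ℤ)).obj K) ≫
        (mapHomIso F n).hom.app K ≫
          F.map ((DerivedCategory.homologyFunctorFactors A n).inv.app K) := by
  refine (dLift_app _ _).trans ?_
  simp [dHomAux]

variable {F}
variable {G : A ⥤ B} [G.Additive] [PreservesFiniteLimits G] [PreservesFiniteColimits G]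

omit [HasDerivedCategory A] [HasDerivedCategory B] in
lemma mapHomIso_nat (τ : F ⟶ G) (n : ℤ) (K : CochainComplex A ℤ) :
    (HomologicalComplex.homologyFunctor B (ComplexShape.up ℤ) n).map
      ((NatTrans.mapHomologicalComplex τ (ComplexShape.up ℤ)).app K) ≫
        (mapHomIso G n).hom.app K = (mapHomIso F n).hom.app K ≫
          τ.app ((HomologicalComplex.homologyFunctor A (ComplexShape.up ℤ) n).obj K) := by
  change _ ≫ ((K.sc n).mapHomologyIso G).hom = ((K.sc n).mapHomologyIso F).hom ≫
          τ.app ((K.sc n).homology)
  rw [NatTrans.app_homology, Iso.hom_inv_id_assoc]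
  rfl

lemma dHom_nat (τ : F ⟶ G) (n : ℤ) (K : DerivedCategory A) :
    (DerivedCategory.homologyFunctor B n).map ((dNat τ).app K) ≫ (dHom G n).hom.app K =
      (dHom F n).hom.app K ≫ τ.app ((DerivedCategory.homologyFunctor A n).obj K) := by
  have h : Functor.whiskerRight (dNat τ) (DerivedCategory.homologyFunctor B n) ≫ (dHom G n).hom =
      (dHom F n).hom ≫ Functor.whiskerLeft (DerivedCategory.homologyFunctor A n) τ := by
    refine dNat_ext (fun K => ?_)
    rw [NatTrans.comp_app, NatTrans.comp_app, Functor.whiskerRight_app, dNat_app_Q,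
      dHom_hom_app_Q, dHom_hom_app_Q, Functor.whiskerLeft_app]
    have e1 : (DerivedCategory.homologyFunctor B n).map (G.mapDerivedCategoryFactors.inv.app K) ≫
        (DerivedCategory.homologyFunctor B n).map (G.mapDerivedCategoryFactors.hom.app K) =
          𝟙 _ := by
      rw [← Functor.map_comp, Iso.inv_hom_id_app]
      exact CategoryTheory.Functor.map_id _ _
    have e2 : (DerivedCategory.homologyFunctor B n).map (DerivedCategory.Q.map
        ((NatTrans.mapHomologicalComplex τ (ComplexShape.up ℤ)).app K)) ≫
          (DerivedCategory.homologyFunctorFactors B n).hom.app _ =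
        (DerivedCategory.homologyFunctorFactors B n).hom.app _ ≫
          (HomologicalComplex.homologyFunctor B (ComplexShape.up ℤ) n).map
            ((NatTrans.mapHomologicalComplex τ (ComplexShape.up ℤ)).app K) :=
      (DerivedCategory.homologyFunctorFactors B n).hom.naturality _
    have e3 := mapHomIso_nat τ n K
    have e4 := τ.naturality ((DerivedCategory.homologyFunctorFactors A n).inv.app K)
    simp only [Functor.map_comp, assoc]
    rw [reassoc_of% e1, reassoc_of% e2, reassoc_of% e3]
    congr 3
    exact e4.symm
  exact congr_app h K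

end homology

section linear

variable (R : Type*) [Ring R] [CategoryTheory.Linear R A]

omit [HasDerivedCategory A] in
instance complexHomology_linear (n : ℤ) :
    Functor.Linear R (HomologicalComplex.homologyFunctor A (ComplexShape.up ℤ) n) where
  map_smul {X Y} f r := by
    change ShortComplex.homologyMap ((HomologicalComplex.shortComplexFunctor A _ n).map (r • f)) =
      r • ShortComplex.homologyMap ((HomologicalComplex.shortComplexFunctor A _ n).map f)
    rw [← ShortComplex.homologyMap_smul]
    rfl

instance homology_linear (n : ℤ) : Functor.Linear R (DerivedCategory.homologyFunctor A n) := by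
  have h2 : (DerivedCategory.Qh (C := A) ⋙ DerivedCategory.homologyFunctor A n).Linear R := by
    refine ⟨fun {X Y} f r => ?_⟩
    obtain ⟨X, rfl⟩ := HomotopyCategory.quotient_obj_surjective X
    obtain ⟨Y, rfl⟩ := HomotopyCategory.quotient_obj_surjective Y
    obtain ⟨f, rfl⟩ := (HomotopyCategory.quotient _ _).map_surjective f
    have : (DerivedCategory.Q (C := A) ⋙ DerivedCategory.homologyFunctor A n).Linear R :=
      Functor.linear_of_iso R (DerivedCategory.homologyFunctorFactors A n).symm
    have h3 : (((HomotopyCategory.quotient A (ComplexShape.up ℤ)) ⋙ DerivedCategory.Qh) ⋙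
        DerivedCategory.homologyFunctor A n).Linear R :=
      Functor.linear_of_iso R
        (Functor.isoWhiskerRight (DerivedCategory.quotientCompQhIso A).symm _)
    rw [← Functor.map_smul]
    exact h3.map_smul f r
  have : Localization.Lifting DerivedCategory.Qh (HomotopyCategory.quasiIso A (ComplexShape.up ℤ))
    (DerivedCategory.Qh ⋙ DerivedCategory.homologyFunctor A n)
    (DerivedCategory.homologyFunctor A n) := ⟨Iso.refl _⟩
  exact (Localization.functor_linear_iff DerivedCategory.Qh
    (HomotopyCategory.quasiIso A (ComplexShape.up ℤ)) R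
    (DerivedCategory.Qh ⋙ DerivedCategory.homologyFunctor A n)
    (DerivedCategory.homologyFunctor A n)).1 h2

end linear

end

end Pool.Agent.H72.MP
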