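import Mathlib

namespace Pool.Agent.H72.MP

noncomputable section

variable (p : ℕ) [Fact p.Prime]

/-- The ring of integers of the algebraic closure `PadicAlgCl p` of `ℚ_p`: the closed unit ball. -/
def OO : ValuationSubring (PadicAlgCl p) := (Valued.v : Valuation (PadicAlgCl p) NNReal).valuationSubring

lemma mem_OO {x : PadicAlgCl p} : x ∈ OO p ↔ ‖x‖ ≤ 1 := Iff.rfl

/-- The residue field of `PadicAlgCl p`: an algebraic closure of `𝔽_p`. -/
abbrev kb : Type := IsLocalRing.ResidueField (OO p)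

/-- The absolute Galois group of `ℚ_p`. -/
abbrev Gη : Type := PadicAlgCl p ≃ₐ[ℚ_[p]] PadicAlgCl p

lemma norm_gal (g : Gη p) (x : PadicAlgCl p) : ‖g x‖ = ‖x‖ :=
  (spectralNorm_eq_of_equiv (K := ℚ_[p]) g x).symm

/-- The action of the absolute Galois group on the ring of integers. -/
def actO : Gη p →* RingAut (OO p) where
  toFun g :=
    { toFun := fun x => ⟨g x, (mem_OO p).2 (by rw [norm_gal]; exact (mem_OO p).1 x.2)⟩
      invFun := fun x => ⟨g.symm x, (mem_OO p).2 (by
        rw [norm_gal]; exact (mem_OO p).1 x.2)⟩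
      left_inv := fun x => Subtype.ext (g.symm_apply_apply x)
      right_inv := fun x => Subtype.ext (g.apply_symm_apply x)
      map_mul' := fun x y => Subtype.ext (map_mul g _ _)
      map_add' := fun x y => Subtype.ext (map_add g _ _) }
  map_one' := rfl
  map_mul' _ _ := rfl

/-- The action of the absolute Galois group of `ℚ_p` on the residue field. -/
def ρη : Gη p →* (kb p ≃+* kb p) := IsLocalRing.ResidueField.mapAut.comp (actO p)

lemma norm_natCast_le (n : ℕ) : ‖(n : PadicAlgCl p)‖ ≤ 1 := by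
  rw [← map_natCast (algebraMap ℚ_[p] (PadicAlgCl p)), PadicAlgCl.norm_extends]
  exact Padic.norm_int_le_one n

instance : CharP (kb p) p := by
  have h : ((p : ℕ) : kb p) = 0 := by
    have h1 : ((p : ℕ) : kb p) = IsLocalRing.residue (OO p) (p : OO p) := by
      rw [map_natCast]
    rw [h1, IsLocalRing.residue_eq_zero_iff, IsLocalRing.mem_maximalIdeal, mem_nonunits_iff]
    intro hu
    obtain ⟨u, hu⟩ := hu
    have h2 : ‖((p : OO p) : PadicAlgCl p)‖ * ‖((u⁻¹ : (OO p)ˣ) : PadicAlgCl p)‖ = 1 := by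
      rw [← norm_mul, ← hu]
      have : ((u : OO p) : PadicAlgCl p) * ((u⁻¹ : (OO p)ˣ) : PadicAlgCl p) = 1 := by
        exact congrArg (fun z : OO p => (z : PadicAlgCl p)) u.mul_inv
      rw [this, norm_one]
    have h3 : ‖((u⁻¹ : (OO p)ˣ) : PadicAlgCl p)‖ ≤ 1 := (mem_OO p).1 ((u⁻¹ : (OO p)ˣ) : OO p).2
    have h4 : ‖((p : OO p) : PadicAlgCl p)‖ < 1 := by
      have : ((p : OO p) : PadicAlgCl p) = (p : PadicAlgCl p) := by simp
      rw [this, ← map_natCast (algebraMap ℚ_[p] (PadicAlgCl p)), PadicAlgCl.norm_extends,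
        Padic.norm_p]
      exact inv_lt_one_of_one_lt₀ (by exact_mod_cast (Fact.out : p.Prime).one_lt)
    nlinarith [norm_nonneg ((p : OO p) : PadicAlgCl p),
      norm_nonneg ((u⁻¹ : (OO p)ˣ) : PadicAlgCl p)]
  exact (CharP.charP_iff_prime_eq_zero Fact.out).2 h

instance : Algebra (ZMod p) (kb p) := ZMod.algebra _ p

/-- The absolute Galois group of `𝔽_p`. -/
abbrev Gs : Type := kb p ≃ₐ[ZMod p] kb p

/-- The tautological action of the absolute Galois group of `𝔽_p`. -/
def ρs : Gs p →* (kb p ≃+* kb p) where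
  toFun g := g.toRingEquiv
  map_one' := rfl
  map_mul' _ _ := rfl

/-- A continuous section of the projection from the absolute Galois group of `ℚ_p` to
the absolute Galois group of `𝔽_p`. -/
structure Sec where
  σ : Gs p →* Gη p
  cont : Continuous σ
  sec : ∀ h, ρη p (σ h) = ρs p h

/-- The arithmetic Frobenius. -/
def IsFrob (φ : Gs p) : Prop := ∀ x, φ x = x ^ p

variable (ℓ : ℕ) [Fact ℓ.Prime]

/-- A compatible system `ζ` of roots of unity of `ℓ`-power order (a basis of `ℤ_ℓ(1)`),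
a compatible system `ϖ` of `ℓ`-power roots of the uniformizer `p`, and the
resulting function `t`; its restriction to the inertia group is the tame character with
values in `ℤ_ℓ(1) ≅ ℤ_ℓ`. -/
structure Kum where
  ζ : ℕ → PadicAlgCl p
  ζ_prim : ∀ n, IsPrimitiveRoot (ζ n) (ℓ ^ n)
  ζ_succ : ∀ n, ζ (n + 1) ^ ℓ = ζ n
  ϖ : ℕ → PadicAlgCl p
  ϖ_zero : ϖ 0 = p
  ϖ_succ : ∀ n, ϖ (n + 1) ^ ℓ = ϖ n
  t : Gη p → ℤ_[ℓ]
  ht : ∀ g n, g (ϖ n) = ζ n ^ ((t g).toZModPow n).val * ϖ n

/-- The `ℓ`-adic cyclotomic character of the absolute Galois group of `ℚ_p`. -/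
def cyc : Gη p →* ℤ_[ℓ]ˣ :=
  (cyclotomicCharacter (PadicAlgCl p) ℓ).comp
    (MulSemiringAction.toRingAut (Gη p) (PadicAlgCl p))

/-- The inverse of the cyclotomic character, with values in `ℚ_ℓ`. -/
def cycInv : Gη p →* ℚ_[ℓ]ˣ :=
  (Units.map (algebraMap ℤ_[ℓ] ℚ_[ℓ]).toMonoidHom).comp ((cyc p ℓ)⁻¹)

lemma cycInv_continuous : Continuous (cycInv p ℓ) := by
  have h1 : Continuous (cyc p ℓ) := cyclotomicCharacter.continuous ℓ ℚ_[p] (PadicAlgCl p)
  have h2 : Continuous (Units.map (algebraMap ℤ_[ℓ] ℚ_[ℓ]).toMonoidHom) :=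
    Continuous.units_map _ (continuous_subtype_val)
  exact h2.comp h1.inv

end

end Pool.Agent.H72.MP
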