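import Mathlib

open CategoryTheory Limits AlgebraicGeometry

attribute [local instance] MvPolynomial.gradedAlgebra

namespace Pool.Agent.H72.MP

noncomputable section

/-- Projective space over `𝔽_p`. -/
abbrev PS (p n : ℕ) : Scheme.{0} :=
  Proj (MvPolynomial.homogeneousSubmodule (Fin (n + 1)) (ZMod p))

/-- The structure morphism of projective space. -/
def PS.toSpec (p n : ℕ) : PS p n ⟶ Spec (.of (ZMod p)) :=
  Proj.toSpecZero (MvPolynomial.homogeneousSubmodule (Fin (n + 1)) (ZMod p)) ≫
    Spec.map (CommRingCat.ofHom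
      (algebraMap (ZMod p) (MvPolynomial.homogeneousSubmodule (Fin (n + 1)) (ZMod p) 0)))

end

end Pool.Agent.H72.MP
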