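import Pool.Agent.H72.MP.Functors
import Pool.Agent.H72.MP.Der
import Pool.Agent.H72.MP.ArithDefs
import Pool.Agent.H72.MP.PSDefs

open CategoryTheory Limits AlgebraicGeometry TopologicalSpace Opposite Pretriangulated

attribute [local instance] MvPolynomial.gradedAlgebra

namespace Pool.Agent.H72.MP

noncomputable section

/-! ### Generalities on triangulated categories -/

section ext

variable {C : Type*} [Category C] [HasZeroObject C] [HasShift C ℤ] [Preadditive C]
  [∀ n : ℤ, (shiftFunctor C n).Additive] [Pretriangulated C]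

/-- The smallest class of objects containing `S` and the zero objects and stable under
isomorphisms and extensions. -/
inductive ExtCl (S : C → Prop) : C → Prop
  | of {K : C} : S K → ExtCl S K
  | zero {K : C} : IsZero K → ExtCl S K
  | iso {K L : C} (e : K ≅ L) : ExtCl S K → ExtCl S L
  | ext (T : Triangle C) : T ∈ distTriang C → ExtCl S T.obj₁ → ExtCl S T.obj₃ → ExtCl S T.obj₂

end ext

namespace Tw

/-! ### Sheaves -/

section sheaves

variable {P : MorphismProperty Scheme.{0}} {k : Type} [Field k] {G : Type} [Group G]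
  [TopologicalSpace G] [IsTopologicalGroup G] {ρ : G →* (k ≃+* k)} {X Z : Scheme.{0}}
  {ℓ : ℕ} [Fact ℓ.Prime]
  [P.IsStableUnderBaseChange] [P.IsStableUnderComposition] [P.HasOfPostcompProperty P]

instance : HasDerivedCategory.{2} (Md P ρ X ℓ) := HasDerivedCategory.standard _

/-- Lisse sheaves: locally free of finite rank. -/
def IsLisse (L : Md P ρ X ℓ) : Prop :=
  ∀ U : Tw P ρ X, ∃ S ∈ topo P ρ X U, ∀ (V : Tw P ρ X) (g : V ⟶ U), S g →
    ∃ (n : ℕ) (b : Fin n → L.val.obj (op V)), ∀ (W : Tw P ρ X) (h : W ⟶ V),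
      LinearIndependent ((ringS P ρ X ℓ).obj.obj (op W)) (fun i => rst L.val h (b i)) ∧
      ⊤ ≤ Submodule.span ((ringS P ρ X ℓ).obj.obj (op W)) (Set.range fun i => rst L.val h (b i))

/-- `E` is the extension by zero of `L` along the immersion `i : Z ⟶ X`: the subsheaf of
`i_* L` of the sections which locally vanish near the boundary of `Z`. -/
def IsExtByZero (i : Z ⟶ X) (L : Md P ρ Z ℓ) (E : Md P ρ X ℓ) : Prop :=
  ∃ m : E ⟶ (pushM P ρ ℓ i).obj L, Mono m ∧ ∀ (U : Tw P ρ X)
    (s : ((pushM P ρ ℓ i).obj L).val.obj (op U)),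
      (∃ e : E.val.obj (op U), m.val.app (op U) e = s) ↔
        ∃ S ∈ topo P ρ X U, ∀ (V : Tw P ρ X) (g : V ⟶ U), S g →
          rst ((pushM P ρ ℓ i).obj L).val g s = 0 ∨
            ∀ t : V.T, V.π t ∉ closure (Set.range i) \ Set.range i

end sheaves

/-! ### The big site and stalks -/

section big

variable {k : Type} [Field k] {G : Type} [Group G]
  [TopologicalSpace G] [IsTopologicalGroup G] {ρ : G →* (k ≃+* k)} {X Z : Scheme.{0}}
  {ℓ : ℕ} [Fact ℓ.Prime]

/-- The inclusion of the small site in the big site. -/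
@[simps]
def incl (ρ : G →* (k ≃+* k)) (X : Scheme.{0}) : Tw @WeaklyEtale ρ X ⥤ Tw ⊤ ρ X where
  obj U := { T := U.T, π := U.π, prop := trivial, α := U.α }
  map u := { f := u.f, c := u.c, w := u.w, h := u.h }

lemma incl_cover : precov @WeaklyEtale ρ X ≤ (precov ⊤ ρ X).comap (incl ρ X) := by
  intro U R hR
  obtain ⟨ι, Z, g, rfl⟩ := R.exists_eq_ofArrows
  change ((Presieve.ofArrows Z g).map _).map _ ∈ Scheme.proetalePrecoverage _
  change (Presieve.ofArrows Z g).map _ ∈ Scheme.proetalePrecoverage _ at hR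
  rw [Presieve.map_ofArrows] at hR
  rw [Presieve.map_ofArrows, Presieve.map_ofArrows]
  exact hR

instance incl_preserves : PreservesLimitsOfShape WalkingCospan (incl ρ X) where
  preservesLimit {K} := by
    have key := isPullback_of_forget (P := ⊤) (ρ := ρ) (X := X)
      (W := (incl ρ X).obj (pb (K.map WalkingCospan.Hom.inl) (K.map WalkingCospan.Hom.inr)))
      (a := (incl ρ X).map (pbFst _ _)) (b := (incl ρ X).map (pbSnd _ _))
      (u := (incl ρ X).map (K.map WalkingCospan.Hom.inl))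
      (v := (incl ρ X).map (K.map WalkingCospan.Hom.inr))
      (by rw [← Functor.map_comp, ← Functor.map_comp, pb_condition])
      (IsPullback.of_hasPullback _ _)
    have : PreservesLimit (cospan (K.map WalkingCospan.Hom.inl) (K.map WalkingCospan.Hom.inr))
        (incl ρ X) :=
      preservesLimit_of_preserves_limit_cone (isPullback_pb _ _).isLimit
        ((isLimitMapConePullbackConeEquiv (incl ρ X) (pb_condition _ _)).symm key.isLimit)
    exact preservesLimit_of_iso_diagram _ (diagramIsoCospan K).symm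

instance incl_continuous : (incl ρ X).IsContinuous (topo @WeaklyEtale ρ X) (topo ⊤ ρ X) :=
  Functor.isContinuous_toGrothendieck_of_pullbacksPreservedBy _ (precov @WeaklyEtale ρ X)
    (precov ⊤ ρ X) incl_cover

variable (ρ X ℓ) in
/-- The comparison of rings for the inclusion in the big site. -/
def φincl : ringS @WeaklyEtale ρ X ℓ ⟶
    ((incl ρ X).sheafPushforwardContinuous RingCat.{1} _ _).obj (ringS ⊤ ρ X ℓ) :=
  ⟨{ app := fun U => 𝟙 _ }⟩

variable (ρ X ℓ) in
/-- Restriction of a sheaf on the big site to the small site. -/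
def smallM : Md ⊤ ρ X ℓ ⥤ Md @WeaklyEtale ρ X ℓ :=
  SheafOfModules.pushforward (φincl ρ X ℓ)

end big

section pt

variable {k : Type} [Field k] {G : Type} [Group G]
  [TopologicalSpace G] [IsTopologicalGroup G] {ρ : G →* (k ≃+* k)} {X : Scheme.{0}}
  {ℓ : ℕ} [Fact ℓ.Prime] {P : MorphismProperty Scheme.{0}}

/-- The geometric point `z : Spec k ⟶ X`, as an object of the twisted site. -/
def ptOf (P : MorphismProperty Scheme.{0}) (ρ : G →* (k ≃+* k)) (z : Spec (.of k) ⟶ X)
    (hz : P z) : Tw P ρ X where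
  T := Spec (.of k)
  π := z
  prop := hz
  α := (Scheme.ΓSpecIso (.of k)).inv.hom

/-- The semilinear endomorphism of a geometric point defined by an element of the group. -/
def ptEnd (z : Spec (.of k) ⟶ X) (hz : P z) (g : G)
    (hg : Spec.map (CommRingCat.ofHom ((ρ g)⁻¹ : k ≃+* k).toRingHom) ≫ z = z) :
    ptOf P ρ z hz ⟶ ptOf P ρ z hz where
  f := Spec.map (CommRingCat.ofHom ((ρ g)⁻¹ : k ≃+* k).toRingHom)
  c := ContinuousMap.const _ g
  w := hg
  h := by
    intro a t
    have h1 := Scheme.ΓSpecIso_inv_naturality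
      (CommRingCat.ofHom ((ρ g)⁻¹ : k ≃+* k).toRingHom)
    have h2 := congrArg (fun q => q.hom a) h1
    change gm _ t ((Spec.map (CommRingCat.ofHom ((ρ g)⁻¹ : k ≃+* k).toRingHom)).appTop
      ((Scheme.ΓSpecIso (.of k)).inv a)) = gm _ t ((Scheme.ΓSpecIso (.of k)).inv (ρ g⁻¹ a))
    congr 1
    refine Eq.trans h2.symm ?_
    change (Scheme.ΓSpecIso (.of k)).inv ((ρ g)⁻¹ a) = (Scheme.ΓSpecIso (.of k)).inv (ρ g⁻¹ a)
    rw [map_inv]

variable [P.IsStableUnderBaseChange] [P.IsStableUnderComposition] [P.HasOfPostcompProperty P]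

/-- The `ℚ_ℓ`-vector space structure on sections. -/
@[instance_reducible]
def secModule (M : Md P ρ X ℓ) (U : Tw P ρ X) : Module ℚ_[ℓ] (M.val.obj (op U)) :=
  Module.compHom _ (cst (op U) : ℚ_[ℓ] →+* (ringS P ρ X ℓ).obj.obj (op U))

attribute [local instance] secModule

/-- Restriction of sections, as a `ℚ_ℓ`-linear map. -/
def rstL (M : Md P ρ X ℓ) {U V : Tw P ρ X} (u : V ⟶ U) :
    M.val.obj (op U) →ₗ[ℚ_[ℓ]] M.val.obj (op V) where
  toFun x := rst M.val u x
  map_add' := rst_add M.val u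
  map_smul' a x := rst_smul M.val u (cst (op U) a) x

end pt

end Tw

open Tw

attribute [local instance] secModule

variable (p : ℕ) [Fact p.Prime] (ℓ : ℕ) [Fact ℓ.Prime]

/-! ### Weights -/

/-- A Weil number: algebraic over `ℚ`, all of whose complex conjugates have absolute value
`q ^ (v / 2)`. -/
def IsWeil (q : ℕ) (v : ℤ) (x : AlgebraicClosure ℚ_[ℓ]) : Prop :=
  IsAlgebraic ℚ x ∧ ∀ z : ℂ, Polynomial.aeval z (minpoly ℚ x) = 0 → ‖z‖ ^ 2 = (q : ℝ) ^ v

variable {p ℓ}

/-- Pointwise purity of a lisse sheaf on a scheme `Z` over `𝔽_p`: for every geometric point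
fixed by the `n`-th power of the Frobenius, the eigenvalues of the `n`-th power of the
geometric Frobenius on the stalk are Weil numbers of weight `v`.  (Stalks are
computed on the big site.) -/
def PointwisePure {Z : Scheme.{0}} (v : ℤ) (L : Md @WeaklyEtale (ρs p) Z ℓ) : Prop :=
  ∃ Lb : Md ⊤ (ρs p) Z ℓ, IsLisse Lb ∧ Nonempty ((smallM (ρs p) Z ℓ).obj Lb ≅ L) ∧
    ∀ (φ : Gs p), IsFrob p φ → ∀ (n : ℕ), 0 < n → ∀ (z : Spec (.of (kb p)) ⟶ Z)
      (hz : Spec.map (CommRingCat.ofHom ((ρs p (φ ^ n))⁻¹ : kb p ≃+* kb p).toRingHom) ≫ z = z)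
      (a : AlgebraicClosure ℚ_[ℓ]),
      Polynomial.aeval a (minpoly ℚ_[ℓ] (show Module.End ℚ_[ℓ] (Lb.val.obj (op (ptOf ⊤ (ρs p) z
        trivial))) from rstL Lb (ptEnd z trivial (φ ^ n) hz))) = 0 → IsWeil ℓ (p ^ n) v a

variable (p ℓ)

/-- Sheaves on `X` (over `𝔽_p`) with an action of the Galois group of `ℚ_p`. -/
abbrev Shη (X : Scheme.{0}) := Md @WeaklyEtale (ρη p) X ℓ
/-- Sheaves on `X` (over `𝔽_p`). -/
abbrev Shs (X : Scheme.{0}) := Md @WeaklyEtale (ρs p) X ℓ
/-- The trivial homomorphism, whose associated site is the site of the geometric fibre. -/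
abbrev ρb : Unit →* (kb p ≃+* kb p) := 1
/-- Sheaves on the base change of `X` to the algebraic closure of `𝔽_p`. -/
abbrev Shb (X : Scheme.{0}) := Md @WeaklyEtale (ρb p) X ℓ

/-- The derived category of the Deligne topos `X ×_s η`. -/
abbrev Dη (X : Scheme.{0}) := DerivedCategory (Shη p ℓ X)
/-- The derived category of `X`. -/
abbrev Ds (X : Scheme.{0}) := DerivedCategory (Shs p ℓ X)
/-- The derived category of the base change of `X` to the algebraic closure of `𝔽_p`. -/
abbrev Db (X : Scheme.{0}) := DerivedCategory (Shb p ℓ X)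

/-! ### Constructible complexes and the perverse t-structure -/

section perverse

variable {G : Type} [Group G] [TopologicalSpace G] [IsTopologicalGroup G]
  (ρ : G →* (kb p ≃+* kb p)) {ℓ} {p} {X : Scheme.{0}}

/-- `Z` is smooth over `𝔽_p`. -/
def SmoothOver (p : ℕ) (Z : Scheme.{0}) : Prop :=
  ∃ s : Z ⟶ Spec (.of (ZMod p)), Smooth s

variable {ρ}

/-- The complex `R i_* L [-j]`; for a closed immersion `i_*` is exact and one may
take `i_* L [-j]`. -/
def IsDirectImage {Z : Scheme.{0}} (i : Z ⟶ X) (L : Md @WeaklyEtale ρ Z ℓ) (j : ℤ)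
    (K : DerivedCategory (Md @WeaklyEtale ρ X ℓ)) : Prop :=
  Nonempty (K ≅ DerivedCategory.Plus.ι.obj ((pushM @WeaklyEtale ρ ℓ i).rightDerivedFunctorPlus.obj
    ((DerivedCategory.Plus.singleFunctor _ j).obj L))) ∨
  (IsClosedImmersion i ∧ Nonempty (K ≅ (DerivedCategory.singleFunctor _ j).obj
    ((pushM @WeaklyEtale ρ ℓ i).obj L)))

/-- Bounded constructible complexes. -/
def IsDbc (K : DerivedCategory (Md @WeaklyEtale ρ X ℓ)) : Prop :=
  ExtCl (fun K => ∃ (Z : Scheme.{0}) (i : Z ⟶ X) (_ : IsImmersion i)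
    (L : Md @WeaklyEtale ρ Z ℓ) (E : Md @WeaklyEtale ρ X ℓ) (j : ℤ),
      IsLisse L ∧ IsExtByZero i L E ∧
      Nonempty (K ≅ (DerivedCategory.singleFunctor _ j).obj E)) K

/-- The aisle `≤ m` of the perverse t-structure. -/
def PLE (m : ℤ) (K : DerivedCategory (Md @WeaklyEtale ρ X ℓ)) : Prop :=
  ExtCl (fun K => ∃ (Z : Scheme.{0}) (i : Z ⟶ X) (_ : IsImmersion i)
    (L : Md @WeaklyEtale ρ Z ℓ) (E : Md @WeaklyEtale ρ X ℓ) (j : ℤ) (d : ℕ),
      IsLisse L ∧ IsExtByZero i L E ∧ topologicalKrullDim Z ≤ d ∧ j + d ≤ m ∧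
      Nonempty (K ≅ (DerivedCategory.singleFunctor _ j).obj E)) K

/-- The coaisle `≥ m` of the perverse t-structure. -/
def PGE (m : ℤ) (K : DerivedCategory (Md @WeaklyEtale ρ X ℓ)) : Prop :=
  ExtCl (fun K => ∃ (Z : Scheme.{0}) (i : Z ⟶ X) (_ : IsImmersion i) (_ : IrreducibleSpace Z)
    (_ : SmoothOver p Z) (L : Md @WeaklyEtale ρ Z ℓ) (j : ℤ) (d : ℕ),
      IsLisse L ∧ (d : WithBot ℕ∞) ≤ topologicalKrullDim Z ∧ m ≤ j + d ∧
      IsDirectImage i L j K) K

/-- Perverse sheaves. -/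
def IsPerv (K : DerivedCategory (Md @WeaklyEtale ρ X ℓ)) : Prop := PLE 0 K ∧ PGE 0 K

/-- `Q` is the `i`-th perverse cohomology sheaf of `K`. -/
def IsPervCoh (i : ℤ) (K Q : DerivedCategory (Md @WeaklyEtale ρ X ℓ)) : Prop :=
  ∃ T₁ ∈ distTriang (DerivedCategory (Md @WeaklyEtale ρ X ℓ)),
  ∃ T₂ ∈ distTriang (DerivedCategory (Md @WeaklyEtale ρ X ℓ)),
    Nonempty (T₁.obj₂ ≅ K) ∧ PLE i T₁.obj₁ ∧ PGE (i + 1) T₁.obj₃ ∧
    Nonempty (T₂.obj₂ ≅ T₁.obj₁) ∧ PLE (i - 1) T₂.obj₁ ∧ PGE i T₂.obj₃ ∧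
    Nonempty (Q ≅ T₂.obj₃⟦i⟧)

end perverse

section weights

variable {p ℓ} {X : Scheme.{0}}

/-- Weights `≤ w` in the sense of Deligne. -/
def WLE (w : ℤ) (K : Ds p ℓ X) : Prop :=
  ExtCl (fun K => ∃ (Z : Scheme.{0}) (i : Z ⟶ X) (_ : IsImmersion i)
    (L : Shs p ℓ Z) (E : Shs p ℓ X) (j v : ℤ),
      IsLisse L ∧ PointwisePure v L ∧ IsExtByZero i L E ∧ v ≤ w + j ∧
      Nonempty (K ≅ (DerivedCategory.singleFunctor _ j).obj E)) K

/-- Weights `≥ w` in the sense of Deligne. -/
def WGE (w : ℤ) (K : Ds p ℓ X) : Prop :=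
  ExtCl (fun K => ∃ (Z : Scheme.{0}) (i : Z ⟶ X) (_ : IsImmersion i) (_ : SmoothOver p Z)
    (L : Shs p ℓ Z) (j v : ℤ),
      IsLisse L ∧ PointwisePure v L ∧ w + j ≤ v ∧ IsDirectImage i L j K) K

/-- Mixed complexes. -/
def IsMixedS (K : Ds p ℓ X) : Prop :=
  ExtCl (fun K => ∃ (Z : Scheme.{0}) (i : Z ⟶ X) (_ : IsImmersion i)
    (L : Shs p ℓ Z) (E : Shs p ℓ X) (j v : ℤ),
      IsLisse L ∧ PointwisePure v L ∧ IsExtByZero i L E ∧
      Nonempty (K ≅ (DerivedCategory.singleFunctor _ j).obj E)) K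

variable (X ℓ) in
/-- The pull-back along a section of the projection of Galois groups. -/
def sigM (s : Sec p) : Shη p ℓ X ⥤ Shs p ℓ X :=
  resM @WeaklyEtale X ℓ s.σ s.cont s.sec

instance (s : Sec p) : (sigM ℓ X s).Additive := by unfold sigM; infer_instance
instance (s : Sec p) : PreservesFiniteLimits (sigM ℓ X s) := by unfold sigM; infer_instance
instance (s : Sec p) : PreservesFiniteColimits (sigM ℓ X s) := by unfold sigM; infer_instance

variable (X ℓ) in
/-- The pull-back along a section of the projection of Galois groups. -/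
def sigD (s : Sec p) : Dη p ℓ X ⥤ Ds p ℓ X := (sigM ℓ X s).mapDerivedCategory

/-- Mixed complexes on `X ×_s η`. -/
def IsMixed (K : Dη p ℓ X) : Prop := ∀ s : Sec p, IsMixedS ((sigD ℓ X s).obj K)

/-- Pure complexes on `X ×_s η`. -/
def IsPure (w : ℤ) (K : Dη p ℓ X) : Prop :=
  ∀ s : Sec p, WLE w ((sigD ℓ X s).obj K) ∧ WGE w ((sigD ℓ X s).obj K)

end weights

section monodromy

variable (X : Scheme.{0})

/-- The Tate twist by `ℚ_ℓ(-1)`. -/
def tateM : Shη p ℓ X ⥤ Shη p ℓ X := twM (cycInv p ℓ) (cycInv_continuous p ℓ)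

instance : (tateM p ℓ X).Additive := by unfold tateM; infer_instance
instance : PreservesFiniteLimits (tateM p ℓ X) := by unfold tateM; infer_instance
instance : PreservesFiniteColimits (tateM p ℓ X) := by unfold tateM; infer_instance

/-- The Tate twist by `ℚ_ℓ(-1)` on complexes. -/
def tate : Dη p ℓ X ⥤ Dη p ℓ X := (tateM p ℓ X).mapDerivedCategory

/-- Forgetting the action of the Galois group. -/
def geoM : Shη p ℓ X ⥤ Shb p ℓ X :=
  resM @WeaklyEtale X ℓ (1 : Unit →* Gη p) continuous_const (fun _ => map_one (ρη p))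

instance : (geoM p ℓ X).Additive := by unfold geoM; infer_instance
instance : PreservesFiniteLimits (geoM p ℓ X) := by unfold geoM; infer_instance
instance : PreservesFiniteColimits (geoM p ℓ X) := by unfold geoM; infer_instance

/-- Forgetting the action of the Galois group, on complexes. -/
def geo : Dη p ℓ X ⥤ Db p ℓ X := (geoM p ℓ X).mapDerivedCategory

lemma kapM_aux (M : Shη p ℓ X) {U V : Tw @WeaklyEtale (ρb p) X} (u : V ⟶ U)
    (x : M.val.obj (op ((res (1 : Unit →* Gη p) continuous_const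
      (fun _ => map_one (ρη p))).obj U))) :
    (chiF (cycInv p ℓ) (cycInv_continuous p ℓ) (((res (1 : Unit →* Gη p) continuous_const
      (fun _ => map_one (ρη p))).map u).c)⁻¹ • rst M.val ((res (1 : Unit →* Gη p)
        continuous_const (fun _ => map_one (ρη p))).map u) x : M.val.obj (op ((res (1 : Unit →* Gη p)
          continuous_const (fun _ => map_one (ρη p))).obj V))) =
    rst M.val ((res (1 : Unit →* Gη p) continuous_const (fun _ => map_one (ρη p))).map u) x := by
  have h : (((res (1 : Unit →* Gη p) continuous_const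
      (fun _ => map_one (ρη p))).map u).c)⁻¹ = 1 := by
    ext t : 1
    exact inv_one
  rw [h, chiF_one, one_smul]

/-- After forgetting the Galois action, the Tate twist is trivial (by the choice of a basis
of `ℤ_ℓ(1)`). -/
def kapM : tateM p ℓ X ⋙ geoM p ℓ X ≅ geoM p ℓ X where
  hom :=
    { app := fun M => ⟨{ app := fun U => 𝟙 (M.val.obj (op ((res (1 : Unit →* Gη p)
                          continuous_const (fun _ => map_one (ρη p))).obj U.unop)))
                         naturality := fun {U V} u => by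
                          ext x
                          exact kapM_aux p ℓ X M u.unop x }⟩ }
  inv :=
    { app := fun M => ⟨{ app := fun U => 𝟙 (M.val.obj (op ((res (1 : Unit →* Gη p)
                          continuous_const (fun _ => map_one (ρη p))).obj U.unop)))
                         naturality := fun {U V} u => by
                          ext x
                          exact (kapM_aux p ℓ X M u.unop x).symm }⟩ }

/-- After forgetting the Galois action, the Tate twist is trivial. -/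
def kap : tate p ℓ X ⋙ geo p ℓ X ≅ geo p ℓ X :=
  dComp (tateM p ℓ X) (geoM p ℓ X) ≪≫ dIso (kapM p ℓ X)

/-- The action of an element of the inertia group, after forgetting the Galois action. -/
def inertia (g : Gη p) (hg : ρη p g = 1) : geo p ℓ X ⟶ geo p ℓ X :=
  dNat (gNat @WeaklyEtale X ℓ (1 : Unit →* Gη p) continuous_const (fun _ => map_one (ρη p))
    g⁻¹ (by rw [map_inv, hg, inv_one]) (fun _ => by simp))

variable {p ℓ X} (κ : Kum p ℓ)

/-- The endomorphism `N` of the underlying complex on the geometric fibre. -/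
def logOp {K : Dη p ℓ X} (N : K ⟶ (tate p ℓ X).obj K) : End ((geo p ℓ X).obj K) :=
  (geo p ℓ X).map N ≫ (kap p ℓ X).hom.app K

/-- `N` is the logarithm of the monodromy: it is nilpotent and the elements `g` of an
open subgroup of the inertia group act by `exp (t g N)`. -/
def IsLogMonodromy {K : Dη p ℓ X} (N : K ⟶ (tate p ℓ X).obj K) : Prop :=
  ∃ n : ℕ, (logOp N) ^ n = 0 ∧ ∃ U : Subgroup (Gη p), IsOpen (U : Set (Gη p)) ∧
    ∀ g ∈ U, ∀ hg : ρη p g = 1, (inertia p ℓ X g hg).app K =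
      ∑ j ∈ Finset.range n, (((κ.t g : ℚ_[ℓ]) ^ j * (j.factorial : ℚ_[ℓ])⁻¹) •
        (show End ((geo p ℓ X).obj K) from (logOp N) ^ j))

/-- The integer `m + 2 j`. -/
def up (m : ℤ) : ℕ → ℤ
  | 0 => m
  | (j + 1) => up m j + 2

/-- The iterated Tate twists. -/
def tates (p ℓ : ℕ) [Fact p.Prime] [Fact ℓ.Prime] (X : Scheme.{0}) : ℕ → Dη p ℓ X ⥤ Dη p ℓ X
  | 0 => 𝟭 _
  | (j + 1) => tates p ℓ X j ⋙ tate p ℓ X

/-- The iterates of a morphism of degree `-2`. -/
def iter (gr : ℤ → Dη p ℓ X) (ν : ∀ k, gr (k + 2) ⟶ (tate p ℓ X).obj (gr k)) (m : ℤ) :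
    ∀ j : ℕ, gr (up m j) ⟶ (tates p ℓ X j).obj (gr m)
  | 0 => 𝟙 _
  | (j + 1) => ν (up m j) ≫ (tate p ℓ X).map (iter gr ν m j)

/-- The monodromy filtration of a perverse sheaf `K` with the operator `N`. -/
structure MonFil (K : Dη p ℓ X) (N : K ⟶ (tate p ℓ X).obj K) where
  /-- the steps of the filtration -/
  M : ℤ → Dη p ℓ X
  perv_M : ∀ k, IsPerv (M k)
  /-- their inclusions in `K` -/
  inc : ∀ k, M k ⟶ K
  /-- the inclusions between them -/
  s : ∀ k, M k ⟶ M (k + 1)
  s_inc : ∀ k, s k ≫ inc (k + 1) = inc k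
  low : ∃ a, ∀ k ≤ a, IsZero (M k)
  high : ∃ b, ∀ k ≥ b, IsIso (inc k)
  /-- the graded pieces -/
  gr : ℤ → Dη p ℓ X
  perv_gr : ∀ k, IsPerv (gr k)
  /-- the projections to the graded pieces -/
  q : ∀ k, M k ⟶ gr k
  /-- the connecting morphisms -/
  δ : ∀ k, gr (k + 1) ⟶ (M k)⟦(1 : ℤ)⟧
  dist : ∀ k, Triangle.mk (s k) (q (k + 1)) (δ k) ∈ distTriang (Dη p ℓ X)
  /-- the operator on the filtration -/
  Nk : ∀ k, M (k + 2) ⟶ (tate p ℓ X).obj (M k)
  Nk_inc : ∀ k, Nk k ≫ (tate p ℓ X).map (inc k) = inc (k + 2) ≫ N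
  /-- the operator on the graded pieces -/
  ν : ∀ k, gr (k + 2) ⟶ (tate p ℓ X).obj (gr k)
  q_ν : ∀ k, q (k + 2) ≫ ν k = Nk k ≫ (tate p ℓ X).map (q k)
  iso : ∀ j : ℕ, IsIso (iter gr ν (-j) j)

/-- Monodromy-pure perverse sheaves of weight `w`. -/
def IsMonodromyPurePerv (w : ℤ) (K : Dη p ℓ X) : Prop :=
  IsPerv K ∧ IsMixed K ∧ ∃ N : K ⟶ (tate p ℓ X).obj K, IsLogMonodromy κ N ∧
    ∃ F : MonFil K N, ∀ k, IsPure (k + w) (F.gr k)

/-- Monodromy-pure complexes of weight `w`. -/
def IsMonodromyPure (w : ℤ) (K : Dη p ℓ X) : Prop :=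
  IsDbc K ∧ ∀ i : ℤ, ∃ Q : Dη p ℓ X, IsPervCoh i K Q ∧ IsMonodromyPurePerv κ (w + i) Q

end monodromy

/-! ### Projective morphisms -/

/-- A morphism of schemes over `𝔽_p` is projective if it factors as a closed immersion
in a relative projective space followed by the projection. -/
def IsProj (p : ℕ) {X Y : Scheme.{0}} (sY : Y ⟶ Spec (.of (ZMod p))) (f : X ⟶ Y) : Prop :=
  ∃ (n : ℕ) (c : X ⟶ pullback sY (PS.toSpec p n)), IsClosedImmersion c ∧
    c ≫ pullback.fst sY (PS.toSpec p n) = f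

end

end Pool.Agent.H72.MP
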