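import Mathlib

open CategoryTheory Limits Category

universe w v u w' v' u'

namespace Pool.Agent.H72.MP

noncomputable section

variable {A : Type u} [Category.{v} A] [Abelian A] [HasDerivedCategory.{w} A]
  {B : Type u'} [Category.{v'} B] [Abelian B] [HasDerivedCategory.{w'} B]
  (F : A ⥤ B) [F.Additive] [PreservesFiniteLimits F] [PreservesFiniteColimits F]
  [EnoughInjectives A]

lemma isIso_Qh_map {X Y : HomotopyCategory.Plus A} (f : X ⟶ Y)
    (hf : HomotopyCategory.Plus.quasiIso A f) :
    IsIso (DerivedCategory.Plus.Qh.map (F.mapHomotopyCategoryPlus.map f)) := by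
  have h1 : IsIso (DerivedCategory.Qh.map f.hom) :=
    Localization.inverts DerivedCategory.Qh (HomotopyCategory.quasiIso A (ComplexShape.up ℤ)) _ hf
  have h2 : IsIso (DerivedCategory.Qh.map ((F.mapHomotopyCategory (ComplexShape.up ℤ)).map
      f.hom)) := by
    have h3 := F.mapDerivedCategoryFactorsh.hom.naturality f.hom
    have h4 : (F.mapHomotopyCategory (ComplexShape.up ℤ) ⋙ DerivedCategory.Qh).map f.hom =
        inv (F.mapDerivedCategoryFactorsh.hom.app _) ≫
          (DerivedCategory.Qh ⋙ F.mapDerivedCategory).map f.hom ≫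
            F.mapDerivedCategoryFactorsh.hom.app _ := by
      rw [h3, IsIso.inv_hom_id_assoc]
    have h5 : IsIso ((DerivedCategory.Qh ⋙ F.mapDerivedCategory).map f.hom) := by
      change IsIso (F.mapDerivedCategory.map (DerivedCategory.Qh.map f.hom))
      infer_instance
    have h6 : IsIso ((F.mapHomotopyCategory (ComplexShape.up ℤ) ⋙ DerivedCategory.Qh).map
        f.hom) := by
      rw [h4]
      infer_instance
    exact h6
  have h7 : IsIso (DerivedCategory.Plus.ι.map
      (DerivedCategory.Plus.Qh.map (F.mapHomotopyCategoryPlus.map f))) := h2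
  exact isIso_of_fully_faithful DerivedCategory.Plus.ι _

lemma isIso_unit (X : HomotopyCategory.Plus A) : IsIso (F.rightDerivedFunctorPlusUnit.app X) := by
  let r : (HomotopyCategory.Plus.localizerMorphism A).RightResolution X := Classical.arbitrary _
  have h1 := F.rightDerivedFunctorPlusUnit.naturality r.w
  have h2 : IsIso ((F.mapHomotopyCategoryPlus ⋙ DerivedCategory.Plus.Qh).map r.w) :=
    isIso_Qh_map F r.w r.hw
  have h3 : IsIso (DerivedCategory.Plus.Qh.map r.w) :=
    Localization.inverts DerivedCategory.Plus.Qh _ _ r.hw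
  have h4 : IsIso ((DerivedCategory.Plus.Qh ⋙ F.rightDerivedFunctorPlus).map r.w) :=
    inferInstanceAs (IsIso (F.rightDerivedFunctorPlus.map (DerivedCategory.Plus.Qh.map r.w)))
  have h5 : IsIso (F.rightDerivedFunctorPlusUnit.app
      ((HomotopyCategory.Plus.localizerMorphism A).functor.obj r.X₁)) :=
    inferInstanceAs (IsIso (F.rightDerivedFunctorPlusUnit.app
      ((InjectiveObject.ι A).mapHomotopyCategoryPlus.obj r.X₁)))
  have h6 : F.rightDerivedFunctorPlusUnit.app X =
      (F.mapHomotopyCategoryPlus ⋙ DerivedCategory.Plus.Qh).map r.w ≫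
        F.rightDerivedFunctorPlusUnit.app _ ≫
        inv ((DerivedCategory.Plus.Qh ⋙ F.rightDerivedFunctorPlus).map r.w) := by
    rw [← assoc, h1, assoc, IsIso.hom_inv_id, comp_id]
  rw [h6]
  infer_instance

/-- The right derived functor of an exact functor. -/
lemma derExact (K : DerivedCategory.Plus A) :
    Nonempty (DerivedCategory.Plus.ι.obj (F.rightDerivedFunctorPlus.obj K) ≅
      F.mapDerivedCategory.obj (DerivedCategory.Plus.ι.obj K)) := by
  have := isIso_unit F (DerivedCategory.Plus.Qh.objPreimage K)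
  let e := DerivedCategory.Plus.Qh.objObjPreimageIso K
  exact ⟨DerivedCategory.Plus.ι.mapIso (F.rightDerivedFunctorPlus.mapIso e.symm ≪≫
    (asIso (F.rightDerivedFunctorPlusUnit.app (DerivedCategory.Plus.Qh.objPreimage K))).symm) ≪≫
    (F.mapDerivedCategoryFactorsh.app (DerivedCategory.Plus.Qh.objPreimage K).obj).symm ≪≫
    F.mapDerivedCategory.mapIso (DerivedCategory.Plus.ι.mapIso e)⟩

lemma derExact_single (L : A) (j : ℤ) :
    Nonempty (DerivedCategory.Plus.ι.obj (F.rightDerivedFunctorPlus.obj
      ((DerivedCategory.Plus.singleFunctor A j).obj L)) ≅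
      (DerivedCategory.singleFunctor B j).obj (F.obj L)) := by
  obtain ⟨e⟩ := derExact F ((DerivedCategory.Plus.singleFunctor A j).obj L)
  exact ⟨e ≪≫ (F.mapDerivedCategorySingleFunctor j).app L⟩

end

end Pool.Agent.H72.MP
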