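import Pool.Agent.H72.MP.Lin
import Pool.Agent.H72.MP.Exact

open CategoryTheory Limits AlgebraicGeometry TopologicalSpace Opposite

namespace Pool.Agent.H72.MP

namespace Tw

noncomputable section

variable {P : MorphismProperty Scheme.{0}} {kb : Type} [Field kb] {G : Type} [Group G]
  [TopologicalSpace G] [IsTopologicalGroup G] {ρ : G →* (kb ≃+* kb)} {X : Scheme.{0}}
  {ℓ : ℕ} [Fact ℓ.Prime]
  [P.IsStableUnderBaseChange] [P.IsStableUnderComposition] [P.HasOfPostcompProperty P]

section res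

variable {H : Type} [Group H] [TopologicalSpace H] [IsTopologicalGroup H]
  {ρH : H →* (kb ≃+* kb)} (σ : H →* G) (hσc : Continuous σ) (hσ : ∀ h, ρ (σ h) = ρH h)

variable (P X ℓ) in
/-- The comparison of rings for the change of groups. -/
def φres : ringS P ρH X ℓ ⟶
    ((res (P := P) (X := X) σ hσc hσ).sheafPushforwardContinuous RingCat.{1} _ _).obj
      (ringS P ρ X ℓ) :=
  ⟨{ app := fun U => 𝟙 _ }⟩

variable (P X ℓ) in
/-- Restriction of sheaves along a homomorphism of groups. -/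
def resM : Md P ρ X ℓ ⥤ Md P ρH X ℓ :=
  SheafOfModules.pushforward (φres P X ℓ σ hσc hσ)

instance : (resM P X ℓ σ hσc hσ).Additive := pushforward_additive _

instance : PreservesFiniteLimits (resM P X ℓ σ hσc hσ) :=
  inferInstanceAs (PreservesFiniteLimits (SheafOfModules.pushforward _))

instance : PreservesFiniteColimits (resM P X ℓ σ hσc hσ) :=
  pushforward_preservesFiniteColimits_of_cocontinuous _

end res

section pull

variable {Y : Scheme.{0}} (f : X ⟶ Y)

/-- The projection of a base change, as a continuous map. -/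
def pbMap (U : Tw P ρ Y) : C(((pull f).obj U : Tw P ρ X).T, U.T) :=
  ⟨pullback.fst U.π f, (pullback.fst U.π f).continuous⟩

omit [P.IsStableUnderComposition] [P.HasOfPostcompProperty P] in
lemma pbMap_comp {U V : Tw P ρ Y} (u : U ⟶ V) (t : ((pull f).obj U : Tw P ρ X).T) :
    pbMap f V (((pull f).map u).f t) = u.f (pbMap f U t) :=
  lift_fst_pt (pull_w u.w) t

variable (P ρ ℓ) in
/-- The comparison of rings for the base change functor. -/
def φpull : ringS P ρ Y ℓ ⟶
    ((pull (P := P) (ρ := ρ) f).sheafPushforwardContinuous RingCat.{1} _ _).obj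
      (ringS P ρ X ℓ) :=
  ⟨{ app := fun U => RingCat.ofHom
      { toFun := fun φ => (⟨φ.down.comp (pbMap f U.unop)⟩ :
          ULift.{1} C(((pull f).obj U.unop : Tw P ρ X).T, ℚ_[ℓ]))
        map_one' := rfl
        map_mul' := fun _ _ => rfl
        map_zero' := rfl
        map_add' := fun _ _ => rfl }
     naturality := fun {U V} u => by
      ext φ
      refine ULift.down_injective (ContinuousMap.ext fun t => ?_)
      exact congrArg φ.down (pbMap_comp f u.unop t).symm }⟩

variable (P ρ ℓ) in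
/-- Push-forward of sheaves. -/
def pushM : Md P ρ X ℓ ⥤ Md P ρ Y ℓ :=
  SheafOfModules.pushforward (φpull P ρ ℓ f)

instance : (pushM P ρ ℓ f).Additive := pushforward_additive _

instance : PreservesFiniteLimits (pushM P ρ ℓ f) :=
  inferInstanceAs (PreservesFiniteLimits (SheafOfModules.pushforward _))

end pull

section tw

variable (χ : G →* ℚ_[ℓ]ˣ) (hχ : Continuous χ)

/-- The function `t ↦ χ (c t)`. -/
def chiF {U : Tw P ρ X} (c : C(U.T, G)) : (ringS P ρ X ℓ).obj.obj (op U) :=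
  (⟨⟨fun t => (χ (c t) : ℚ_[ℓ]), by fun_prop⟩⟩ : ULift.{1} C(U.T, ℚ_[ℓ]))

lemma chiF_mul {U : Tw P ρ X} (c d : C(U.T, G)) :
    chiF χ hχ (c * d) = chiF χ hχ c * chiF (ρ := ρ) χ hχ d := by
  refine ULift.down_injective (ContinuousMap.ext fun t => ?_)
  change ((χ (c t * d t) : ℚ_[ℓ]ˣ) : ℚ_[ℓ]) = (χ (c t) : ℚ_[ℓ]) * (χ (d t) : ℚ_[ℓ])
  rw [map_mul, Units.val_mul]

lemma chiF_one {U : Tw P ρ X} : chiF (ρ := ρ) χ hχ (1 : C(U.T, G)) = 1 := by
  refine ULift.down_injective (ContinuousMap.ext fun t => ?_)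
  change ((χ 1 : ℚ_[ℓ]ˣ) : ℚ_[ℓ]) = 1
  rw [map_one, Units.val_one]

lemma chiF_map {U V : Tw P ρ X} (u : U ⟶ V) (c : C(V.T, G)) :
    (ringS P ρ X ℓ).obj.map u.op (chiF χ hχ c) = chiF χ hχ (c.comp ⟨u.f, by fun_prop⟩) := rfl

lemma chiF_inv_mul {U : Tw P ρ X} (c : C(U.T, G)) :
    chiF χ hχ c⁻¹ * chiF (ρ := ρ) χ hχ c = 1 := by
  rw [← chiF_mul, inv_mul_cancel, chiF_one]

lemma chiF_mul_inv {U : Tw P ρ X} (c : C(U.T, G)) :
    chiF χ hχ c * chiF (ρ := ρ) χ hχ c⁻¹ = 1 := by
  rw [← chiF_mul, mul_inv_cancel, chiF_one]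

section rst

variable (M : PresheafOfModules.{1} (ringS P ρ X ℓ).obj)

/-- Restriction of sections. -/
def rst {V U : Tw P ρ X} (u : V ⟶ U) (x : M.obj (op U)) : M.obj (op V) := M.map u.op x

lemma rst_id (U : Tw P ρ X) (x : M.obj (op U)) : rst M (𝟙 U) x = x := by
  have h := M.presheaf.map_id (op U)
  exact congrArg (fun f : M.presheaf.obj (op U) ⟶ M.presheaf.obj (op U) => f.hom x) h

lemma rst_comp {W V U : Tw P ρ X} (v : W ⟶ V) (u : V ⟶ U) (x : M.obj (op U)) :
    rst M (v ≫ u) x = rst M v (rst M u x) := M.map_comp_apply u.op v.op x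

lemma rst_smul {V U : Tw P ρ X} (u : V ⟶ U) (r : (ringS P ρ X ℓ).obj.obj (op U))
    (x : M.obj (op U)) : rst M u (r • x) = ((ringS P ρ X ℓ).obj.map u.op r :
      (ringS P ρ X ℓ).obj.obj (op V)) • rst M u x := M.map_smul u.op r x

lemma rst_add {V U : Tw P ρ X} (u : V ⟶ U) (x y : M.obj (op U)) :
    rst M u (x + y) = rst M u x + rst M u y := (M.map u.op).hom.map_add x y

lemma rst_zero {V U : Tw P ρ X} (u : V ⟶ U) : rst M u 0 = 0 := (M.map u.op).hom.map_zero

end rst

set_option backward.isDefEq.respectTransparency false in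
/-- The twisted presheaf of modules. -/
def twP (M : PresheafOfModules.{1} (ringS P ρ X ℓ).obj) :
    PresheafOfModules.{1} (ringS P ρ X ℓ).obj where
  obj U := M.obj U
  map {U V} u := ModuleCat.ofHom
    (Y := (ModuleCat.restrictScalars ((ringS P ρ X ℓ).obj.map u).hom).obj (M.obj V))
    { toFun := fun x => chiF χ hχ (u.unop.c)⁻¹ • rst M u.unop x
      map_add' := fun x y => by
        rw [rst_add, smul_add]
      map_smul' := fun r x => by
        rw [rst_smul, smul_smul, ringS_mul_comm, mul_smul]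
        rfl }
  map_id U := by
    ext x
    change chiF χ hχ (1 : C(U.unop.T, G))⁻¹ • rst M (𝟙 U.unop) x = x
    rw [inv_one, chiF_one, rst_id, one_smul]
  map_comp {U V W} u v := by
    ext x
    change chiF χ hχ (u.unop.c.comp ⟨v.unop.f, by fun_prop⟩ * v.unop.c)⁻¹ •
      rst M (v.unop ≫ u.unop) x =
      chiF χ hχ (v.unop.c)⁻¹ • rst M v.unop (chiF χ hχ (u.unop.c)⁻¹ • rst M u.unop x)
    rw [rst_smul, smul_smul, mul_inv_rev, chiF_mul, rst_comp, chiF_map]
    rfl

lemma twP_rst (M : PresheafOfModules.{1} (ringS P ρ X ℓ).obj) {U V : Tw P ρ X}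
    (u : V ⟶ U) (x : M.obj (op U)) :
    rst (twP χ hχ M) u x = (chiF χ hχ (u.c)⁻¹ • rst M u x : M.obj (op V)) := rfl

lemma tw_key (M : PresheafOfModules.{1} (ringS P ρ X ℓ).obj) {W Z U : Tw P ρ X} (a : W ⟶ Z)
    (g : Z ⟶ U) (x : M.obj (op Z)) : rst M a (chiF χ hχ g.c • x) =
      chiF χ hχ (a ≫ g).c • (chiF χ hχ (a.c)⁻¹ • rst M a x) := by
  rw [smul_smul, rst_smul, chiF_map, comp_c, chiF_mul, mul_assoc, chiF_mul_inv, mul_one]

lemma tw_cancel (M : PresheafOfModules.{1} (ringS P ρ X ℓ).obj) {Z : Tw P ρ X} (c : C(Z.T, G))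
    (x : M.obj (op Z)) : chiF χ hχ c⁻¹ • (chiF χ hχ c • x) = x := by
  rw [smul_smul, chiF_inv_mul, one_smul]

lemma tw_cancel' (M : PresheafOfModules.{1} (ringS P ρ X ℓ).obj) {Z : Tw P ρ X} (c : C(Z.T, G))
    (x : M.obj (op Z)) : chiF χ hχ c • (chiF χ hχ c⁻¹ • x) = x := by
  rw [smul_smul, chiF_mul_inv, one_smul]

lemma twP_isSheaf (M : Md P ρ X ℓ) : Presheaf.IsSheaf (topo P ρ X) (twP χ hχ M.val).presheaf := by
  refine Presheaf.isSheaf_of_isSheaf_comp _ _ (CategoryTheory.forget Ab.{1}) ?_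
  have hM : Presieve.IsSheaf (topo P ρ X) (M.val.presheaf ⋙ CategoryTheory.forget Ab.{1}) := by
    rw [← isSheaf_iff_isSheaf_of_type]
    exact Presheaf.isSheaf_comp_of_isSheaf _ _ _ M.isSheaf
  rw [isSheaf_iff_isSheaf_of_type]
  unfold topo
  rw [Precoverage.isSheaf_toGrothendieck_iff_of_isStableUnderBaseChange]
  intro U R hR
  have hM' := hM.isSheafFor_of_mem_precoverage hR
  obtain ⟨ι, Z, g, rfl⟩ := R.exists_eq_ofArrows
  rw [Presieve.isSheafFor_arrows_iff] at hM' ⊢
  intro x hx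
  let x' : ∀ i, M.val.obj (op (Z i)) := x
  let y : ∀ i, M.val.obj (op (Z i)) := fun i => chiF χ hχ (g i).c • x' i
  have hy : Presieve.Arrows.Compatible (M.val.presheaf ⋙ CategoryTheory.forget Ab.{1}) g y := by
    intro i j W a b hab
    have h1 : (chiF χ hχ (a.c)⁻¹ • rst M.val a (x' i) : M.val.obj (op W)) =
      chiF χ hχ (b.c)⁻¹ • rst M.val b (x' j) := hx i j W a b hab
    change rst M.val a (y i) = rst M.val b (y j)
    refine (tw_key χ hχ M.val a (g i) (x' i)).trans ?_
    refine Eq.trans ?_ (tw_key χ hχ M.val b (g j) (x' j)).symm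
    rw [h1, hab]
  obtain ⟨t, ht, huniq⟩ := hM' y hy
  refine ⟨t, fun i => ?_, fun t' ht' => huniq t' (fun i => ?_)⟩
  · have h1 : rst M.val (g i) t = y i := ht i
    change chiF χ hχ ((g i).c)⁻¹ • rst M.val (g i) t = x' i
    rw [h1]
    exact tw_cancel χ hχ M.val _ _
  · have h1 : (chiF χ hχ ((g i).c)⁻¹ • rst M.val (g i) t' : M.val.obj (op (Z i))) = x' i :=
      ht' i
    change rst M.val (g i) t' = chiF χ hχ (g i).c • x' i
    rw [← h1]
    exact (tw_cancel' χ hχ M.val _ _).symm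

/-- Twist of a sheaf of modules by a character. -/
def twM : Md P ρ X ℓ ⥤ Md P ρ X ℓ where
  obj M := ⟨twP χ hχ M.val, twP_isSheaf χ hχ M⟩
  map {M N} f := ⟨{ app := fun U => f.val.app U
                    naturality := fun {U V} u => by
                      ext x
                      change f.val.app V (chiF χ hχ (u.unop.c)⁻¹ • rst M.val u.unop x) =
                        chiF χ hχ (u.unop.c)⁻¹ • rst N.val u.unop (f.val.app U x)
                      refine ((f.val.app V).hom.map_smul _ _).trans ?_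
                      congr 1
                      exact PresheafOfModules.naturality_apply f.val u x }⟩

instance : (twM (P := P) (ρ := ρ) (X := X) χ hχ).Additive where
  map_add := rfl

lemma twM_exact (S : ShortComplex (Md P ρ X ℓ)) (hS : S.Exact) :
    (S.map (twM χ hχ)).Exact := by
  rw [exact_iff] at hS ⊢
  intro U y hy
  obtain ⟨T, hT, hT'⟩ := hS U y hy
  refine ⟨T, hT, fun V h hh => ?_⟩
  obtain ⟨x, hx⟩ := hT' V h hh
  refine ⟨(chiF χ hχ (h.c)⁻¹ • (show S.X₁.val.obj (op V) from x) : S.X₁.val.obj (op V)), ?_⟩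
  refine ((S.f.val.app (op V)).hom.map_smul _ _).trans ?_
  change (chiF χ hχ (h.c)⁻¹ • S.f.val.app (op V) x : S.X₂.val.obj (op V)) =
    chiF χ hχ (h.c)⁻¹ • rst S.X₂.val h y
  rw [hx]
  rfl

lemma twM_preserves : PreservesFiniteLimits (twM (P := P) (ρ := ρ) (X := X) χ hχ) ∧
    PreservesFiniteColimits (twM (P := P) (ρ := ρ) (X := X) χ hχ) :=
  ((Functor.exact_tfae (twM (P := P) (ρ := ρ) (X := X) χ hχ)).out 1 3).1
    (fun S hS => twM_exact χ hχ S hS)

instance : PreservesFiniteLimits (twM (P := P) (ρ := ρ) (X := X) χ hχ) := (twM_preserves χ hχ).1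
instance : PreservesFiniteColimits (twM (P := P) (ρ := ρ) (X := X) χ hχ) := (twM_preserves χ hχ).2

end tw

section inertia

variable {H : Type} [Group H] [TopologicalSpace H] [IsTopologicalGroup H]
  {ρH : H →* (kb ≃+* kb)} (σ : H →* G) (hσc : Continuous σ) (hσ : ∀ h, ρ (σ h) = ρH h)
  (g : G) (hg : ρ g = 1) (hc : ∀ h, g * σ h = σ h * g)

/-- An element `g` acting trivially on `kb` and centralising the image of `σ` acts on the
change-of-group functor. -/
def gTrans : res (P := P) (X := X) σ hσc hσ ⟶ res (P := P) (X := X) σ hσc hσ where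
  app U :=
    { f := 𝟙 _
      c := ContinuousMap.const _ g
      w := Category.id_comp _
      h := by
        intro a t
        simp [hg] }
  naturality {U V} u := by
    refine hom_ext ((Category.comp_id _).trans (Category.id_comp _).symm) (fun t => ?_)
    exact hc (u.c t)

include hg hc in
lemma gTrans_app_f (U : Tw P ρH X) : ((gTrans (P := P) σ hσc hσ g hg hc).app U).f = 𝟙 _ := rfl

variable (P X ℓ) in
/-- The action of `g` on restricted sheaves. -/
def gNat : resM P X ℓ σ hσc hσ ⟶ resM P X ℓ σ hσc hσ :=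
  SheafOfModules.pushforwardNatTrans (φres P X ℓ σ hσc hσ) (gTrans (P := P) σ hσc hσ g hg hc) ≫
    (SheafOfModules.pushforwardCongr (by ext; rfl)).hom

lemma gNat_apply (M : Md P ρ X ℓ) (U : Tw P ρH X)
    (x : M.val.obj (op ((res σ hσc hσ).obj U))) :
    ((gNat P X ℓ σ hσc hσ g hg hc).app M).val.app (op U) x =
      rst M.val ((gTrans σ hσc hσ g hg hc).app U) x := rfl

end inertia

end

end Tw

end Pool.Agent.H72.MP
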