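import Mathlib

open CategoryTheory Limits

universe u

namespace Pool.Agent.H72.MP

section presheaf

variable {C : Type u} [SmallCategory C] (R : Cᵒᵖ ⥤ RingCat.{u})

instance presheafOfModules_ab5 (K : Type u) [SmallCategory K] [IsFiltered K] :
    HasExactColimitsOfShape K (PresheafOfModules.{u} R) :=
  HasExactColimitsOfShape.domain_of_functor K (PresheafOfModules.toPresheaf R)

end presheaf

variable {C : Type u} [SmallCategory C] {J : GrothendieckTopology C} (R : Sheaf J RingCat.{u})

instance sheafOfModules_ab5 (K : Type u) [SmallCategory K] [IsFiltered K] :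
    HasExactColimitsOfShape K (SheafOfModules.{u} R) :=
  (PresheafOfModules.sheafificationAdjunction (𝟙 R.obj)).hasExactColimitsOfShape K

/-- The generating objects. -/
noncomputable def gen (X : C) : SheafOfModules.{u} R :=
  (PresheafOfModules.sheafification (𝟙 R.obj)).obj
    ((PresheafOfModules.free R.obj).obj (yoneda.obj X))

lemma gen_isSeparating : ObjectProperty.IsSeparating (.ofObj (gen R)) := by
  intro M N f g h
  have := (PresheafOfModules.sheafificationAdjunction (𝟙 R.obj))
  refine (SheafOfModules.forget R ⋙ PresheafOfModules.restrictScalars (𝟙 R.obj)).map_injective ?_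
  refine PresheafOfModules.freeYoneda.isSeparating R.obj _ _ ?_
  rintro _ ⟨X⟩ a
  apply ((PresheafOfModules.sheafificationAdjunction (𝟙 R.obj)).homEquiv _ _).symm.injective
  have h1 := h (gen R X) (ObjectProperty.ofObj_apply _ X)
      (((PresheafOfModules.sheafificationAdjunction (𝟙 R.obj)).homEquiv _ _).symm a)
  rw [Adjunction.homEquiv_naturality_right_symm, Adjunction.homEquiv_naturality_right_symm]
  exact h1

instance : HasSeparator (SheafOfModules.{u} R) :=
  ⟨_, (gen_isSeparating R).isSeparator_coproduct⟩

instance : IsGrothendieckAbelian.{u} (SheafOfModules.{u} R) where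
  ab5OfSize := ⟨fun K _ _ => inferInstance⟩

example : EnoughInjectives (SheafOfModules.{u} R) := inferInstance

end Pool.Agent.H72.MP
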