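import Pool.Agent.H72.MP.Cex

open CategoryTheory Limits AlgebraicGeometry TopologicalSpace Opposite

namespace Pool.Agent.H72.MP

noncomputable section

namespace Tw

section mk

variable {P : MorphismProperty Scheme.{0}} {k : Type} [Field k] {G : Type} [Group G]
  [TopologicalSpace G] [IsTopologicalGroup G] {ρ : G →* (k ≃+* k)} {X Y : Scheme.{0}}
  {ℓ : ℕ} [Fact ℓ.Prime]
  [P.IsStableUnderBaseChange] [P.IsStableUnderComposition] [P.HasOfPostcompProperty P]

/-- Constructor for morphisms of sheaves of modules. -/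
def mdHom {M N : Md P ρ X ℓ} (e : ∀ U : Tw P ρ X, M.val.obj (op U) →+ N.val.obj (op U))
    (hs : ∀ (U : Tw P ρ X) (r : (ringS P ρ X ℓ).obj.obj (op U)) (x : M.val.obj (op U)),
      e U (r • x) = r • e U x)
    (h : ∀ {U V : Tw P ρ X} (u : V ⟶ U) (x : M.val.obj (op U)),
      e V (rst M.val u x) = rst N.val u (e U x)) : M ⟶ N :=
  ⟨{ app := fun U => ModuleCat.ofHom
      { toFun := e U.unop
        map_add' := map_add (e U.unop)
        map_smul' := hs U.unop }
     naturality := fun {U V} u => by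
      refine ModuleCat.hom_ext (LinearMap.ext fun x => ?_)
      exact h u.unop x }⟩

lemma mdHom_apply {M N : Md P ρ X ℓ} (e : ∀ U : Tw P ρ X, M.val.obj (op U) →+ N.val.obj (op U))
    (hs : ∀ (U : Tw P ρ X) (r : (ringS P ρ X ℓ).obj.obj (op U)) (x : M.val.obj (op U)),
      e U (r • x) = r • e U x)
    (h : ∀ {U V : Tw P ρ X} (u : V ⟶ U) (x : M.val.obj (op U)),
      e V (rst M.val u x) = rst N.val u (e U x)) (U : Tw P ρ X) (x : M.val.obj (op U)) :
    (mdHom e hs h).val.app (op U) x = e U x := rfl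

lemma md_hom_ext {M N : Md P ρ X ℓ} {f g : M ⟶ N}
    (h : ∀ (U : Tw P ρ X) (x : M.val.obj (op U)), f.val.app (op U) x = g.val.app (op U) x) :
    f = g := by
  apply SheafOfModules.hom_ext
  apply PresheafOfModules.hom_ext
  intro U
  exact ModuleCat.hom_ext (LinearMap.ext fun x => h U.unop x)

lemma md_comp_apply {M N L : Md P ρ X ℓ} (f : M ⟶ N) (g : N ⟶ L) (U : Tw P ρ X)
    (x : M.val.obj (op U)) :
    (f ≫ g).val.app (op U) x = g.val.app (op U) (f.val.app (op U) x) := rfl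

lemma md_id_apply {M : Md P ρ X ℓ} (U : Tw P ρ X)
    (x : M.val.obj (op U)) : (𝟙 M : M ⟶ M).val.app (op U) x = x := rfl

lemma md_nat {M N : Md P ρ X ℓ} (f : M ⟶ N) {U V : Tw P ρ X} (u : V ⟶ U)
    (x : M.val.obj (op U)) :
    f.val.app (op V) (rst M.val u x) = rst N.val u (f.val.app (op U) x) :=
  PresheafOfModules.naturality_apply f.val u.op x

/-- Constructor for isomorphisms of sheaves of modules. -/
def mdIso {M N : Md P ρ X ℓ} (e : ∀ U : Tw P ρ X, M.val.obj (op U) ≃+ N.val.obj (op U))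
    (hs : ∀ (U : Tw P ρ X) (r : (ringS P ρ X ℓ).obj.obj (op U)) (x : M.val.obj (op U)),
      e U (r • x) = r • e U x)
    (h : ∀ {U V : Tw P ρ X} (u : V ⟶ U) (x : M.val.obj (op U)),
      e V (rst M.val u x) = rst N.val u (e U x)) : M ≅ N where
  hom := mdHom (fun U => (e U).toAddMonoidHom) hs h
  inv := mdHom (fun U => (e U).symm.toAddMonoidHom)
    (fun U r x => (e U).injective (by
      change (e U) ((e U).symm (r • x)) = (e U) (r • (e U).symm x)
      rw [AddEquiv.apply_symm_apply, hs, AddEquiv.apply_symm_apply]))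
    (fun {U V} u x => (e V).injective (by
      change (e V) ((e V).symm (rst N.val u x)) = (e V) (rst M.val u ((e U).symm x))
      rw [AddEquiv.apply_symm_apply, h, AddEquiv.apply_symm_apply]))
  hom_inv_id := md_hom_ext (fun U x => (e U).symm_apply_apply x)
  inv_hom_id := md_hom_ext (fun U x => (e U).apply_symm_apply x)

end mk

section res

variable {P : MorphismProperty Scheme.{0}} {k : Type} [Field k] {G : Type} [Group G]
  [TopologicalSpace G] [IsTopologicalGroup G] {ρ : G →* (k ≃+* k)} {X Y : Scheme.{0}}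
  {ℓ : ℕ} [Fact ℓ.Prime]
  [P.IsStableUnderBaseChange] [P.IsStableUnderComposition] [P.HasOfPostcompProperty P]
  {H : Type} [Group H] [TopologicalSpace H] [IsTopologicalGroup H]
  {ρH : H →* (k ≃+* k)} (σ : H →* G) (hσc : Continuous σ) (hσ : ∀ h, ρ (σ h) = ρH h)

/-- Restriction of the constant sheaf. -/
def resUnit : (resM P X ℓ σ hσc hσ).obj (unitM P ρ X ℓ) ≅ unitM P ρH X ℓ :=
  mdIso (fun U => AddEquiv.refl (ULift.{1} C(U.T, ℚ_[ℓ]))) (fun _ _ _ => rfl) (fun _ _ => rfl)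

/-- Restriction of a twist. -/
def resTw (χ : G →* ℚ_[ℓ]ˣ) (hχ : Continuous χ) (M : Md P ρ X ℓ) :
    (resM P X ℓ σ hσc hσ).obj ((twM χ hχ).obj M) ≅
      (twM (χ.comp σ) (hχ.comp hσc)).obj ((resM P X ℓ σ hσc hσ).obj M) :=
  mdIso (fun U => AddEquiv.refl (M.val.obj (op ((res σ hσc hσ).obj U))))
    (fun _ _ _ => rfl) (fun {U V} u x => by
      change (chiF χ hχ ((res σ hσc hσ).map u).c⁻¹ • rst M.val ((res σ hσc hσ).map u) x :
        M.val.obj (op ((res σ hσc hσ).obj V))) =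
        (show (ringS P ρ X ℓ).obj.obj (op ((res σ hσc hσ).obj V)) from
          chiF (χ.comp σ) (hχ.comp hσc) (u.c)⁻¹) • rst M.val ((res σ hσc hσ).map u) x
      congr 1
      refine ULift.down_injective (ContinuousMap.ext fun t => ?_)
      change ((χ (σ (u.c t))⁻¹ : ℚ_[ℓ]ˣ) : ℚ_[ℓ]) = ((χ (σ (u.c t)⁻¹) : ℚ_[ℓ]ˣ) : ℚ_[ℓ])
      rw [map_inv σ])

/-- Restriction commutes with push-forward. -/
def resPush (i : Y ⟶ X) (M : Md P ρ Y ℓ) :
    (resM P X ℓ σ hσc hσ).obj ((pushM P ρ ℓ i).obj M) ≅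
      (pushM P ρH ℓ i).obj ((resM P Y ℓ σ hσc hσ).obj M) :=
  mdIso (fun U => AddEquiv.refl (M.val.obj (op ((pull i).obj ((res σ hσc hσ).obj U)))))
    (fun _ _ _ => rfl) (fun {U V} u x => by
      change rst M.val ((pull i).map ((res σ hσc hσ).map u)) x =
        rst M.val ((res σ hσc hσ).map ((pull i).map u)) x
      congr 1
      refine hom_ext rfl (fun t => ?_)
      change σ (u.c (pullback.fst V.π i t)) * 1 = σ (u.c (pullback.fst V.π i t) * 1)
      rw [mul_one, mul_one])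

end res

section push

variable {P : MorphismProperty Scheme.{0}} {k : Type} [Field k] {G : Type} [Group G]
  [TopologicalSpace G] [IsTopologicalGroup G] {ρ : G →* (k ≃+* k)} {X Y : Scheme.{0}}
  {ℓ : ℕ} [Fact ℓ.Prime]
  [P.IsStableUnderBaseChange] [P.IsStableUnderComposition] [P.HasOfPostcompProperty P]

/-- Twists commute with push-forward. -/
def pushTw (χ : G →* ℚ_[ℓ]ˣ) (hχ : Continuous χ) (i : Y ⟶ X) (M : Md P ρ Y ℓ) :
    (twM χ hχ).obj ((pushM P ρ ℓ i).obj M) ≅ (pushM P ρ ℓ i).obj ((twM χ hχ).obj M) :=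
  mdIso (fun U => AddEquiv.refl (M.val.obj (op ((pull i).obj U))))
    (fun _ _ _ => rfl) (fun {U V} u x => by
      change (show (ringS P ρ Y ℓ).obj.obj (op ((pull i).obj V)) from
          (φpull P ρ ℓ i).hom.app (op V) (chiF χ hχ (u.c)⁻¹)) • rst M.val ((pull i).map u) x =
        chiF χ hχ ((pull i).map u).c⁻¹ • rst M.val ((pull i).map u) x
      congr 1
      refine ULift.down_injective (ContinuousMap.ext fun t => ?_)
      change ((χ (u.c (pullback.fst V.π i t))⁻¹ : ℚ_[ℓ]ˣ) : ℚ_[ℓ]) =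
        ((χ (u.c (pullback.fst V.π i t) * 1)⁻¹ : ℚ_[ℓ]ˣ) : ℚ_[ℓ])
      rw [mul_one])

/-- The base change by the identity. -/
def pullIdHom (U : Tw P ρ X) : (pull (𝟙 X)).obj U ⟶ U where
  f := pullback.fst U.π (𝟙 X)
  c := 1
  w := by
    change pullback.fst U.π (𝟙 X) ≫ U.π = pullback.snd U.π (𝟙 X)
    rw [pullback.condition, Category.comp_id]
  h := Twc.comap _ _

instance (U : Tw P ρ X) : IsIso (pullIdHom U) := by
  have : IsIso ((forget P ρ X).map (pullIdHom U)) :=
    inferInstanceAs (IsIso (pullback.fst U.π (𝟙 X)))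
  exact isIso_of_reflects_iso (pullIdHom U) (forget P ρ X)

omit [P.IsStableUnderComposition] [P.HasOfPostcompProperty P] in
lemma pullIdHom_nat {U V : Tw P ρ X} (u : V ⟶ U) :
    (pull (𝟙 X)).map u ≫ pullIdHom U = pullIdHom V ≫ u := by
  refine hom_ext ?_ (fun t => ?_)
  · exact pullback.lift_fst _ _ _
  · change (1 : G) * (u.c (pullback.fst V.π (𝟙 X) t) * 1) = u.c (pullback.fst V.π (𝟙 X) t) * 1
    rw [one_mul]

/-- Restriction along an isomorphism. -/
def rstEquiv (M : PresheafOfModules.{1} (ringS P ρ X ℓ).obj) {U V : Tw P ρ X} (u : V ⟶ U)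
    [IsIso u] : M.obj (op U) ≃+ M.obj (op V) where
  toFun := rst M u
  invFun := rst M (inv u)
  left_inv x := by rw [← rst_comp, IsIso.inv_hom_id, rst_id]
  right_inv x := by rw [← rst_comp, IsIso.hom_inv_id, rst_id]
  map_add' := rst_add M u

/-- Push-forward along the identity. -/
def pushId (M : Md P ρ X ℓ) : M ≅ (pushM P ρ ℓ (𝟙 X)).obj M :=
  mdIso (N := (pushM P ρ ℓ (𝟙 X)).obj M) (fun U => rstEquiv M.val (pullIdHom U))
    (fun U r x => rst_smul M.val (pullIdHom U) r x) (fun {U V} u x => by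
      change rst M.val (pullIdHom V) (rst M.val u x) =
        rst M.val ((pull (𝟙 X)).map u) (rst M.val (pullIdHom U) x)
      rw [← rst_comp, ← rst_comp, pullIdHom_nat])

end push

section small

variable {k : Type} [Field k] {G : Type} [Group G]
  [TopologicalSpace G] [IsTopologicalGroup G] {ρ : G →* (k ≃+* k)} {X : Scheme.{0}}
  {ℓ : ℕ} [Fact ℓ.Prime]

/-- The constant sheaf on the small site. -/
def smallUnit : (smallM ρ X ℓ).obj (unitM ⊤ ρ X ℓ) ≅ unitM @WeaklyEtale ρ X ℓ :=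
  mdIso (fun U => AddEquiv.refl (ULift.{1} C(U.T, ℚ_[ℓ]))) (fun _ _ _ => rfl) (fun _ _ => rfl)

/-- Twists on the small site. -/
def smallTw (χ : G →* ℚ_[ℓ]ˣ) (hχ : Continuous χ) (M : Md ⊤ ρ X ℓ) :
    (smallM ρ X ℓ).obj ((twM χ hχ).obj M) ≅ (twM χ hχ).obj ((smallM ρ X ℓ).obj M) :=
  mdIso (fun U => AddEquiv.refl (M.val.obj (op ((incl ρ X).obj U))))
    (fun _ _ _ => rfl) (fun _ _ => rfl)

end small

end Tw

end

end Pool.Agent.H72.MP
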