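import Pool.Agent.H72.MP.Ring
import Pool.Agent.H72.MP.Groth

open CategoryTheory Limits AlgebraicGeometry TopologicalSpace

namespace Pool.Agent.H72.MP

namespace Tw

noncomputable section

variable {P : MorphismProperty Scheme.{0}} {kb : Type} [Field kb] {G : Type} [Group G]
  [TopologicalSpace G] [IsTopologicalGroup G] {ρ : G →* (kb ≃+* kb)} {X : Scheme.{0}}
  {ℓ : ℕ} [Fact ℓ.Prime]

variable [P.IsStableUnderBaseChange] [P.IsStableUnderComposition] [P.HasOfPostcompProperty P]

/-- Constants in the ring of continuous functions. -/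
def cst (U : (Tw P ρ X)ᵒᵖ) : ℚ_[ℓ] →+* (ringS P ρ X ℓ).obj.obj U where
  toFun a := (⟨ContinuousMap.const _ a⟩ : ULift.{1} C(U.unop.T, ℚ_[ℓ]))
  map_one' := rfl
  map_mul' _ _ := rfl
  map_zero' := rfl
  map_add' _ _ := rfl

lemma map_cst {U V : (Tw P ρ X)ᵒᵖ} (u : U ⟶ V) (a : ℚ_[ℓ]) :
    (ringS P ρ X ℓ).obj.map u (cst U a) = cst V a := rfl

lemma ringS_mul_comm {U : (Tw P ρ X)ᵒᵖ} (r s : (ringS P ρ X ℓ).obj.obj U) : r * s = s * r := by
  change (ULift C(U.unop.T, ℚ_[ℓ])) at r s
  exact mul_comm r s

set_option backward.isDefEq.respectTransparency false in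
/-- Multiplication by a constant. -/
def scal (a : ℚ_[ℓ]) : 𝟭 (Md P ρ X ℓ) ⟶ 𝟭 (Md P ρ X ℓ) where
  app M := ⟨{ app := fun U => ModuleCat.ofHom
                { toFun := fun x => (cst U a : (ringS P ρ X ℓ).obj.obj U) • x
                  map_add' := fun x y => smul_add _ _ _
                  map_smul' := fun r x => by
                    rw [smul_smul, ringS_mul_comm, RingHom.id_apply, mul_smul] }
              naturality := fun {U V} u => by
                ext x
                exact (M.val.map_smul u (cst U a) x).symm }⟩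
  naturality {M N} f := by
    ext U x
    exact ((f.val.app U).hom.map_smul (cst U a) x).symm

lemma scal_apply (a : ℚ_[ℓ]) (M : Md P ρ X ℓ) (U : (Tw P ρ X)ᵒᵖ) (x : M.val.obj U) :
    ((scal a).app M).val.app U x = (cst U a) • x := rfl

set_option backward.isDefEq.respectTransparency false in
/-- The action of `ℚ_ℓ` on the identity functor. -/
def scalHom : ℚ_[ℓ] →+* CatCenter (Md P ρ X ℓ) where
  toFun := scal
  map_one' := by
    ext M U x
    exact (congrArg (fun r : (ringS P ρ X ℓ).obj.obj U => r • x) (map_one (cst U))).trans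
      (one_smul _ x)
  map_zero' := by
    ext M U x
    exact (congrArg (fun r : (ringS P ρ X ℓ).obj.obj U => r • x) (map_zero (cst U))).trans
      (zero_smul _ x)
  map_mul' a b := by
    ext M U x
    refine (congrArg (fun r : (ringS P ρ X ℓ).obj.obj U => r • x)
      (map_mul (cst U) a b)).trans ?_
    exact mul_smul (cst U a : (ringS P ρ X ℓ).obj.obj U) (cst U b) x
  map_add' a b := by
    ext M U x
    exact (congrArg (fun r : (ringS P ρ X ℓ).obj.obj U => r • x) (map_add (cst U) a b)).trans
      (add_smul _ _ x)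

instance : CategoryTheory.Linear ℚ_[ℓ] (Md P ρ X ℓ) := Linear.ofRingMorphism scalHom

end

end Tw

end Pool.Agent.H72.MP
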