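import Pool.Agent.H72.MP.Isos
import Pool.Agent.H72.MP.Mod.A2

open CategoryTheory Limits AlgebraicGeometry TopologicalSpace Opposite

namespace Pool.Agent.H72.MP

noncomputable section

namespace Tw

section lisse

variable {P : MorphismProperty Scheme.{0}} {k : Type} [Field k] {G : Type} [Group G]
  [TopologicalSpace G] [IsTopologicalGroup G] {ρ : G →* (k ≃+* k)} {X Y : Scheme.{0}}
  {ℓ : ℕ} [Fact ℓ.Prime]
  [P.IsStableUnderBaseChange] [P.IsStableUnderComposition] [P.HasOfPostcompProperty P]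

lemma rankOne {R : Type*} [Ring R] (hR : ∀ a b : R, a * b = b * a) (a b : R) (h : a * b = 1) :
    LinearIndependent R (fun _ : Fin 1 => a) ∧
      ⊤ ≤ Submodule.span R (Set.range fun _ : Fin 1 => a) := by
  constructor
  · rw [Fintype.linearIndependent_iff]
    intro g hg i
    rw [Fin.sum_univ_one] at hg
    have h1 : g 0 * a * b = 0 := by
      change g 0 * a = 0 at hg
      rw [hg, zero_mul]
    rw [mul_assoc, h, mul_one] at h1
    rw [Subsingleton.elim i 0]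
    exact h1
  · intro x _
    have h1 : x = (x * b) • a := by
      change x = x * b * a
      rw [mul_assoc, hR b a, h, mul_one]
    rw [h1]
    exact Submodule.smul_mem _ _ (Submodule.subset_span ⟨0, rfl⟩)

lemma isLisse_twUnit (χ : G →* ℚ_[ℓ]ˣ) (hχ : Continuous χ) :
    IsLisse ((twM χ hχ).obj (unitM P ρ X ℓ)) := by
  intro U
  refine ⟨⊤, (topo P ρ X).top_mem U, fun V g _ => ⟨1, fun _ =>
    (1 : (ringS P ρ X ℓ).obj.obj (op V)), fun W h => ?_⟩⟩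
  refine rankOne (R := (ringS P ρ X ℓ).obj.obj (op W)) (fun a b => ringS_mul_comm a b)
    (chiF χ hχ (h.c)⁻¹ * (ringS P ρ X ℓ).obj.map h.op 1) (chiF χ hχ h.c) ?_
  rw [map_one, mul_one]
  exact chiF_inv_mul χ hχ h.c

lemma isLisse_unit : IsLisse (unitM P ρ X ℓ) := by
  intro U
  refine ⟨⊤, (topo P ρ X).top_mem U, fun V g _ => ⟨1, fun _ =>
    (1 : (ringS P ρ X ℓ).obj.obj (op V)), fun W h => ?_⟩⟩
  refine rankOne (R := (ringS P ρ X ℓ).obj.obj (op W)) (fun a b => ringS_mul_comm a b)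
    ((ringS P ρ X ℓ).obj.map h.op 1) 1 ?_
  rw [map_one, mul_one]

lemma isLisse_of_iso {L L' : Md P ρ X ℓ} (e : L ≅ L') (hL : IsLisse L) : IsLisse L' := by
  intro U
  obtain ⟨S, hS, hS'⟩ := hL U
  refine ⟨S, hS, fun V g hg => ?_⟩
  obtain ⟨n, b, hb⟩ := hS' V g hg
  refine ⟨n, fun j => e.hom.val.app (op V) (b j), fun W h => ?_⟩
  obtain ⟨h1, h2⟩ := hb W h
  let φ : L.val.obj (op W) →ₗ[(ringS P ρ X ℓ).obj.obj (op W)] L'.val.obj (op W) :=
    (e.hom.val.app (op W)).hom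
  have hinv : ∀ y, φ (e.inv.val.app (op W) y) = y := fun y => by
    have := md_comp_apply e.inv e.hom W y
    rw [e.inv_hom_id] at this
    exact this.symm
  have hinv' : ∀ x, e.inv.val.app (op W) (φ x) = x := fun x => by
    have := md_comp_apply e.hom e.inv W x
    rw [e.hom_inv_id] at this
    exact this.symm
  have h3 : (fun j => rst L'.val h (e.hom.val.app (op V) (b j))) =
      φ ∘ fun j => rst L.val h (b j) := by
    ext j
    exact (md_nat e.hom h (b j)).symm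
  rw [h3]
  refine ⟨h1.map' φ (LinearMap.ker_eq_bot.2 (fun a b hab => ?_)), ?_⟩
  · rw [← hinv' a, hab, hinv']
  · rw [Set.range_comp, Submodule.span_image]
    intro y _
    exact ⟨e.inv.val.app (op W) y, h2 trivial, hinv y⟩

end lisse

section extz

variable {P : MorphismProperty Scheme.{0}} {k : Type} [Field k] {G : Type} [Group G]
  [TopologicalSpace G] [IsTopologicalGroup G] {ρ : G →* (k ≃+* k)} {X Y : Scheme.{0}}
  {ℓ : ℕ} [Fact ℓ.Prime]
  [P.IsStableUnderBaseChange] [P.IsStableUnderComposition] [P.HasOfPostcompProperty P]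

lemma isExtByZero_closed (i : Y ⟶ X) [IsClosedImmersion i] (L : Md P ρ Y ℓ) {E : Md P ρ X ℓ}
    (e : E ≅ (pushM P ρ ℓ i).obj L) : IsExtByZero i L E := by
  refine ⟨e.hom, inferInstance, fun U s => ⟨fun _ => ⟨⊤, (topo P ρ X).top_mem U,
    fun V g _ => Or.inr (fun t ht => ?_)⟩, fun _ => ⟨e.inv.val.app (op U) s, ?_⟩⟩⟩
  · have h1 : IsClosed (Set.range i) := (IsClosedImmersion.isClosedEmbedding i).isClosed_range
    rw [h1.closure_eq, Set.sdiff_self] at ht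
    exact ht
  · rw [← md_comp_apply, e.inv_hom_id]
    rfl

end extz

end Tw

open Tw

attribute [local instance] secModule

variable {p ℓ : ℕ} [Fact p.Prime] [Fact ℓ.Prime] {X Y Z : Scheme.{0}}

lemma isWeil_natCast (q : ℕ) (v : ℤ) (n : ℕ) (h : (n : ℝ) ^ 2 = (q : ℝ) ^ v) :
    IsWeil ℓ q v (n : AlgebraicClosure ℚ_[ℓ]) := by
  refine ⟨isAlgebraic_natCast n, fun z hz => ?_⟩
  have h1 : minpoly ℚ (n : AlgebraicClosure ℚ_[ℓ]) = Polynomial.X - Polynomial.C (n : ℚ) := by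
    have := minpoly.eq_X_sub_C (AlgebraicClosure ℚ_[ℓ]) (n : ℚ)
    rwa [map_natCast] at this
  rw [h1] at hz
  have h2 : z = n := by
    simpa [sub_eq_zero] using hz
  rw [h2, ← h]
  simp

lemma scalar_root {V : Type*} [AddCommGroup V] [Module ℚ_[ℓ] V] (A : Module.End ℚ_[ℓ] V) (n : ℕ)
    (hA : ∀ x, A x = (n : ℚ_[ℓ]) • x) (a : AlgebraicClosure ℚ_[ℓ])
    (ha : Polynomial.aeval a (minpoly ℚ_[ℓ] A) = 0) : a = n := by
  have h1 : minpoly ℚ_[ℓ] A ∣ Polynomial.X - Polynomial.C (n : ℚ_[ℓ]) := by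
    refine minpoly.dvd _ _ ?_
    ext x
    rw [map_sub, Polynomial.aeval_X, Polynomial.aeval_C, LinearMap.sub_apply, hA,
      Module.algebraMap_end_apply, sub_self, LinearMap.zero_apply]
  obtain ⟨c, hc⟩ := h1
  have h2 : Polynomial.aeval a (Polynomial.X - Polynomial.C (n : ℚ_[ℓ])) = 0 := by
    rw [hc, map_mul, ha, zero_mul]
  simpa [sub_eq_zero] using h2

lemma point_subsingleton (k : Type) [Field k] (x y : (Spec (.of k) : Scheme.{0})) : x = y :=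
  Subsingleton.elim (α := PrimeSpectrum k) x y

lemma pointwisePure_of_twUnit (χ : Gs p →* ℚ_[ℓ]ˣ) (hχ : Continuous χ) (v : ℤ) (m : ℕ)
    (h1 : ∀ φ : Gs p, IsFrob p φ → ((χ φ)⁻¹ : ℚ_[ℓ]ˣ) = ((m : ℕ) : ℚ_[ℓ]))
    (h2 : (m : ℝ) ^ 2 = (p : ℝ) ^ v) {L : Shs p ℓ Z}
    (e : L ≅ (twM χ hχ).obj (unitM @WeaklyEtale (ρs p) Z ℓ)) : PointwisePure v L := by
  refine ⟨(twM χ hχ).obj (unitM ⊤ (ρs p) Z ℓ), isLisse_twUnit χ hχ,
    ⟨smallTw χ hχ _ ≪≫ (twM χ hχ).mapIso smallUnit ≪≫ e.symm⟩, fun φ hφ n hn z hz a ha => ?_⟩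
  have h3 := scalar_root _ (m ^ n) ?_ a ha
  · rw [h3]
    refine isWeil_natCast _ _ _ ?_
    push_cast
    rw [← pow_mul, mul_comm n 2, pow_mul, h2, ← zpow_natCast, ← zpow_natCast, ← zpow_mul,
      ← zpow_mul, mul_comm]
  · intro x
    refine ULift.down_injective (ContinuousMap.ext fun t => ?_)
    let y : C((ptOf ⊤ (ρs p) z trivial).T, ℚ_[ℓ]) := x.down
    change ((χ (φ ^ n)⁻¹ : ℚ_[ℓ]ˣ) : ℚ_[ℓ]) * y ((ptEnd (P := ⊤) z trivial (φ ^ n) hz).f t) =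
      ((m ^ n : ℕ) : ℚ_[ℓ]) * y t
    have h4 : (ptEnd (P := ⊤) z trivial (φ ^ n) hz).f t = t := point_subsingleton _ _ _
    rw [h4]
    congr 1
    rw [map_inv, map_pow, ← inv_pow, Units.val_pow_eq_pow_val, h1 φ hφ]
    push_cast
    rfl

/-- The trivial twist. -/
def twOne {P : MorphismProperty Scheme.{0}} {k : Type} [Field k] {G : Type} [Group G]
    [TopologicalSpace G] [IsTopologicalGroup G] {ρ : G →* (k ≃+* k)} {X : Scheme.{0}}
    [P.IsStableUnderBaseChange] [P.IsStableUnderComposition] [P.HasOfPostcompProperty P]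
    (M : Md P ρ X ℓ) : (twM (1 : G →* ℚ_[ℓ]ˣ) continuous_const).obj M ≅ M :=
  mdIso (fun U => AddEquiv.refl (M.val.obj (op U))) (fun _ _ _ => rfl) (fun {U V} u x => by
    change chiF (1 : G →* ℚ_[ℓ]ˣ) continuous_const (u.c)⁻¹ • rst M.val u x = rst M.val u x
    have h : chiF (ρ := ρ) (P := P) (X := X) (1 : G →* ℚ_[ℓ]ˣ) continuous_const (u.c)⁻¹ = 1 :=
      ULift.down_injective (ContinuousMap.ext fun t => rfl)
    rw [h, one_smul])

lemma pointwisePure_unit {L : Shs p ℓ Z} (e : L ≅ unitM @WeaklyEtale (ρs p) Z ℓ) :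
    PointwisePure 0 L :=
  pointwisePure_of_twUnit (1 : Gs p →* ℚ_[ℓ]ˣ) continuous_const 0 1
    (fun φ _ => by simp) (by simp) (e ≪≫ (twOne _).symm)

lemma cycInv_inv (g : Gη p) : (((cycInv p ℓ g)⁻¹ : ℚ_[ℓ]ˣ) : ℚ_[ℓ]) =
    (((cyc p ℓ g : ℤ_[ℓ]ˣ) : ℤ_[ℓ]) : ℚ_[ℓ]) := by
  have h2 : (cycInv p ℓ g)⁻¹ = Units.map (algebraMap ℤ_[ℓ] ℚ_[ℓ]).toMonoidHom (cyc p ℓ g) := by
    change (Units.map (algebraMap ℤ_[ℓ] ℚ_[ℓ]).toMonoidHom ((cyc p ℓ g)⁻¹))⁻¹ = _
    rw [map_inv, inv_inv]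
  rw [h2]
  rfl

lemma pointwisePure_tate (hℓ : ℓ ≠ p) (s : Sec p) {L : Shs p ℓ Z}
    (e : L ≅ (twM ((cycInv p ℓ).comp s.σ) ((cycInv_continuous p ℓ).comp s.cont)).obj
      (unitM @WeaklyEtale (ρs p) Z ℓ)) : PointwisePure 2 L :=
  pointwisePure_of_twUnit _ _ 2 p
    (fun φ hφ => by
      refine (cycInv_inv (s.σ φ)).trans ?_
      rw [cyc_frob p ℓ hℓ (s.σ φ) φ hφ (s.sec φ)]
      simp) (by norm_cast) e

end

end Pool.Agent.H72.MP
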