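import Pool.Agent.H72.MP.PosF

open CategoryTheory Limits AlgebraicGeometry TopologicalSpace Opposite Pretriangulated ZeroObject

namespace Pool.Agent.H72.MP

noncomputable section

open Tw

variable {p ℓ : ℕ} [Fact p.Prime] [Fact ℓ.Prime] (κ : Kum p ℓ) {X Y : Scheme.{0}} {i : Y ⟶ X}

lemma monPure_one (hℓ : ℓ ≠ p) (h : Geo p i) :
    IsMonodromyPurePerv κ 1 (DerivedCategory.Q.obj (C1 κ i)) :=
  ⟨perv_1 κ h, mixed_1 κ h hℓ, dl (nc κ i), isLog κ i hℓ, monFil κ h,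
    fun k => pure_gc h hℓ k⟩

lemma dist_zero {C : Type*} [Category C] [HasZeroObject C] [HasShift C ℤ] [Preadditive C]
    [∀ n : ℤ, (shiftFunctor C n).Additive] [Pretriangulated C] {K : C} (hK : IsZero K) :
    Triangle.mk (0 : K ⟶ K) (0 : K ⟶ K) (0 : K ⟶ K⟦(1 : ℤ)⟧) ∈ distTriang C :=
  isomorphic_distinguished _ (contractible_distinguished K) _
    (Triangle.isoMk _ _ (Iso.refl K) (Iso.refl K) (hK.iso (isZero_zero _))
      (hK.eq_of_src _ _) (hK.eq_of_src _ _) (hK.eq_of_src _ _))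

/-- The monodromy filtration of a zero object. -/
def monFilZero {K : Dη p ℓ X} (hK : IsZero K) : MonFil K (0 : K ⟶ (tate p ℓ X).obj K) where
  M _ := K
  perv_M _ := isPerv_zero hK
  inc _ := 0
  s _ := 0
  s_inc _ := hK.eq_of_src _ _
  low := ⟨0, fun _ _ => hK⟩
  high := ⟨0, fun _ _ => isIso_of_isZero hK hK _⟩
  gr _ := K
  perv_gr _ := isPerv_zero hK
  q _ := 0
  δ _ := 0
  dist _ := dist_zero hK
  Nk _ := 0
  Nk_inc _ := hK.eq_of_src _ _
  ν _ := 0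
  q_ν _ := hK.eq_of_src _ _
  iso j := isIso_of_isZero hK ((tates p ℓ X j).map_isZero hK) _

lemma monPure_zero {K : Dη p ℓ X} (hK : IsZero K) (w : ℤ) : IsMonodromyPurePerv κ w K := by
  have hg : IsZero ((geo p ℓ X).obj K) := (geoM p ℓ X).mapDerivedCategory.map_isZero hK
  exact ⟨isPerv_zero hK, isMixed_zero hK, 0,
    ⟨0, hg.eq_of_src _ _, ⊤, isOpen_univ, fun g _ _ => hg.eq_of_src _ _⟩, monFilZero hK,
    fun k => isPure_zero _ hK⟩

section coh

variable {G : Type} [Group G] [TopologicalSpace G] [IsTopologicalGroup G]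
  {ρ : G →* (kb p ≃+* kb p)} {K : DerivedCategory (Md @WeaklyEtale ρ X ℓ)} (hK : IsPerv K)

include hK

lemma pervCoh_zero : IsPervCoh 0 K K :=
  ⟨_, contractible_distinguished K, _, contractible_distinguished₁ K, ⟨Iso.refl _⟩, hK.1,
    ExtCl.zero (isZero_zero _), ⟨Iso.refl _⟩, ExtCl.zero (isZero_zero _), hK.2,
    ⟨((shiftFunctorZero _ ℤ).app K).symm⟩⟩

lemma pervCoh_pos (i : ℤ) (hi : 0 < i) {Q : DerivedCategory (Md @WeaklyEtale ρ X ℓ)}
    (hQ : IsZero Q) : IsPervCoh i K Q :=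
  ⟨_, contractible_distinguished K, _, contractible_distinguished K, ⟨Iso.refl _⟩,
    hK.1.mono hi.le, ExtCl.zero (isZero_zero _), ⟨Iso.refl _⟩, hK.1.mono (by omega),
    ExtCl.zero (isZero_zero _),
    ⟨hQ.iso ((shiftFunctor (DerivedCategory (Md @WeaklyEtale ρ X ℓ)) i).map_isZero
      (isZero_zero _))⟩⟩

lemma pervCoh_neg (i : ℤ) (hi : i < 0) {Q : DerivedCategory (Md @WeaklyEtale ρ X ℓ)}
    (hQ : IsZero Q) : IsPervCoh i K Q :=
  ⟨_, contractible_distinguished₁ K, _,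
    contractible_distinguished (0 : DerivedCategory (Md @WeaklyEtale ρ X ℓ)), ⟨Iso.refl _⟩,
    ExtCl.zero (isZero_zero _), hK.2.mono (by omega), ⟨Iso.refl _⟩, ExtCl.zero (isZero_zero _),
    ExtCl.zero (isZero_zero _),
    ⟨hQ.iso ((shiftFunctor (DerivedCategory (Md @WeaklyEtale ρ X ℓ)) i).map_isZero
      (isZero_zero _))⟩⟩

end coh

/-- The complex `ℚ_ℓ ⟶ i_* E` is monodromy-pure of weight one. -/
theorem pos (hℓ : ℓ ≠ p) (h : Geo p i) :
    IsMonodromyPure κ 1 (DerivedCategory.Plus.ι.obj (FF κ i)) := by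
  refine ⟨dbc_1 κ h, fun j => ?_⟩
  rcases lt_trichotomy j 0 with hj | rfl | hj
  · exact ⟨0, pervCoh_neg (perv_1 κ h) j hj (isZero_zero _), monPure_zero κ (isZero_zero _) _⟩
  · exact ⟨_, pervCoh_zero (perv_1 κ h), monPure_one κ hℓ h⟩
  · exact ⟨0, pervCoh_pos (perv_1 κ h) j hj (isZero_zero _), monPure_zero κ (isZero_zero _) _⟩

end

end Pool.Agent.H72.MP
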