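import Pool.Agent.H72.MP.Lisse

open CategoryTheory Limits AlgebraicGeometry TopologicalSpace Opposite Pretriangulated

namespace Pool.Agent.H72.MP

noncomputable section

open Tw

section ext

variable {C : Type*} [Category C] [HasZeroObject C] [HasShift C ℤ] [Preadditive C]
  [∀ n : ℤ, (shiftFunctor C n).Additive] [Pretriangulated C]

lemma ExtCl.mono {S S' : C → Prop} (h : ∀ K, S K → S' K) {K : C} (hK : ExtCl S K) :
    ExtCl S' K := by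
  induction hK with
  | of h1 => exact ExtCl.of (h _ h1)
  | zero h1 => exact ExtCl.zero h1
  | iso e _ ih => exact ExtCl.iso e ih
  | ext T hT _ _ ih1 ih3 => exact ExtCl.ext T hT ih1 ih3

end ext

variable {p ℓ : ℕ} [Fact p.Prime] [Fact ℓ.Prime] {X Y Z : Scheme.{0}}

section perv

variable {G : Type} [Group G] [TopologicalSpace G] [IsTopologicalGroup G]
  {ρ : G →* (kb p ≃+* kb p)}

lemma isDirectImage_closed (i : Z ⟶ X) [IsClosedImmersion i] (L : Md @WeaklyEtale ρ Z ℓ) (j : ℤ)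
    {E : Md @WeaklyEtale ρ X ℓ} (e : E ≅ (pushM @WeaklyEtale ρ ℓ i).obj L)
    {K : DerivedCategory (Md @WeaklyEtale ρ X ℓ)}
    (hK : K ≅ (DerivedCategory.singleFunctor _ j).obj E) : IsDirectImage i L j K :=
  Or.inr ⟨inferInstance, ⟨hK ≪≫ (DerivedCategory.singleFunctor _ j).mapIso e⟩⟩

lemma isPerv_single (i : Z ⟶ X) [IsClosedImmersion i] [IrreducibleSpace Z] (hZ : SmoothOver p Z)
    (d : ℕ) (hd : topologicalKrullDim Z = d) (L : Md @WeaklyEtale ρ Z ℓ) (hL : IsLisse L)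
    {E : Md @WeaklyEtale ρ X ℓ} (e : E ≅ (pushM @WeaklyEtale ρ ℓ i).obj L)
    {K : DerivedCategory (Md @WeaklyEtale ρ X ℓ)} (j : ℤ) (hj : j = -d)
    (hK : K ≅ (DerivedCategory.singleFunctor _ j).obj E) : IsPerv K :=
  ⟨ExtCl.of ⟨Z, i, inferInstance, L, E, j, d, hL, isExtByZero_closed i L e, hd.le, by omega,
      ⟨hK⟩⟩,
    ExtCl.of ⟨Z, i, inferInstance, inferInstance, hZ, L, j, d, hL, hd.ge, by omega,
      isDirectImage_closed i L j e hK⟩⟩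

lemma isDbc_single (i : Z ⟶ X) [IsClosedImmersion i] (L : Md @WeaklyEtale ρ Z ℓ)
    (hL : IsLisse L)
    {E : Md @WeaklyEtale ρ X ℓ} (e : E ≅ (pushM @WeaklyEtale ρ ℓ i).obj L)
    {K : DerivedCategory (Md @WeaklyEtale ρ X ℓ)} (j : ℤ)
    (hK : K ≅ (DerivedCategory.singleFunctor _ j).obj E) : IsDbc K :=
  ExtCl.of ⟨Z, i, inferInstance, L, E, j, hL, isExtByZero_closed i L e, ⟨hK⟩⟩

lemma isPerv_zero {K : DerivedCategory (Md @WeaklyEtale ρ X ℓ)} (h : IsZero K) : IsPerv K :=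
  ⟨ExtCl.zero h, ExtCl.zero h⟩

lemma isPerv_ext (T : Triangle (DerivedCategory (Md @WeaklyEtale ρ X ℓ))) (hT : T ∈ distTriang _)
    (h1 : IsPerv T.obj₁) (h3 : IsPerv T.obj₃) : IsPerv T.obj₂ :=
  ⟨ExtCl.ext T hT h1.1 h3.1, ExtCl.ext T hT h1.2 h3.2⟩

lemma PLE.mono {m n : ℤ} (h : m ≤ n) {K : DerivedCategory (Md @WeaklyEtale ρ X ℓ)}
    (hK : PLE m K) : PLE n K :=
  ExtCl.mono (fun _ ⟨Z, i, hi, L, E, j, d, hL, hE, hd, hj, e⟩ =>
    ⟨Z, i, hi, L, E, j, d, hL, hE, hd, hj.trans h, e⟩) hK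

lemma PGE.mono {m n : ℤ} (h : n ≤ m) {K : DerivedCategory (Md @WeaklyEtale ρ X ℓ)}
    (hK : PGE m K) : PGE n K :=
  ExtCl.mono (fun _ ⟨Z, i, hi, h1, h2, L, j, d, hL, hd, hj, e⟩ =>
    ⟨Z, i, hi, h1, h2, L, j, d, hL, hd, h.trans hj, e⟩) hK

end perv

section pure

lemma isPure_single (i : Z ⟶ X) [IsClosedImmersion i] (hZ : SmoothOver p Z)
    (L : Shη p ℓ Z) (v w j : ℤ) (hv : v = w + j)
    (hL : ∀ s : Sec p, IsLisse ((sigM ℓ Z s).obj L) ∧ PointwisePure v ((sigM ℓ Z s).obj L))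
    {E : Shη p ℓ X} (e : E ≅ (pushη i).obj L) {K : Dη p ℓ X}
    (hK : K ≅ (DerivedCategory.singleFunctor _ j).obj E) : IsPure w K := by
  intro s
  have e1 : (sigD ℓ X s).obj K ≅ (DerivedCategory.singleFunctor _ j).obj ((sigM ℓ X s).obj E) :=
    (sigD ℓ X s).mapIso hK ≪≫ ((sigM ℓ X s).mapDerivedCategorySingleFunctor j).app E
  have e2 : (sigM ℓ X s).obj E ≅ (pushM @WeaklyEtale (ρs p) ℓ i).obj ((sigM ℓ Z s).obj L) :=
    (sigM ℓ X s).mapIso e ≪≫ resPush s.σ s.cont s.sec i L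
  exact ⟨ExtCl.of ⟨Z, i, inferInstance, (sigM ℓ Z s).obj L, _, j, v, (hL s).1, (hL s).2,
      isExtByZero_closed i _ e2, hv.le, ⟨e1⟩⟩,
    ExtCl.of ⟨Z, i, inferInstance, hZ, (sigM ℓ Z s).obj L, j, v, (hL s).1, (hL s).2, hv.ge,
      isDirectImage_closed i _ j e2 e1⟩⟩

lemma isMixed_of_isPure {w : ℤ} {K : Dη p ℓ X} (h : IsPure w K) : IsMixed K := fun s =>
  ExtCl.mono (fun _ ⟨Z, i, hi, L, E, j, v, hL, hv, hE, _, e⟩ =>
    ⟨Z, i, hi, L, E, j, v, hL, hv, hE, e⟩) (h s).1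

lemma isMixed_zero {K : Dη p ℓ X} (h : IsZero K) : IsMixed K := fun s =>
  ExtCl.zero ((sigM ℓ X s).mapDerivedCategory.map_isZero h)

lemma isPure_zero {K : Dη p ℓ X} (w : ℤ) (h : IsZero K) : IsPure w K := fun s =>
  ⟨ExtCl.zero ((sigM ℓ X s).mapDerivedCategory.map_isZero h),
    ExtCl.zero ((sigM ℓ X s).mapDerivedCategory.map_isZero h)⟩

lemma isMixed_ext (T : Triangle (Dη p ℓ X)) (hT : T ∈ distTriang _)
    (h1 : IsMixed T.obj₁) (h3 : IsMixed T.obj₃) : IsMixed T.obj₂ := fun s =>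
  ExtCl.ext ((sigM ℓ X s).mapDerivedCategory.mapTriangle.obj T)
    ((sigM ℓ X s).mapDerivedCategory.map_distinguished T hT) (h1 s) (h3 s)

end pure

end

end Pool.Agent.H72.MP
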