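import Pool.Agent.H72.MP.PosA

open CategoryTheory Limits AlgebraicGeometry TopologicalSpace Opposite Pretriangulated ZeroObject

namespace Pool.Agent.H72.MP

noncomputable section

open Tw

namespace Tw

variable {P : MorphismProperty Scheme.{0}} {k : Type} [Field k] {G : Type} [Group G]
  [TopologicalSpace G] [IsTopologicalGroup G] {ρ : G →* (k ≃+* k)} {X Y : Scheme.{0}}
  {ℓ : ℕ} [Fact ℓ.Prime]
  [P.IsStableUnderBaseChange] [P.IsStableUnderComposition] [P.HasOfPostcompProperty P]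

lemma md_shortExact (S : ShortComplex (Md P ρ X ℓ))
    (hi : ∀ U : Tw P ρ X, Function.Injective (S.f.val.app (op U)))
    (hs : ∀ U : Tw P ρ X, Function.Surjective (S.g.val.app (op U)))
    (he : ∀ (U : Tw P ρ X) (y : S.X₂.val.obj (op U)), S.g.val.app (op U) y = 0 →
      ∃ x, S.f.val.app (op U) x = y) : S.ShortExact where
  exact := by
    rw [exact_iff]
    intro U y hy
    obtain ⟨x, rfl⟩ := he U y hy
    exact ⟨⊤, (topo P ρ X).top_mem U, fun V h _ => ⟨rst S.X₁.val h x, md_nat S.f h x⟩⟩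
  mono_f := (mono_iff_injective S.f).2 hi
  epi_g := (epi_iff_locSurj S.g).2 (fun U y => ⟨⊤, (topo P ρ X).top_mem U, fun V g _ => by
    obtain ⟨x, hx⟩ := hs V (rst S.X₃.val g y)
    exact ⟨x, hx⟩⟩)

end Tw

variable {p ℓ : ℕ} [Fact p.Prime] [Fact ℓ.Prime] (κ : Kum p ℓ) {X Y : Scheme.{0}} (i : Y ⟶ X)

variable (p ℓ) in
/-- The sheaf `i_* ℚ_ℓ`. -/
abbrev B0 : Shη p ℓ X := (pushη i).obj (OE p ℓ Y)

/-- The sheaf `i_* E`. -/
abbrev B1 : Shη p ℓ X := (pushη i).obj (EE κ Y)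

/-- The inclusion of `i_* ℚ_ℓ` in `i_* E`. -/
def bInc : B0 p ℓ i ⟶ B1 κ i := (pushη i).map (eInc κ Y)

/-- The projection of `i_* E` to `i_* ℚ_ℓ (-1)`. -/
def bProj : B1 κ i ⟶ (tateM p ℓ X).obj (B0 p ℓ i) :=
  (pushη i).map (eProj κ Y) ≫
    (pushTw (cycInv p ℓ) (cycInv_continuous p ℓ) i (OE p ℓ Y)).inv

lemma bInc_apply (U : Tw @WeaklyEtale (ρη p) X)
    (a : (ringS @WeaklyEtale (ρη p) Y ℓ).obj.obj (op ((pull i).obj U))) :
    (bInc κ i).val.app (op U) a = (a, 0) := rfl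

lemma bProj_apply (U : Tw @WeaklyEtale (ρη p) X)
    (x : (ringS @WeaklyEtale (ρη p) Y ℓ).obj.obj (op ((pull i).obj U)) ×
      (ringS @WeaklyEtale (ρη p) Y ℓ).obj.obj (op ((pull i).obj U))) :
    (bProj κ i).val.app (op U) x = x.2 := rfl

lemma bInc_bProj : bInc κ i ≫ bProj κ i = 0 := md_hom_ext (fun _ _ => rfl)

lemma ses_b : (ShortComplex.mk (bInc κ i) (bProj κ i) (bInc_bProj κ i)).ShortExact := by
  refine md_shortExact _ (fun U a b h => ?_) (fun U y => ?_) (fun U y hy => ?_)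
  · exact congrArg (fun z : (ringS @WeaklyEtale (ρη p) Y ℓ).obj.obj (op ((pull i).obj U)) ×
      (ringS @WeaklyEtale (ρη p) Y ℓ).obj.obj (op ((pull i).obj U)) => z.1) h
  · exact ⟨(0, y), rfl⟩
  · exact ⟨y.1, Prod.ext rfl (hy : y.2 = 0).symm⟩

variable (p ℓ) in
/-- The restriction of the constant sheaf. -/
abbrev uR : OE p ℓ X ⟶ B0 p ℓ i := unitRes @WeaklyEtale (ρη p) ℓ i

lemma dI_eq : dI κ i = uR p ℓ i ≫ bInc κ i := rfl

lemma dI_bProj : dI κ i ≫ bProj κ i = 0 := by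
  rw [dI_eq, Category.assoc, bInc_bProj, comp_zero]

/-! ### The complexes -/

variable (p ℓ) in
/-- The complex `i_* ℚ_ℓ`. -/
abbrev Cm : CochainComplex (Shη p ℓ X) ℤ := two (0 : (0 : Shη p ℓ X) ⟶ B0 p ℓ i)

variable (p ℓ) in
/-- The complex `ℚ_ℓ ⟶ i_* ℚ_ℓ`. -/
abbrev C0 : CochainComplex (Shη p ℓ X) ℤ := two (uR p ℓ i)

/-- The complex `ℚ_ℓ ⟶ i_* E`. -/
abbrev C1 : CochainComplex (Shη p ℓ X) ℤ := two (dI κ i)

variable (p ℓ) in
/-- The complex `ℚ_ℓ[1]`. -/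
abbrev g0 (X : Scheme.{0}) : CochainComplex (Shη p ℓ X) ℤ := two (0 : OE p ℓ X ⟶ 0)

variable (p ℓ) in
/-- The complex `i_* ℚ_ℓ(-1)`. -/
abbrev g1 : CochainComplex (Shη p ℓ X) ℤ :=
  two (0 : (0 : Shη p ℓ X) ⟶ (tateM p ℓ X).obj (B0 p ℓ i))

variable (p ℓ) in
/-- The inclusion `Cm ⟶ C0`. -/
def jm : Cm p ℓ i ⟶ C0 p ℓ i := twoMap 0 (𝟙 _) (by simp)

variable (p ℓ) in
/-- The projection `C0 ⟶ g0`. -/
def pm : C0 p ℓ i ⟶ g0 p ℓ X := twoMap (𝟙 _) 0 (by simp)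

/-- The inclusion `C0 ⟶ C1`. -/
def j0 : C0 p ℓ i ⟶ C1 κ i := twoMap (𝟙 _) (bInc κ i) (by rw [dI_eq, Category.id_comp])

/-- The projection `C1 ⟶ g1`. -/
def p0 : C1 κ i ⟶ g1 p ℓ i := twoMap 0 (bProj κ i) (by rw [dI_bProj, comp_zero])

lemma ses_id_zero {C : Type*} [Category C] [Abelian C] (A : C) :
    (ShortComplex.mk (𝟙 A) (0 : A ⟶ (0 : C)) (by simp)).ShortExact where
  exact := ShortComplex.exact_of_f_is_kernel _ (KernelFork.IsLimit.ofId _ rfl)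
  mono_f := inferInstance
  epi_g := ⟨fun _ _ _ => (isZero_zero C).eq_of_src _ _⟩

lemma ses_zero_id {C : Type*} [Category C] [Abelian C] (A : C) :
    (ShortComplex.mk (0 : (0 : C) ⟶ A) (𝟙 A) (by simp)).ShortExact where
  exact := ShortComplex.exact_of_g_is_cokernel _ (CokernelCofork.IsColimit.ofId _ rfl)
  mono_f := ⟨fun _ _ _ => (isZero_zero C).eq_of_tgt _ _⟩
  epi_g := inferInstance

lemma ses_m : (ShortComplex.mk (jm p ℓ i) (pm p ℓ i) (two_hom_ext zero_comp comp_zero)).ShortExact :=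
  two_shortExact _ _ (by simp) (by simp) (ses_zero_id _) (ses_id_zero _)

lemma ses_0 : (ShortComplex.mk (j0 κ i) (p0 κ i) (two_hom_ext comp_zero (bInc_bProj κ i))).ShortExact :=
  two_shortExact _ _ (by simp) (bInc_bProj κ i) (ses_id_zero _) (ses_b κ i)

end

end Pool.Agent.H72.MP
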