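import Pool.Agent.H72.MP.PosB

open CategoryTheory Limits AlgebraicGeometry TopologicalSpace Opposite Pretriangulated ZeroObject

namespace Pool.Agent.H72.MP

noncomputable section

open Tw

variable {p ℓ : ℕ} [Fact p.Prime] [Fact ℓ.Prime] (κ : Kum p ℓ) {X Y : Scheme.{0}} (i : Y ⟶ X)

/-- `Q` of a two-term complex with zero source. -/
def QzeroIso {C : Type*} [Category C] [Abelian C] [HasDerivedCategory C] (B : C) :
    DerivedCategory.Q.obj (two (0 : (0 : C) ⟶ B)) ≅ (DerivedCategory.singleFunctor C 0).obj B :=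
  DerivedCategory.Q.mapIso (twoZeroIso B)

/-- `Q` of a two-term complex with zero target. -/
def QzeroIso' {C : Type*} [Category C] [Abelian C] [HasDerivedCategory C] (A : C) :
    DerivedCategory.Q.obj (two (0 : A ⟶ (0 : C))) ≅ (DerivedCategory.singleFunctor C (-1)).obj A :=
  DerivedCategory.Q.mapIso (twoZeroIso' A)

/-- Geometric hypotheses: `X` is irreducible, smooth over `𝔽_p` and of dimension one, `Y` is
irreducible, smooth and of dimension zero, and `i : Y ⟶ X` is a closed immersion. -/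
structure Geo (p : ℕ) {X Y : Scheme.{0}} (i : Y ⟶ X) : Prop where
  closed : IsClosedImmersion i
  smX : SmoothOver p X
  smY : SmoothOver p Y
  irX : IrreducibleSpace X
  irY : IrreducibleSpace Y
  dX : topologicalKrullDim X = (1 : ℕ)
  dY : topologicalKrullDim Y = (0 : ℕ)

variable {i} (h : Geo p i)

include h

lemma perv_m : IsPerv (DerivedCategory.Q.obj (Cm p ℓ i)) := by
  have := h.closed
  have := h.irY
  exact isPerv_single i h.smY 0 h.dY (OE p ℓ Y) isLisse_unit (Iso.refl _) 0 (by simp)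
    (QzeroIso _)

lemma perv_g0 : IsPerv (DerivedCategory.Q.obj (g0 p ℓ X)) := by
  have := h.irX
  exact isPerv_single (𝟙 X) h.smX 1 h.dX (OE p ℓ X) isLisse_unit (pushId _) (-1) (by simp)
    (QzeroIso' _)

lemma perv_g1 : IsPerv (DerivedCategory.Q.obj (g1 p ℓ i)) := by
  have := h.closed
  have := h.irY
  exact isPerv_single i h.smY 0 h.dY ((tateM p ℓ Y).obj (OE p ℓ Y)) (isLisse_twUnit _ _)
    (pushTw _ _ i _) 0 (by simp) (QzeroIso _)

lemma perv_0 : IsPerv (DerivedCategory.Q.obj (C0 p ℓ i)) :=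
  isPerv_ext _ (DerivedCategory.triangleOfSES_distinguished (ses_m i)) (perv_m h) (perv_g0 h)

lemma perv_1 : IsPerv (DerivedCategory.Q.obj (C1 κ i)) :=
  isPerv_ext _ (DerivedCategory.triangleOfSES_distinguished (ses_0 κ i)) (perv_0 h) (perv_g1 h)

lemma dbc_1 : IsDbc (DerivedCategory.Q.obj (C1 κ i)) := by
  have := h.closed
  have hm : IsDbc (DerivedCategory.Q.obj (Cm p ℓ i)) :=
    isDbc_single i (OE p ℓ Y) isLisse_unit (Iso.refl _) 0 (QzeroIso _)
  have h0 : IsDbc (DerivedCategory.Q.obj (g0 p ℓ X)) :=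
    isDbc_single (𝟙 X) (OE p ℓ X) isLisse_unit (pushId _) (-1) (QzeroIso' _)
  have h1 : IsDbc (DerivedCategory.Q.obj (g1 p ℓ i)) :=
    isDbc_single i ((tateM p ℓ Y).obj (OE p ℓ Y)) (isLisse_twUnit _ _) (pushTw _ _ i _) 0
      (QzeroIso _)
  exact ExtCl.ext _ (DerivedCategory.triangleOfSES_distinguished (ses_0 κ i))
    (ExtCl.ext _ (DerivedCategory.triangleOfSES_distinguished (ses_m i)) hm h0) h1

lemma pure_m : IsPure 0 (DerivedCategory.Q.obj (Cm p ℓ i)) := by
  have := h.closed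
  exact isPure_single i h.smY (OE p ℓ Y) 0 0 0 (by simp)
    (fun s => ⟨isLisse_of_iso (resUnit s.σ s.cont s.sec).symm isLisse_unit,
      pointwisePure_unit (resUnit s.σ s.cont s.sec)⟩) (Iso.refl _) (QzeroIso _)

lemma pure_g0 : IsPure 1 (DerivedCategory.Q.obj (g0 p ℓ X)) :=
  isPure_single (𝟙 X) h.smX (OE p ℓ X) 0 1 (-1) (by simp)
    (fun s => ⟨isLisse_of_iso (resUnit s.σ s.cont s.sec).symm isLisse_unit,
      pointwisePure_unit (resUnit s.σ s.cont s.sec)⟩) (pushId _) (QzeroIso' _)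

lemma pure_g1 (hℓ : ℓ ≠ p) : IsPure 2 (DerivedCategory.Q.obj (g1 p ℓ i)) := by
  have := h.closed
  refine isPure_single i h.smY ((tateM p ℓ Y).obj (OE p ℓ Y)) 2 2 0 (by simp)
    (fun s => ?_) (pushTw _ _ i _) (QzeroIso _)
  have e : (sigM ℓ Y s).obj ((tateM p ℓ Y).obj (OE p ℓ Y)) ≅
      (twM ((cycInv p ℓ).comp s.σ) ((cycInv_continuous p ℓ).comp s.cont)).obj
        (unitM @WeaklyEtale (ρs p) Y ℓ) :=
    resTw s.σ s.cont s.sec _ _ _ ≪≫ (twM _ _).mapIso (resUnit s.σ s.cont s.sec)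
  exact ⟨isLisse_of_iso e.symm (isLisse_twUnit _ _), pointwisePure_tate hℓ s e⟩

lemma mixed_1 (hℓ : ℓ ≠ p) : IsMixed (DerivedCategory.Q.obj (C1 κ i)) :=
  isMixed_ext _ (DerivedCategory.triangleOfSES_distinguished (ses_0 κ i))
    (isMixed_ext _ (DerivedCategory.triangleOfSES_distinguished (ses_m i))
      (isMixed_of_isPure (pure_m h)) (isMixed_of_isPure (pure_g0 h)))
    (isMixed_of_isPure (pure_g1 h hℓ))

end

end Pool.Agent.H72.MP
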