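import Pool.Agent.H72.MP.PosC

open CategoryTheory Limits AlgebraicGeometry TopologicalSpace Opposite Pretriangulated ZeroObject

namespace Pool.Agent.H72.MP

noncomputable section

open Tw

variable {p ℓ : ℕ} [Fact p.Prime] [Fact ℓ.Prime] (κ : Kum p ℓ) {X Y : Scheme.{0}} (i : Y ⟶ X)

/-- The Tate twist on complexes. -/
abbrev Tc (p ℓ : ℕ) [Fact p.Prime] [Fact ℓ.Prime] (X : Scheme.{0}) :
    CochainComplex (Shη p ℓ X) ℤ ⥤ CochainComplex (Shη p ℓ X) ℤ :=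
  (tateM p ℓ X).mapHomologicalComplex (ComplexShape.up ℤ)

lemma jm_pm : jm p ℓ i ≫ pm p ℓ i = 0 := two_hom_ext zero_comp comp_zero

lemma j0_p0 : j0 κ i ≫ p0 κ i = 0 := two_hom_ext comp_zero (bInc_bProj κ i)

variable (p ℓ) in
/-- The isomorphism between the top and the bottom graded pieces. -/
def νIso : g1 p ℓ i ≅ (Tc p ℓ X).obj (Cm p ℓ i) :=
  twoIso ((isZero_zero _).iso ((tateM p ℓ X).map_isZero (isZero_zero _))) (Iso.refl _)
    (by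
      rw [Functor.map_zero, comp_zero, zero_comp]) ≪≫
    (mapTwo (tateM p ℓ X) (0 : (0 : Shη p ℓ X) ⟶ B0 p ℓ i)).symm

/-- The operator on complexes. -/
def nm : C1 κ i ⟶ (Tc p ℓ X).obj (Cm p ℓ i) := p0 κ i ≫ (νIso p ℓ i).hom

/-- The operator on complexes. -/
def nc : C1 κ i ⟶ (Tc p ℓ X).obj (C1 κ i) := nm κ i ≫ (Tc p ℓ X).map (jm p ℓ i ≫ j0 κ i)

/-- The steps of the filtration. -/
def Mc : ℤ → CochainComplex (Shη p ℓ X) ℤ
  | .negSucc 0 => Cm p ℓ i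
  | .negSucc (_ + 1) => 0
  | .ofNat 0 => C0 p ℓ i
  | .ofNat (_ + 1) => C1 κ i

/-- The inclusions. -/
def incc : ∀ k : ℤ, Mc κ i k ⟶ C1 κ i
  | .negSucc 0 => jm p ℓ i ≫ j0 κ i
  | .negSucc (_ + 1) => 0
  | .ofNat 0 => j0 κ i
  | .ofNat (_ + 1) => 𝟙 _

/-- The inclusions. -/
def sc : ∀ k : ℤ, Mc κ i k ⟶ Mc κ i (k + 1)
  | .negSucc 0 => jm p ℓ i
  | .negSucc (_ + 1) => 0
  | .ofNat 0 => j0 κ i
  | .ofNat (_ + 1) => 𝟙 _

lemma sc_incc (k : ℤ) : sc κ i k ≫ incc κ i (k + 1) = incc κ i k := by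
  rcases k with (_ | k) | (_ | k)
  · exact Category.comp_id _
  · exact Category.comp_id _
  · rfl
  · exact (isZero_zero _).eq_of_src _ _

variable (p ℓ) in
/-- The graded pieces. -/
def gc : ℤ → CochainComplex (Shη p ℓ X) ℤ
  | .negSucc 0 => Cm p ℓ i
  | .negSucc (_ + 1) => 0
  | .ofNat 0 => g0 p ℓ X
  | .ofNat 1 => g1 p ℓ i
  | .ofNat (_ + 2) => 0

/-- The projections. -/
def qc : ∀ k : ℤ, Mc κ i k ⟶ gc p ℓ i k
  | .negSucc 0 => 𝟙 _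
  | .negSucc (_ + 1) => 0
  | .ofNat 0 => pm p ℓ i
  | .ofNat 1 => p0 κ i
  | .ofNat (_ + 2) => 0

lemma sc_qc (k : ℤ) : sc κ i k ≫ qc κ i (k + 1) = 0 := by
  rcases k with (_ | k) | (_ | _ | k)
  · exact j0_p0 κ i
  · exact comp_zero
  · exact jm_pm i
  · exact zero_comp
  · exact zero_comp

lemma ses_zero_zero {C : Type*} [Category C] [Abelian C] :
    (ShortComplex.mk (0 : (0 : C) ⟶ 0) (0 : (0 : C) ⟶ 0) (by simp)).ShortExact where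
  exact := ShortComplex.exact_of_isZero_X₂ _ (isZero_zero C)
  mono_f := ⟨fun _ _ _ => (isZero_zero C).eq_of_tgt _ _⟩
  epi_g := ⟨fun _ _ _ => (isZero_zero C).eq_of_src _ _⟩

lemma ses_c (k : ℤ) : (ShortComplex.mk (sc κ i k) (qc κ i (k + 1)) (sc_qc κ i k)).ShortExact := by
  rcases k with (_ | k) | (_ | _ | k)
  · exact ses_0 κ i
  · exact ses_id_zero _
  · exact ses_m i
  · exact ses_zero_id _
  · exact ses_zero_zero

/-- The operator on the steps. -/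
def Nkc : ∀ k : ℤ, Mc κ i (k + 2) ⟶ (Tc p ℓ X).obj (Mc κ i k)
  | .negSucc 0 => nm κ i
  | .negSucc (_ + 1) => 0
  | .ofNat 0 => nm κ i ≫ (Tc p ℓ X).map (jm p ℓ i)
  | .ofNat (_ + 1) => nc κ i

lemma j0_nm : j0 κ i ≫ nm κ i = 0 := by
  rw [nm, ← Category.assoc]
  rw [j0_p0, zero_comp]

lemma j0_nc : j0 κ i ≫ nc κ i = 0 := by
  rw [nc, ← Category.assoc, j0_nm, zero_comp]

lemma Nkc_incc (k : ℤ) : Nkc κ i k ≫ (Tc p ℓ X).map (incc κ i k) = incc κ i (k + 2) ≫ nc κ i := by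
  rcases k with (_ | k) | (_ | _ | _ | k)
  · change (nm κ i ≫ (Tc p ℓ X).map (jm p ℓ i)) ≫ (Tc p ℓ X).map (j0 κ i) = 𝟙 _ ≫ nc κ i
    rw [Category.id_comp, Category.assoc, ← Functor.map_comp, nc]
  · change nc κ i ≫ (Tc p ℓ X).map (𝟙 _) = 𝟙 _ ≫ nc κ i
    rw [CategoryTheory.Functor.map_id, Category.id_comp, Category.comp_id]
  · exact (Category.id_comp _).symm
  · change 0 ≫ _ = j0 κ i ≫ nc κ i
    rw [zero_comp, j0_nc]
  · change 0 ≫ _ = (jm p ℓ i ≫ j0 κ i) ≫ nc κ i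
    rw [zero_comp, Category.assoc, j0_nc, comp_zero]
  · exact (isZero_zero _).eq_of_src _ _

variable (p ℓ) in
/-- The operator on the graded pieces. -/
def νc : ∀ k : ℤ, gc p ℓ i (k + 2) ⟶ (Tc p ℓ X).obj (gc p ℓ i k)
  | .negSucc 0 => (νIso p ℓ i).hom
  | .negSucc (_ + 1) => 0
  | .ofNat _ => 0

lemma qc_νc (k : ℤ) : qc κ i (k + 2) ≫ νc p ℓ i k = Nkc κ i k ≫ (Tc p ℓ X).map (qc κ i k) := by
  rcases k with (_ | _ | k) | (_ | k)
  · change (0 : C1 κ i ⟶ 0) ≫ 0 = (nm κ i ≫ (Tc p ℓ X).map (jm p ℓ i)) ≫ (Tc p ℓ X).map (pm p ℓ i)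
    rw [Category.assoc, ← Functor.map_comp, jm_pm, Functor.map_zero, comp_zero, comp_zero]
  · change (0 : C1 κ i ⟶ 0) ≫ 0 = nc κ i ≫ (Tc p ℓ X).map (p0 κ i)
    rw [comp_zero, nc, Category.assoc, ← Functor.map_comp, Category.assoc, j0_p0, comp_zero,
      Functor.map_zero, comp_zero]
  · exact ((Tc p ℓ X).map_isZero (isZero_zero _)).eq_of_tgt _ _
  · change p0 κ i ≫ (νIso p ℓ i).hom = nm κ i ≫ (Tc p ℓ X).map (𝟙 _)
    rw [CategoryTheory.Functor.map_id, Category.comp_id, nm]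
  · exact ((Tc p ℓ X).map_isZero (isZero_zero _)).eq_of_tgt _ _

end

end Pool.Agent.H72.MP
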