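import Pool.Agent.H72.MP.PosD

open CategoryTheory Limits AlgebraicGeometry TopologicalSpace Opposite Pretriangulated ZeroObject

namespace Pool.Agent.H72.MP

noncomputable section

open Tw

variable {p ℓ : ℕ} [Fact p.Prime] [Fact ℓ.Prime] (κ : Kum p ℓ) {X Y : Scheme.{0}} (i : Y ⟶ X)

/-- A morphism of complexes to a Tate twist, in the derived category. -/
def dl {K L : CochainComplex (Shη p ℓ X) ℤ} (f : K ⟶ (Tc p ℓ X).obj L) :
    DerivedCategory.Q.obj K ⟶ (tate p ℓ X).obj (DerivedCategory.Q.obj L) :=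
  DerivedCategory.Q.map f ≫ (tateM p ℓ X).mapDerivedCategoryFactors.inv.app L

lemma dl_map {K L L' : CochainComplex (Shη p ℓ X) ℤ} (f : K ⟶ (Tc p ℓ X).obj L) (g : L ⟶ L') :
    dl f ≫ (tate p ℓ X).map (DerivedCategory.Q.map g) = dl (f ≫ (Tc p ℓ X).map g) := by
  have h := (tateM p ℓ X).mapDerivedCategoryFactors.inv.naturality g
  change DerivedCategory.Q.map ((Tc p ℓ X).map g) ≫ _ =
    _ ≫ (tate p ℓ X).map (DerivedCategory.Q.map g) at h
  rw [dl, dl, Category.assoc, ← h, Functor.map_comp, Category.assoc]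

lemma map_dl {K K' L : CochainComplex (Shη p ℓ X) ℤ} (g : K' ⟶ K) (f : K ⟶ (Tc p ℓ X).obj L) :
    DerivedCategory.Q.map g ≫ dl f = dl (g ≫ f) := by
  rw [dl, dl, Functor.map_comp, Category.assoc]

instance {K L : CochainComplex (Shη p ℓ X) ℤ} (f : K ⟶ (Tc p ℓ X).obj L) [IsIso f] :
    IsIso (dl f) :=
  @IsIso.comp_isIso _ _ _ _ _ (DerivedCategory.Q.map f)
    ((tateM p ℓ X).mapDerivedCategoryFactors.inv.app L) inferInstance inferInstance

variable {i} (h : Geo p i)

lemma isZero_Q {C : Type*} [Category C] [Abelian C] [HasDerivedCategory C] :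
    IsZero ((DerivedCategory.Q (C := C)).obj 0) :=
  DerivedCategory.Q.map_isZero (isZero_zero _)

include h in
lemma perv_Mc (k : ℤ) : IsPerv (DerivedCategory.Q.obj (Mc κ i k)) := by
  rcases k with (_ | k) | (_ | k)
  · exact perv_0 h
  · exact perv_1 κ h
  · exact perv_m h
  · exact isPerv_zero isZero_Q

include h in
lemma perv_gc (k : ℤ) : IsPerv (DerivedCategory.Q.obj (gc p ℓ i k)) := by
  rcases k with (_ | _ | k) | (_ | k)
  · exact perv_g0 h
  · exact perv_g1 h
  · exact isPerv_zero isZero_Q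
  · exact perv_m h
  · exact isPerv_zero isZero_Q

include h in
lemma pure_gc (hℓ : ℓ ≠ p) (k : ℤ) : IsPure (k + 1) (DerivedCategory.Q.obj (gc p ℓ i k)) := by
  rcases k with (_ | _ | k) | (_ | k)
  · exact pure_g0 h
  · exact pure_g1 h hℓ
  · exact isPure_zero _ isZero_Q
  · exact pure_m h
  · exact isPure_zero _ isZero_Q

lemma up_eq (m : ℤ) (j : ℕ) : up m j = m + 2 * j := by
  induction j with
  | zero => simp [up]
  | succ j ih => rw [up, ih]; push_cast; ring

instance (j : ℕ) : (tates p ℓ X j).Additive := by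
  induction j with
  | zero => unfold tates; infer_instance
  | succ j ih =>
    have : (tate p ℓ X).Additive := by unfold tate; infer_instance
    unfold tates; infer_instance

lemma isZero_gc (k : ℤ) (hk : 2 ≤ k ∨ k ≤ -2) : IsZero (DerivedCategory.Q.obj (gc p ℓ i k)) := by
  rcases k with (_ | _ | k) | (_ | k)
  · exact absurd hk (by decide)
  · exact absurd hk (by decide)
  · exact isZero_Q
  · exact absurd hk (by decide)
  · exact isZero_Q

lemma isIso_of_isZero {C : Type*} [Category C] {A B : C} (hA : IsZero A) (hB : IsZero B)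
    (f : A ⟶ B) : IsIso f :=
  ⟨⟨hB.to_ A, hA.eq_of_src _ _, hB.eq_of_src _ _⟩⟩

lemma iso_iter (j : ℕ) : IsIso (iter (p := p) (ℓ := ℓ) (X := X)
    (fun k => DerivedCategory.Q.obj (gc p ℓ i k)) (fun k => dl (νc p ℓ i k)) (-j) j) := by
  rcases j with _ | _ | j
  · exact inferInstanceAs (IsIso (𝟙 _))
  · have h1 : IsIso (νc p ℓ i (-1)) := inferInstanceAs (IsIso (νIso p ℓ i).hom)
    have h2 : IsIso (dl (νc p ℓ i (-1))) := inferInstance
    have h3 : IsIso (dl (νc p ℓ i (-1)) ≫ (tate p ℓ X).map (𝟙 (DerivedCategory.Q.obj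
      (gc p ℓ i (-1))))) := by
      rw [CategoryTheory.Functor.map_id]
      infer_instance
    exact h3
  · have h1 : IsZero (DerivedCategory.Q.obj (gc p ℓ i (up (-((j + 2 : ℕ) : ℤ)) (j + 2)))) :=
      isZero_gc _ (Or.inl (by rw [up_eq]; push_cast; omega))
    have h2 : IsZero ((tates p ℓ X (j + 2)).obj
        (DerivedCategory.Q.obj (gc p ℓ i (-((j + 2 : ℕ) : ℤ))))) :=
      (tates p ℓ X (j + 2)).map_isZero (isZero_gc _ (Or.inr (by push_cast; omega)))
    exact isIso_of_isZero h1 h2 _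

/-- The monodromy filtration. -/
def monFil : MonFil (DerivedCategory.Q.obj (C1 κ i)) (dl (nc κ i)) where
  M k := DerivedCategory.Q.obj (Mc κ i k)
  perv_M k := perv_Mc κ h k
  inc k := DerivedCategory.Q.map (incc κ i k)
  s k := DerivedCategory.Q.map (sc κ i k)
  s_inc k := by rw [← Functor.map_comp, sc_incc]
  low := ⟨-2, fun k hk => by
    rcases k with (_ | k) | (_ | k)
    · exact absurd hk (by decide)
    · exact absurd hk (by rw [Int.ofNat_eq_natCast]; omega)
    · exact absurd hk (by decide)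
    · exact isZero_Q⟩
  high := ⟨1, fun k hk => by
    rcases k with (_ | k) | (_ | k)
    · exact absurd hk (by decide)
    · exact inferInstanceAs (IsIso (DerivedCategory.Q.map (𝟙 (C1 κ i))))
    · exact absurd hk (by decide)
    · exact absurd hk (by have := Int.negSucc_lt_zero (k + 1); omega)⟩
  gr k := DerivedCategory.Q.obj (gc p ℓ i k)
  perv_gr k := perv_gc h k
  q k := DerivedCategory.Q.map (qc κ i k)
  δ k := DerivedCategory.triangleOfSESδ (ses_c κ i k)
  dist k := DerivedCategory.triangleOfSES_distinguished (ses_c κ i k)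
  Nk k := dl (Nkc κ i k)
  Nk_inc k := by rw [dl_map, map_dl, Nkc_incc]
  ν k := dl (νc p ℓ i k)
  q_ν k := by rw [dl_map, map_dl, qc_νc]
  iso j := iso_iter j

end

end Pool.Agent.H72.MP
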