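import Pool.Agent.H72.MP.Der

open CategoryTheory Limits Category

universe w v u w' v' u' w'' v'' u''

namespace Pool.Agent.H72.MP

noncomputable section

variable {A : Type u} [Category.{v} A] [Abelian A] [HasDerivedCategory.{w} A]
  {B : Type u'} [Category.{v'} B] [Abelian B] [HasDerivedCategory.{w'} B]
  (T : A ⥤ A) [T.Additive] [PreservesFiniteLimits T] [PreservesFiniteColimits T]
  (G : A ⥤ B) [G.Additive] [PreservesFiniteLimits G] [PreservesFiniteColimits G]

/-- Endomorphisms in the derived category defined by endomorphisms of complexes. -/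
def cj {K : CochainComplex A ℤ}
    (a : (G.mapHomologicalComplex (ComplexShape.up ℤ)).obj K ⟶
      (G.mapHomologicalComplex (ComplexShape.up ℤ)).obj K) :
    End (G.mapDerivedCategory.obj (DerivedCategory.Q.obj K)) :=
  G.mapDerivedCategoryFactors.hom.app K ≫ DerivedCategory.Q.map a ≫
    G.mapDerivedCategoryFactors.inv.app K

variable {K : CochainComplex A ℤ}
  (a b : (G.mapHomologicalComplex (ComplexShape.up ℤ)).obj K ⟶
      (G.mapHomologicalComplex (ComplexShape.up ℤ)).obj K)

lemma cj_mul : cj G a * cj G b = cj G (b ≫ a) := by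
  rw [End.mul_def, cj, cj, cj, Category.assoc, Category.assoc, Iso.inv_hom_id_app_assoc,
    Functor.map_comp, Category.assoc]

lemma cj_one : cj G (𝟙 ((G.mapHomologicalComplex (ComplexShape.up ℤ)).obj K)) = 1 := by
  rw [cj, CategoryTheory.Functor.map_id]
  erw [Category.id_comp]
  rw [Iso.hom_inv_id_app]
  rfl

lemma cj_zero : cj G (0 : (G.mapHomologicalComplex (ComplexShape.up ℤ)).obj K ⟶
    (G.mapHomologicalComplex (ComplexShape.up ℤ)).obj K) = 0 := by
  rw [cj, Functor.map_zero, zero_comp, comp_zero]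

lemma cj_add : cj G (a + b) = cj G a + cj G b := by
  rw [cj, cj, cj, Functor.map_add, Preadditive.add_comp, Preadditive.comp_add]

lemma cj_smul {R : Type*} [Ring R] [CategoryTheory.Linear R B] (c : R) :
    cj G (c • a) = c • cj G a := by
  rw [cj, cj, Functor.map_smul, Linear.smul_comp, Linear.comp_smul]

lemma cj_sq (h : a ≫ a = 0) : (cj G a) ^ 2 = 0 := by
  rw [pow_two, cj_mul, h, cj_zero]

lemma cj_exp {R : Type*} [Field R] [CategoryTheory.Linear R B] (c : R) :
    cj G (𝟙 _ + c • a) = ∑ j ∈ Finset.range 2, (c ^ j * ((j.factorial : R))⁻¹) • (cj G a) ^ j := by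
  rw [cj_add, cj_one, cj_smul, Finset.sum_range_succ, Finset.sum_range_one]
  simp

variable {T G}

/-- The operator on complexes obtained by forgetting the Galois action. -/
def lg (e : T ⋙ G ≅ G) (f : K ⟶ (T.mapHomologicalComplex (ComplexShape.up ℤ)).obj K) :
    (G.mapHomologicalComplex (ComplexShape.up ℤ)).obj K ⟶
      (G.mapHomologicalComplex (ComplexShape.up ℤ)).obj K :=
  (G.mapHomologicalComplex (ComplexShape.up ℤ)).map f ≫
    (NatTrans.mapHomologicalComplex e.hom (ComplexShape.up ℤ)).app K

omit [PreservesFiniteLimits T] [PreservesFiniteColimits T] [PreservesFiniteLimits G]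
  [PreservesFiniteColimits G] [HasDerivedCategory A] [HasDerivedCategory B] in
lemma lg_f (e : T ⋙ G ≅ G) (f : K ⟶ (T.mapHomologicalComplex (ComplexShape.up ℤ)).obj K) (n : ℤ) :
    (lg e f).f n = G.map (f.f n) ≫ e.hom.app (K.X n) := rfl

lemma log_cj (e : T ⋙ G ≅ G) (f : K ⟶ (T.mapHomologicalComplex (ComplexShape.up ℤ)).obj K) :
    G.mapDerivedCategory.map (DerivedCategory.Q.map f ≫ T.mapDerivedCategoryFactors.inv.app K) ≫
      (dComp T G ≪≫ dIso e).hom.app (DerivedCategory.Q.obj K) = cj G (lg e f) := by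
  rw [Iso.trans_hom, NatTrans.comp_app, dComp_hom_app_Q, dIso_hom, dNat_app_Q]
  have h2 : G.mapDerivedCategory.map (T.mapDerivedCategoryFactors.inv.app K) ≫
      G.mapDerivedCategory.map (T.mapDerivedCategoryFactors.hom.app K) = 𝟙 _ := by
    rw [← Functor.map_comp, Iso.inv_hom_id_app]
    exact CategoryTheory.Functor.map_id _ _
  have h3 : G.mapDerivedCategory.map (DerivedCategory.Q.map f) ≫
      G.mapDerivedCategoryFactors.hom.app
        ((T.mapHomologicalComplex (ComplexShape.up ℤ)).obj K) =
      G.mapDerivedCategoryFactors.hom.app K ≫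
        DerivedCategory.Q.map ((G.mapHomologicalComplex (ComplexShape.up ℤ)).map f) :=
    G.mapDerivedCategoryFactors.hom.naturality f
  simp only [Functor.map_comp, Category.assoc]
  rw [reassoc_of% h2, reassoc_of% h3, cj, lg, Functor.map_comp, Category.assoc]
  congr 2
  exact Iso.inv_hom_id_app_assoc (T ⋙ G).mapDerivedCategoryFactors K _

variable (G) in
lemma nat_cj (e : G ⟶ G) : (dNat e).app (DerivedCategory.Q.obj K) =
    cj G ((NatTrans.mapHomologicalComplex e (ComplexShape.up ℤ)).app K) := dNat_app_Q e K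

end

end Pool.Agent.H72.MP
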