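import Pool.Agent.H72.MP.PosE
import Pool.Agent.H72.MP.PosF0
import Pool.Agent.H72.MP.Mod.A2

open CategoryTheory Limits AlgebraicGeometry TopologicalSpace Opposite Pretriangulated ZeroObject

namespace Pool.Agent.H72.MP

noncomputable section

open Tw

variable {p ℓ : ℕ} [Fact p.Prime] [Fact ℓ.Prime] (κ : Kum p ℓ) {X Y : Scheme.{0}} (i : Y ⟶ X)

lemma logOp_dl {K : CochainComplex (Shη p ℓ X) ℤ} (f : K ⟶ (Tc p ℓ X).obj K) :
    logOp (dl f) = cj (geoM p ℓ X) (lg (kapM p ℓ X) f) := log_cj (kapM p ℓ X) f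

lemma map_two_hom_ext {C D : Type*} [Category C] [Category D] [Abelian C] [Abelian D] (F : C ⥤ D)
    [F.Additive] {A B : C} {f : A ⟶ B} {K : CochainComplex D ℤ}
    {u v : (F.mapHomologicalComplex (ComplexShape.up ℤ)).obj (two f) ⟶ K}
    (h1 : u.f (-1) = v.f (-1)) (h0 : u.f 0 = v.f 0) : u = v := by
  refine HomologicalComplex.hom_ext _ _ (fun i => ?_)
  rcases i with (_ | i) | (_ | i)
  · exact h0
  · exact (F.map_isZero (isZero_zero C)).eq_of_src _ _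
  · exact h1
  · exact (F.map_isZero (isZero_zero C)).eq_of_src _ _

/-- The action of inertia on sheaves. -/
abbrev gA (p ℓ : ℕ) [Fact p.Prime] [Fact ℓ.Prime] (X : Scheme.{0}) (g : Gη p)
    (hg : ρη p g = 1) : geoM p ℓ X ⟶ geoM p ℓ X :=
  gNat @WeaklyEtale X ℓ (1 : Unit →* Gη p) continuous_const (fun _ => map_one (ρη p))
    g⁻¹ (by rw [map_inv, hg, inv_one]) (fun _ => by simp)

lemma inertia_Q (g : Gη p) (hg : ρη p g = 1) (K : CochainComplex (Shη p ℓ X) ℤ) :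
    (inertia p ℓ X g hg).app (DerivedCategory.Q.obj K) =
      cj (geoM p ℓ X) ((NatTrans.mapHomologicalComplex (gA p ℓ X g hg)
        (ComplexShape.up ℤ)).app K) :=
  nat_cj (geoM p ℓ X) (gA p ℓ X g hg)

lemma nc_f_neg : (nc κ i).f (-1) = 0 := by
  exact (congrArg (fun z => z ≫ ((Tc p ℓ X).map (jm p ℓ i ≫ j0 κ i)).f (-1))
    (zero_comp (f := (νIso p ℓ i).hom.f (-1)))).trans zero_comp

lemma nc_f_zero : (nc κ i).f 0 = bProj κ i ≫ (tateM p ℓ X).map (bInc κ i) := by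
  change ((bProj κ i ≫ 𝟙 _ ≫ 𝟙 _) ≫ (tateM p ℓ X).map (𝟙 _ ≫ bInc κ i)) = _
  rw [Category.comp_id, Category.comp_id, Category.id_comp]

/-- The operator on the underlying complex. -/
abbrev LL := lg (kapM p ℓ X) (nc κ i)

lemma LL_f_neg : (LL κ i).f (-1) = 0 := by
  rw [lg_f, nc_f_neg, Functor.map_zero, zero_comp]
  rfl

/-- The operator on the underlying complex in degree zero. -/
def L0 : (geoM p ℓ X).obj (B1 κ i) ⟶ (geoM p ℓ X).obj (B1 κ i) :=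
  (geoM p ℓ X).map (bProj κ i ≫ (tateM p ℓ X).map (bInc κ i)) ≫ (kapM p ℓ X).hom.app (B1 κ i)

lemma LL_f_zero : (LL κ i).f 0 = L0 κ i := by
  rw [lg_f, nc_f_zero]
  rfl

/-- The pull-back of an object of the site of the geometric fibre. -/
abbrev iU (U : Tw @WeaklyEtale (ρb p) X) : Tw @WeaklyEtale (ρη p) Y :=
  (pull i).obj ((res (1 : Unit →* Gη p) continuous_const (fun _ => map_one (ρη p))).obj U)

lemma L0_apply (U : Tw @WeaklyEtale (ρb p) X)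
    (x : (ringS @WeaklyEtale (ρη p) Y ℓ).obj.obj (op (iU i U)) ×
      (ringS @WeaklyEtale (ρη p) Y ℓ).obj.obj (op (iU i U))) :
    (L0 κ i).val.app (op U) x = (x.2, (0 : (ringS @WeaklyEtale (ρη p) Y ℓ).obj.obj
      (op (iU i U)))) := rfl

lemma LL_sq : LL κ i ≫ LL κ i = 0 := by
  refine map_two_hom_ext _ ?_ ?_
  · change (LL κ i).f (-1) ≫ (LL κ i).f (-1) = 0
    rw [LL_f_neg]
    exact zero_comp
  · refine md_hom_ext (fun U x => ?_)
    have h1 : (LL κ i ≫ LL κ i).f 0 = L0 κ i ≫ L0 κ i := by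
      change (LL κ i).f 0 ≫ (LL κ i).f 0 = _
      rw [LL_f_zero]
      rfl
    rw [h1]
    rfl

section gTrans

variable {P : MorphismProperty Scheme.{0}} {k : Type} [Field k] {G : Type} [Group G]
  [TopologicalSpace G] [IsTopologicalGroup G] {ρ : G →* (k ≃+* k)}
  [P.IsStableUnderBaseChange] [P.IsStableUnderComposition] [P.HasOfPostcompProperty P]

lemma pull_map_f (U : Tw P ρ X) (u : U ⟶ U) (hu : u.f = 𝟙 _) :
    ((pull i).map u).f = 𝟙 _ := by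
  refine pullback.hom_ext ?_ ?_
  · refine (pullback.lift_fst _ _ _).trans ?_
    rw [hu]
    exact (Category.comp_id _).trans (Category.id_comp _).symm
  · exact (pullback.lift_snd _ _ _).trans (Category.id_comp _).symm

lemma extMap_const (χ : G →* ℚ_[ℓ]ˣ) (hχ : Continuous χ) (τ : C(G, ℚ_[ℓ])) (V : Tw P ρ X)
    (v : V ⟶ V) (hv : v.f = 𝟙 _) (γ : G) (hc : ∀ t, v.c t = γ)
    (x : (ringS P ρ X ℓ).obj.obj (op V) × (ringS P ρ X ℓ).obj.obj (op V)) :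
    extMap χ hχ τ v x = (x.1 - cst (op V) (τ γ) * x.2,
      cst (op V) ((χ γ⁻¹ : ℚ_[ℓ]ˣ) : ℚ_[ℓ]) * x.2) := by
  have h1 : ∀ a : (ringS P ρ X ℓ).obj.obj (op V), (ringS P ρ X ℓ).obj.map v.op a = a := by
    intro a
    refine ULift.down_injective (ContinuousMap.ext fun t => ?_)
    change (show ULift.{1} C(V.T, ℚ_[ℓ]) from a).down (v.f t) = _
    rw [hv]
    rfl
  have h2 : tauF τ v.c = (cst (op V) (τ γ) : (ringS P ρ X ℓ).obj.obj (op V)) := by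
    refine ULift.down_injective (ContinuousMap.ext fun t => ?_)
    exact congrArg τ (hc t)
  have h3 : chiF χ hχ (v.c)⁻¹ =
      (cst (op V) ((χ γ⁻¹ : ℚ_[ℓ]ˣ) : ℚ_[ℓ]) : (ringS P ρ X ℓ).obj.obj (op V)) := by
    refine ULift.down_injective (ContinuousMap.ext fun t => ?_)
    change ((χ (v.c t)⁻¹ : ℚ_[ℓ]ˣ) : ℚ_[ℓ]) = _
    rw [hc]
    rfl
  rw [extMap, h1, h1, h2, h3]

end gTrans

lemma gA_unit (g : Gη p) (hg : ρη p g = 1) : (gA p ℓ X g hg).app (OE p ℓ X) = 𝟙 _ :=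
  md_hom_ext (fun _ _ => rfl)

lemma t_inv (hℓ : ℓ ≠ p) (g : Gη p) (hg : ρη p g = 1) : κ.t g⁻¹ = - κ.t g := by
  have h1 := κ.cocycle g g⁻¹
  have h2 := κ.cocycle 1 1
  rw [mul_inv_cancel, cyc_inertia p ℓ hℓ g hg] at h1
  rw [mul_one, map_one] at h2
  simp only [Units.val_one, one_mul] at h1 h2
  have h3 : κ.t 1 = 0 := by simpa using h2
  rw [h3] at h1
  exact (neg_eq_of_add_eq_zero_right h1.symm).symm

lemma cycInv_inertia (hℓ : ℓ ≠ p) (g : Gη p) (hg : ρη p g = 1) : cycInv p ℓ g = 1 := by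
  rw [cycInv]
  simp [cyc_inertia p ℓ hℓ g hg]

lemma gA_B1 (hℓ : ℓ ≠ p) (g : Gη p) (hg : ρη p g = 1) :
    (gA p ℓ X g hg).app (B1 κ i) = 𝟙 _ + (κ.t g : ℚ_[ℓ]) • L0 κ i := by
  refine md_hom_ext (fun U x => ?_)
  let x' : (ringS @WeaklyEtale (ρη p) Y ℓ).obj.obj (op (iU i U)) ×
      (ringS @WeaklyEtale (ρη p) Y ℓ).obj.obj (op (iU i U)) := x
  have h1 := extMap_const (cycInv p ℓ) (cycInv_continuous p ℓ) (kumC κ)
    ((pull i).obj ((res (1 : Unit →* Gη p) continuous_const (fun _ => map_one (ρη p))).obj U))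
    ((pull i).map ((gTrans (P := @WeaklyEtale) (1 : Unit →* Gη p) continuous_const
      (fun _ => map_one (ρη p)) g⁻¹ (by rw [map_inv, hg, inv_one]) (fun _ => by simp)).app U))
    (pull_map_f i _ _ rfl) g⁻¹ (fun t => mul_one _) x'
  refine Eq.trans h1 ?_
  have h2 : (𝟙 _ + (κ.t g : ℚ_[ℓ]) • L0 κ i).val.app (op U) x =
      x + (L0 κ i).val.app (op U) ((cst (op U) (κ.t g : ℚ_[ℓ]) :
        (ringS @WeaklyEtale (ρb p) X ℓ).obj.obj (op U)) • x) := rfl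
  have h3 : (L0 κ i).val.app (op U) ((cst (op U) (κ.t g : ℚ_[ℓ]) :
        (ringS @WeaklyEtale (ρb p) X ℓ).obj.obj (op U)) • x) =
      ((cst (op (iU i U)) (κ.t g : ℚ_[ℓ]) * x'.2, 0) :
        (ringS @WeaklyEtale (ρη p) Y ℓ).obj.obj (op (iU i U)) ×
        (ringS @WeaklyEtale (ρη p) Y ℓ).obj.obj (op (iU i U))) := rfl
  refine Eq.trans ?_ h2.symm
  rw [h3]
  have e1 : ((kumC κ) g⁻¹ : ℚ_[ℓ]) = - (κ.t g : ℚ_[ℓ]) := by
    change ((κ.t g⁻¹ : ℤ_[ℓ]) : ℚ_[ℓ]) = _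
    rw [t_inv κ hℓ g hg, PadicInt.coe_neg]
  rw [e1, inv_inv, cycInv_inertia hℓ g hg]
  refine Prod.ext ?_ ?_
  · change x'.1 - cst (op (iU i U)) (- (κ.t g : ℚ_[ℓ])) * x'.2 =
      x'.1 + cst (op (iU i U)) (κ.t g : ℚ_[ℓ]) * x'.2
    rw [map_neg, neg_mul, sub_neg_eq_add]
  · change cst (op (iU i U)) (((1 : ℚ_[ℓ]ˣ) : ℚ_[ℓ])) * x'.2 = x'.2 + 0
    rw [Units.val_one, map_one, one_mul, add_zero]

lemma gA_cx (hℓ : ℓ ≠ p) (g : Gη p) (hg : ρη p g = 1) :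
    (NatTrans.mapHomologicalComplex (gA p ℓ X g hg) (ComplexShape.up ℤ)).app (C1 κ i) =
      𝟙 _ + (κ.t g : ℚ_[ℓ]) • LL κ i := by
  refine map_two_hom_ext _ ?_ ?_
  · change (gA p ℓ X g hg).app (OE p ℓ X) = 𝟙 _ + (κ.t g : ℚ_[ℓ]) • (LL κ i).f (-1)
    rw [LL_f_neg, gA_unit, smul_zero]
    exact (add_zero (𝟙 ((geoM p ℓ X).obj (OE p ℓ X)))).symm
  · change (gA p ℓ X g hg).app (B1 κ i) = 𝟙 _ + (κ.t g : ℚ_[ℓ]) • (LL κ i).f 0
    rw [LL_f_zero, gA_B1 κ i hℓ g hg]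
    rfl

lemma isLog (hℓ : ℓ ≠ p) : IsLogMonodromy κ (dl (nc κ i)) := by
  refine ⟨2, ?_, ⊤, isOpen_univ, fun g _ hg => ?_⟩
  · rw [logOp_dl]
    exact cj_sq (geoM p ℓ X) _ (LL_sq κ i)
  · rw [logOp_dl, inertia_Q, gA_cx κ i hℓ g hg]
    exact cj_exp (geoM p ℓ X) _ _

end

end Pool.Agent.H72.MP
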