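import Pool.Agent.H72.MP.Site

open CategoryTheory Limits AlgebraicGeometry TopologicalSpace

namespace Pool.Agent.H72.MP

namespace Tw

variable {P : MorphismProperty Scheme.{0}} {kb : Type} [Field kb] {G : Type} [Group G]
  [TopologicalSpace G] [IsTopologicalGroup G] {ρ : G →* (kb ≃+* kb)} {X : Scheme.{0}}

section fn

variable (P ρ X) (V : Type) [TopologicalSpace V] [MulAction G V] [ContinuousSMul G V]

/-- The presheaf of continuous functions to `V`, with twisted restriction maps. -/
def fn : (Tw P ρ X)ᵒᵖ ⥤ Type where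
  obj U := C(U.unop.T, V)
  map {U W} u := ↾fun φ => (⟨fun t => (u.unop.c t)⁻¹ • φ (u.unop.f t), by fun_prop⟩ :
    C(W.unop.T, V))
  map_id U := by
    ext φ t
    simp
  map_comp {U W Z} u v := by
    ext φ t
    simp [mul_smul]

variable {P ρ X V}

/-- A section of `fn` as a continuous map. -/
def fn.toMap {U : Tw P ρ X} (x : (fn P ρ X V).obj (Opposite.op U)) : C(U.T, V) := x

lemma fn.map_apply {U W : Tw P ρ X} (u : U ⟶ W) (x : (fn P ρ X V).obj (Opposite.op W)) (t : U.T) :
    fn.toMap ((fn P ρ X V).map u.op x) t = (u.c t)⁻¹ • fn.toMap x (u.f t) := rfl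

lemma fn.ext {U : Tw P ρ X} {x y : (fn P ρ X V).obj (Opposite.op U)}
    (h : ∀ t, fn.toMap x t = fn.toMap y t) : x = y :=
  ContinuousMap.ext h

variable [P.IsStableUnderBaseChange] [P.IsStableUnderComposition] [P.HasOfPostcompProperty P]

lemma fn_isSheafFor {U : Tw P ρ X} {R : Presieve U} (hR : R ∈ precov P ρ X U) :
    Presieve.IsSheafFor (fn P ρ X V) R := by
  obtain ⟨ι, Z, g, rfl⟩ := R.exists_eq_ofArrows
  have hR' : (Presieve.ofArrows Z g).map (forget P ρ X) ∈ Scheme.proetalePrecoverage U.T := hR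
  rw [Presieve.map_ofArrows] at hR'
  have hs : Presieve.IsSheafFor (continuousMapPresheaf V)
      (Presieve.ofArrows (fun i => (Z i).T) (fun i => (g i).f)) := by
    have h1 := isSheaf_fpqcTopology_continuousMapPresheaf.{0, 0} V
    rw [isSheaf_iff_isSheaf_of_type] at h1
    exact (Presieve.isSheaf_of_le _ Scheme.proetaleTopology_le_fpqcTopology
      h1).isSheafFor_of_mem_precoverage hR'
  rw [Presieve.isSheafFor_arrows_iff_pullbacks] at hs
  rw [Presieve.isSheafFor_arrows_iff]
  intro x hx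
  let y : ∀ i, C((Z i).T, V) := fun i => ⟨fun t => (g i).c t • fn.toMap (x i) t, by fun_prop⟩
  have hy : Presieve.Arrows.PullbackCompatible (continuousMapPresheaf V)
      (fun i => (g i).f) y := by
    intro i j
    refine ContinuousMap.ext (fun w => ?_)
    have h1 := hx i j (pb (g i) (g j)) (pbFst _ _) (pbSnd _ _) (pb_condition _ _)
    have h2 := congrArg (fun z => fn.toMap z w) h1
    simp only [fn.map_apply] at h2
    change (g i).c (pullback.fst (g i).f (g j).f w) • fn.toMap (x i) (pullback.fst (g i).f (g j).f w)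
      = (g j).c (pullback.snd (g i).f (g j).f w) • fn.toMap (x j) (pullback.snd (g i).f (g j).f w)
    change (1 : G)⁻¹ • fn.toMap (x i) (pullback.fst (g i).f (g j).f w) =
      (((g j).c (pullback.snd (g i).f (g j).f w))⁻¹ * ((g i).c (pullback.fst (g i).f (g j).f w) * 1))⁻¹
        • fn.toMap (x j) (pullback.snd (g i).f (g j).f w) at h2
    rw [inv_one, one_smul] at h2
    rw [h2, smul_smul]
    congr 1
    simp
  obtain ⟨z, hz, huniq⟩ := hs y hy
  refine ⟨z, fun i => ?_, fun z' hz' => huniq z' (fun i => ?_)⟩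
  · refine fn.ext (fun t => ?_)
    have h3 := congrArg (fun q : C((Z i).T, V) => q t) (hz i)
    change fn.toMap (U := U) z ((g i).f t) = (g i).c t • fn.toMap (x i) t at h3
    rw [fn.map_apply, h3, smul_smul, inv_mul_cancel, one_smul]
  · refine ContinuousMap.ext (fun t => ?_)
    have h3 := congrArg (fun z => fn.toMap z t) (hz' i)
    simp only [fn.map_apply] at h3
    change fn.toMap (U := U) z' ((g i).f t) = (g i).c t • fn.toMap (x i) t
    rw [← h3, smul_smul, mul_inv_cancel, one_smul]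

lemma fn_isSheaf : Presieve.IsSheaf (topo P ρ X) (fn P ρ X V) := by
  unfold topo
  rw [Precoverage.isSheaf_toGrothendieck_iff_of_isStableUnderBaseChange]
  intro U R hR
  exact fn_isSheafFor hR

end fn


noncomputable section ring

variable (P ρ X) (ℓ : ℕ) [Fact ℓ.Prime]

/-- The presheaf of rings of continuous `ℚ_ℓ`-valued functions. -/
def ringP : (Tw P ρ X)ᵒᵖ ⥤ RingCat.{1} where
  obj U := RingCat.of (ULift.{1} C(U.unop.T, ℚ_[ℓ]))
  map {U W} u := RingCat.ofHom
    { toFun := fun φ => ⟨φ.down.comp ⟨u.unop.f, by fun_prop⟩⟩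
      map_one' := rfl
      map_mul' := fun _ _ => rfl
      map_zero' := rfl
      map_add' := fun _ _ => rfl }

variable [P.IsStableUnderBaseChange] [P.IsStableUnderComposition] [P.HasOfPostcompProperty P]

/-- Trivial action, used only to see that `ringP` is a sheaf. -/
@[instance_reducible]
def trivAct : MulAction G ℚ_[ℓ] where
  smul _ x := x
  one_smul _ := rfl
  mul_smul _ _ _ := rfl

lemma ringP_isSheaf : Presheaf.IsSheaf (topo P ρ X) (ringP P ρ X ℓ) := by
  let : MulAction G ℚ_[ℓ] := trivAct ℓ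
  have : ContinuousSMul G ℚ_[ℓ] := ⟨continuous_snd⟩
  have : ReflectsLimitsOfSize.{1, 1} (CategoryTheory.forget RingCat.{1}) :=
    reflectsLimits_of_reflectsIsomorphisms
  refine Presheaf.isSheaf_of_isSheaf_comp _ _ (CategoryTheory.forget RingCat.{1}) ?_
  rw [isSheaf_iff_isSheaf_of_type]
  have h : Presieve.IsSheaf (topo P ρ X) (fn P ρ X ℚ_[ℓ] ⋙ uliftFunctor.{1, 0}) :=
    (Presieve.isSheaf_comp_uliftFunctor_iff _).2 fn_isSheaf
  exact h

/-- The sheaf of rings `ℚ_ℓ`. -/
def ringS : Sheaf (topo P ρ X) RingCat.{1} := ⟨ringP P ρ X ℓ, ringP_isSheaf P ρ X ℓ⟩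

/-- Sheaves of `ℚ_ℓ`-modules. -/
abbrev Md := SheafOfModules.{1} (ringS P ρ X ℓ)

instance : Abelian (Md P ρ X ℓ) := inferInstance

end ring

end Tw
end Pool.Agent.H72.MP
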