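import Mathlib

open CategoryTheory Limits AlgebraicGeometry TopologicalSpace

namespace Pool.Agent.H72.MP

/-- Germ at a point of a global section. -/
noncomputable abbrev gm (T : Scheme.{0}) (t : T) : Γ(T, ⊤) →+* T.presheaf.stalk t :=
  (T.presheaf.germ ⊤ t trivial).hom

lemma gm_comap {U V : Scheme.{0}} (f : U ⟶ V) (t : U) (y : Γ(V, ⊤)) :
    gm U t (f.appTop y) = (f.stalkMap t).hom (gm V (f t) y) := by
  rw [gm, gm]
  exact (Scheme.Hom.germ_stalkMap_apply f ⊤ t trivial y).symm

section twc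

variable {kb : Type} [Field kb] {G : Type} [Group G] (ρ : G →* (kb ≃+* kb))

/-- `f : U ⟶ V` is semilinear for the two `kb`-structures, with twist `c`. -/
def Twc {U V : Scheme.{0}} (αU : kb →+* Γ(U, ⊤)) (αV : kb →+* Γ(V, ⊤)) (f : U ⟶ V)
    (c : U → G) : Prop :=
  ∀ (a : kb) (t : U), gm U t (f.appTop (αV a)) = gm U t (αU (ρ (c t)⁻¹ a))

variable {ρ}

lemma Twc.id {U : Scheme.{0}} (αU : kb →+* Γ(U, ⊤)) : Twc ρ αU αU (𝟙 U) (fun _ => 1) := by
  intro a t; simp

lemma Twc.comp {U V W : Scheme.{0}} {αU : kb →+* Γ(U, ⊤)} {αV : kb →+* Γ(V, ⊤)}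
    {αW : kb →+* Γ(W, ⊤)} {f : U ⟶ V} {g : V ⟶ W} {c : U → G} {d : V → G}
    (h1 : Twc ρ αU αV f c) (h2 : Twc ρ αV αW g d) :
    Twc ρ αU αW (f ≫ g) (fun t => d (f t) * c t) := by
  intro a t
  have e1 := h2 a (f t)
  have e2 := h1 (ρ (d (f t))⁻¹ a) t
  rw [gm_comap, ← e1] at e2
  rw [Scheme.Hom.comp_appTop, CommRingCat.comp_apply, gm_comap, e2]
  congr 2
  simp [mul_inv_rev, map_mul]

lemma Twc.comap {U V : Scheme.{0}} (αV : kb →+* Γ(V, ⊤)) (f : U ⟶ V) :
    Twc ρ (f.appTop.hom.comp αV) αV f (fun _ => 1) := by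
  intro a t; simp

lemma Twc.comap_iff {U V W : Scheme.{0}} {αU : kb →+* Γ(U, ⊤)}
    {αW : kb →+* Γ(W, ⊤)} {f : U ⟶ V} {g : V ⟶ W} {c : U → G} :
    Twc ρ αU (g.appTop.hom.comp αW) f c ↔ Twc ρ αU αW (f ≫ g) c := by
  simp only [Twc, Scheme.Hom.comp_appTop, CommRingCat.comp_apply, RingHom.comp_apply]

lemma Twc.cancel {U V W : Scheme.{0}} {αU : kb →+* Γ(U, ⊤)} {αV : kb →+* Γ(V, ⊤)}
    {αW : kb →+* Γ(W, ⊤)} {g : U ⟶ V} {f : V ⟶ W} {d : U → G} {c : V → G}
    (h1 : Twc ρ αV αW f c) (h2 : Twc ρ αU αW (g ≫ f) d) :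
    Twc ρ αU αV g (fun t => (c (g t))⁻¹ * d t) := by
  intro a t
  have e1 := h1 (ρ (c (g t)) a) (g t)
  have e2 := h2 (ρ (c (g t)) a) t
  have e3 : ρ (c (g t))⁻¹ (ρ (c (g t)) a) = a := by
    rw [← RingAut.mul_apply, ← map_mul]; simp
  rw [e3] at e1
  rw [Scheme.Hom.comp_appTop, CommRingCat.comp_apply, gm_comap, e1, ← gm_comap] at e2
  rw [e2]
  congr 2
  simp [mul_inv_rev, map_mul]

end twc

/-- Objects of the twisted site. -/
structure Tw (P : MorphismProperty Scheme.{0}) {kb : Type} [Field kb] {G : Type} [Group G]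
    (ρ : G →* (kb ≃+* kb)) (X : Scheme.{0}) : Type 1 where
  T : Scheme.{0}
  π : T ⟶ X
  prop : P π
  α : kb →+* Γ(T, ⊤)

namespace Tw

section cat

variable {P : MorphismProperty Scheme.{0}} {kb : Type} [Field kb] {G : Type} [Group G]
  [TopologicalSpace G] {ρ : G →* (kb ≃+* kb)} {X : Scheme.{0}}

/-- Twisted morphisms. -/
structure Hom (U V : Tw P ρ X) : Type 1 where
  f : U.T ⟶ V.T
  c : C(U.T, G)
  w : f ≫ V.π = U.π
  h : Twc ρ U.α V.α f c

lemma Hom.ext' {U V : Tw P ρ X} {u v : Hom U V} (h1 : u.f = v.f) (h2 : ∀ t, u.c t = v.c t) :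
    u = v := by
  cases u; cases v
  simp only at h1 h2
  subst h1
  congr
  ext t
  exact h2 t

variable [IsTopologicalGroup G]

instance : Category (Tw P ρ X) where
  Hom := Hom
  id U := { f := 𝟙 _, c := 1, w := by simp, h := Twc.id _ }
  comp {U V W} u v :=
    { f := u.f ≫ v.f
      c := v.c.comp ⟨u.f, by fun_prop⟩ * u.c
      w := by rw [Category.assoc, v.w, u.w]
      h := u.h.comp v.h }
  id_comp u := Hom.ext' (by simp) (fun t => by simp)
  comp_id u := Hom.ext' (by simp) (fun t => by simp)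
  assoc u v w := Hom.ext' (by simp) (fun t => by simp [mul_assoc])

@[ext]
lemma hom_ext {U V : Tw P ρ X} {u v : U ⟶ V} (h1 : u.f = v.f) (h2 : ∀ t, u.c t = v.c t) :
    u = v := Hom.ext' h1 h2

@[simp] lemma id_f (U : Tw P ρ X) : Hom.f (𝟙 U) = 𝟙 U.T := rfl
@[simp] lemma id_c (U : Tw P ρ X) : Hom.c (𝟙 U) = 1 := rfl
@[simp, reassoc] lemma comp_f {U V W : Tw P ρ X} (u : U ⟶ V) (v : V ⟶ W) :
    (u ≫ v).f = u.f ≫ v.f := rfl
lemma comp_c {U V W : Tw P ρ X} (u : U ⟶ V) (v : V ⟶ W) :
    (u ≫ v).c = v.c.comp ⟨u.f, by fun_prop⟩ * u.c := rfl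
@[simp] lemma comp_c_apply {U V W : Tw P ρ X} (u : U ⟶ V) (v : V ⟶ W) (t : U.T) :
    (u ≫ v).c t = v.c (u.f t) * u.c t := rfl

/-- The forgetful functor to schemes. -/
@[simps]
def forget (P : MorphismProperty Scheme.{0}) (ρ : G →* (kb ≃+* kb)) (X : Scheme.{0}) :
    Tw P ρ X ⥤ Scheme.{0} where
  obj U := U.T
  map u := u.f

section pullback

omit [TopologicalSpace G] [IsTopologicalGroup G] in
lemma twc_snd {U V W : Scheme.{0}} {αU : kb →+* Γ(U, ⊤)} {αV : kb →+* Γ(V, ⊤)}
    {αW : kb →+* Γ(W, ⊤)} {u : U ⟶ W} {v : V ⟶ W} {c : U → G} {d : V → G}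
    (hu : Twc ρ αU αW u c) (hv : Twc ρ αV αW v d) :
    Twc ρ ((pullback.fst u v).appTop.hom.comp αU) αV (pullback.snd u v)
      (fun t => (d (pullback.snd u v t))⁻¹ * (c (pullback.fst u v t) * 1)) := by
  refine Twc.cancel hv ?_
  rw [← pullback.condition]
  exact (Twc.comap _ _).comp hu

omit [TopologicalSpace G] [IsTopologicalGroup G] in
lemma twc_lift {U V W Z : Scheme.{0}} {αU : kb →+* Γ(U, ⊤)} {αZ : kb →+* Γ(Z, ⊤)}
    {u : U ⟶ W} {v : V ⟶ W} {a : Z ⟶ U} {b : Z ⟶ V} {c : Z → G} (h : a ≫ u = b ≫ v)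
    (ha : Twc ρ αZ αU a c) :
    Twc ρ αZ ((pullback.fst u v).appTop.hom.comp αU) (pullback.lift a b h) c := by
  refine Twc.comap_iff.2 ?_
  rw [pullback.lift_fst]
  exact ha

lemma snd_w {U V W X : Scheme.{0}} {u : U ⟶ W} {v : V ⟶ W} {πU : U ⟶ X} {πV : V ⟶ X}
    {πW : W ⟶ X} (hu : u ≫ πW = πU) (hv : v ≫ πW = πV) :
    pullback.snd u v ≫ πV = pullback.fst u v ≫ πU := by
  rw [← hu, ← hv, ← Category.assoc, ← Category.assoc, pullback.condition]

lemma lift_w {U V W Z X : Scheme.{0}} {u : U ⟶ W} {v : V ⟶ W} {πU : U ⟶ X} {πZ : Z ⟶ X}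
    {a : Z ⟶ U} {b : Z ⟶ V} (h : a ≫ u = b ≫ v) (ha : a ≫ πU = πZ) :
    pullback.lift a b h ≫ pullback.fst u v ≫ πU = πZ := by
  rw [← Category.assoc, pullback.lift_fst, ha]

lemma prop_hom [P.HasOfPostcompProperty P] {U V : Tw P ρ X} (u : U ⟶ V) : P u.f :=
  P.of_postcomp u.f V.π V.prop (by rw [u.w]; exact U.prop)

variable [P.IsStableUnderBaseChange] [P.IsStableUnderComposition] [P.HasOfPostcompProperty P]

/-- The fibre product in the twisted site. -/
noncomputable def pb {U V W : Tw P ρ X} (u : U ⟶ W) (v : V ⟶ W) : Tw P ρ X where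
  T := pullback u.f v.f
  π := pullback.fst u.f v.f ≫ U.π
  prop := P.comp_mem _ _ (P.pullback_fst _ _ (prop_hom v)) U.prop
  α := (pullback.fst u.f v.f).appTop.hom.comp U.α

/-- First projection. -/
noncomputable def pbFst {U V W : Tw P ρ X} (u : U ⟶ W) (v : V ⟶ W) : pb u v ⟶ U where
  f := pullback.fst u.f v.f
  c := 1
  w := rfl
  h := Twc.comap _ _

/-- Second projection. -/
noncomputable def pbSnd {U V W : Tw P ρ X} (u : U ⟶ W) (v : V ⟶ W) : pb u v ⟶ V where
  f := pullback.snd u.f v.f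
  c := ⟨fun t => (v.c (pullback.snd u.f v.f t))⁻¹ * (u.c (pullback.fst u.f v.f t) * 1),
    by fun_prop⟩
  w := snd_w u.w v.w
  h := twc_snd u.h v.h

lemma pb_condition {U V W : Tw P ρ X} (u : U ⟶ W) (v : V ⟶ W) :
    pbFst u v ≫ u = pbSnd u v ≫ v := by
  refine hom_ext pullback.condition (fun t => ?_)
  change u.c (pullback.fst u.f v.f t) * 1 = v.c (pullback.snd u.f v.f t) *
    ((v.c (pullback.snd u.f v.f t))⁻¹ * (u.c (pullback.fst u.f v.f t) * 1))
  rw [mul_inv_cancel_left]

/-- The universal morphism to the fibre product. -/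
noncomputable def pbLift {U V W Z : Tw P ρ X} (u : U ⟶ W) (v : V ⟶ W) (a : Z ⟶ U) (b : Z ⟶ V)
    (h : a ≫ u = b ≫ v) : Z ⟶ pb u v where
  f := pullback.lift a.f b.f (congrArg Hom.f h)
  c := a.c
  w := lift_w (congrArg Hom.f h) a.w
  h := twc_lift (congrArg Hom.f h) a.h

lemma pbLift_fst {U V W Z : Tw P ρ X} (u : U ⟶ W) (v : V ⟶ W) (a : Z ⟶ U) (b : Z ⟶ V)
    (h : a ≫ u = b ≫ v) : pbLift u v a b h ≫ pbFst u v = a := by
  refine hom_ext (pullback.lift_fst _ _ _) (fun t => ?_)
  change 1 * a.c t = a.c t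
  rw [one_mul]

lemma lift_snd_pt {U V W Z : Scheme.{0}} {u : U ⟶ W} {v : V ⟶ W} {a : Z ⟶ U} {b : Z ⟶ V}
    (h : a ≫ u = b ≫ v) (t : Z) : pullback.snd u v (pullback.lift a b h t) = b t := by
  rw [← Scheme.Hom.comp_apply, pullback.lift_snd]

lemma lift_fst_pt {U V W Z : Scheme.{0}} {u : U ⟶ W} {v : V ⟶ W} {a : Z ⟶ U} {b : Z ⟶ V}
    (h : a ≫ u = b ≫ v) (t : Z) : pullback.fst u v (pullback.lift a b h t) = a t := by
  rw [← Scheme.Hom.comp_apply, pullback.lift_fst]

lemma pbLift_snd {U V W Z : Tw P ρ X} (u : U ⟶ W) (v : V ⟶ W) (a : Z ⟶ U) (b : Z ⟶ V)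
    (h : a ≫ u = b ≫ v) : pbLift u v a b h ≫ pbSnd u v = b := by
  refine hom_ext (pullback.lift_snd _ _ _) (fun t => ?_)
  have h0 : u.c (a.f t) * a.c t = v.c (b.f t) * b.c t :=
    DFunLike.congr_fun (congrArg Hom.c h) t
  change (v.c (pullback.snd u.f v.f (pullback.lift a.f b.f _ t)))⁻¹ *
    (u.c (pullback.fst u.f v.f (pullback.lift a.f b.f _ t)) * 1) * a.c t = b.c t
  rw [lift_snd_pt, lift_fst_pt, mul_one, mul_assoc, h0, inv_mul_cancel_left]

lemma pb_hom_ext {U V W Z : Tw P ρ X} (u : U ⟶ W) (v : V ⟶ W) {a b : Z ⟶ pb u v}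
    (h1 : a ≫ pbFst u v = b ≫ pbFst u v) (h2 : a ≫ pbSnd u v = b ≫ pbSnd u v) : a = b := by
  refine hom_ext ?_ (fun t => ?_)
  · exact pullback.hom_ext (congrArg Hom.f h1) (congrArg Hom.f h2)
  · have := DFunLike.congr_fun (congrArg Hom.c h1) t
    change 1 * a.c t = 1 * b.c t at this
    rwa [one_mul, one_mul] at this

lemma isPullback_pb {U V W : Tw P ρ X} (u : U ⟶ W) (v : V ⟶ W) :
    IsPullback (pbFst u v) (pbSnd u v) u v :=
  ⟨⟨pb_condition u v⟩, ⟨PullbackCone.IsLimit.mk _ (fun s => pbLift u v s.fst s.snd s.condition)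
    (fun s => pbLift_fst _ _ _ _ _) (fun s => pbLift_snd _ _ _ _ _)
    (fun s m h1 h2 => pb_hom_ext u v (by rw [h1, pbLift_fst]) (by rw [h2, pbLift_snd]))⟩⟩

instance : HasPullbacks (Tw P ρ X) := by
  have : ∀ {U V W : Tw P ρ X} {u : U ⟶ W} {v : V ⟶ W}, HasLimit (cospan u v) :=
    fun {U V W} {u} {v} => (isPullback_pb u v).hasPullback
  exact hasPullbacks_of_hasLimit_cospan _

lemma forget_isPullback {U V W : Tw P ρ X} (u : U ⟶ W) (v : V ⟶ W) :
    IsPullback ((forget P ρ X).map (pbFst u v)) ((forget P ρ X).map (pbSnd u v))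
      ((forget P ρ X).map u) ((forget P ρ X).map v) :=
  IsPullback.of_hasPullback u.f v.f

instance : PreservesLimitsOfShape WalkingCospan (forget P ρ X) where
  preservesLimit {K} := by
    have : PreservesLimit (cospan (K.map WalkingCospan.Hom.inl) (K.map WalkingCospan.Hom.inr))
        (forget P ρ X) :=
      preservesLimit_of_preserves_limit_cone (isPullback_pb _ _).isLimit
        ((isLimitMapConePullbackConeEquiv (forget P ρ X) (pb_condition _ _)).symm
          (forget_isPullback _ _).isLimit)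
    exact preservesLimit_of_iso_diagram _ (diagramIsoCospan K).symm

/-- The pro-etale precoverage of the twisted site: a family is covering if the underlying
family of schemes is. -/
def precov (P : MorphismProperty Scheme.{0}) (ρ : G →* (kb ≃+* kb)) (X : Scheme.{0}) :
    Precoverage (Tw P ρ X) :=
  Scheme.proetalePrecoverage.comap (forget P ρ X)

instance : (precov P ρ X).HasIsos := by unfold precov; infer_instance
instance : (precov P ρ X).IsStableUnderComposition := by unfold precov; infer_instance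
instance : (precov P ρ X).IsStableUnderBaseChange := by unfold precov; infer_instance

/-- The pro-etale topology of the twisted site. -/
def topo (P : MorphismProperty Scheme.{0}) (ρ : G →* (kb ≃+* kb)) (X : Scheme.{0}) :
    GrothendieckTopology (Tw P ρ X) :=
  (precov P ρ X).toGrothendieck

lemma mem_topo_iff {U : Tw P ρ X} {S : Sieve U} :
    S ∈ topo P ρ X U ↔ ∃ R ∈ precov P ρ X U, R ≤ S.arrows :=
  Precoverage.mem_toGrothendieck_iff_of_isStableUnderComposition

instance : (forget P ρ X).IsContinuous (topo P ρ X) Scheme.proetaleTopology :=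
  Functor.isContinuous_toGrothendieck_of_pullbacksPreservedBy (forget P ρ X) (precov P ρ X)
    Scheme.proetalePrecoverage le_rfl

end pullback

section res

variable {H : Type} [Group H] [TopologicalSpace H] [IsTopologicalGroup H]
  {ρH : H →* (kb ≃+* kb)} (σ : H →* G) (hσc : Continuous σ) (hσ : ∀ h, ρ (σ h) = ρH h)

include hσ in
omit [TopologicalSpace G] [IsTopologicalGroup G] [TopologicalSpace H] [IsTopologicalGroup H] in
lemma Twc.res {U V : Scheme.{0}} {αU : kb →+* Γ(U, ⊤)} {αV : kb →+* Γ(V, ⊤)} {f : U ⟶ V}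
    {c : U → H} (h : Twc ρH αU αV f c) : Twc ρ αU αV f (fun t => σ (c t)) := by
  intro a t
  rw [h a t]
  congr 2
  rw [← map_inv, hσ]

/-- Change of group. -/
@[simps]
def res : Tw P ρH X ⥤ Tw P ρ X where
  obj U := { T := U.T, π := U.π, prop := U.prop, α := U.α }
  map u := { f := u.f, c := ⟨fun t => σ (u.c t), by fun_prop⟩, w := u.w, h := Twc.res σ hσ u.h }
  map_id U := hom_ext rfl (fun t => map_one σ)
  map_comp u v := hom_ext rfl (fun t => map_mul σ _ _)

end res

section pull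

variable [P.IsStableUnderBaseChange] {Y : Scheme.{0}} (f : X ⟶ Y)

omit [TopologicalSpace G] [IsTopologicalGroup G] in
lemma pull_w {U V Y X : Scheme.{0}} {f : X ⟶ Y} {πU : U ⟶ Y} {πV : V ⟶ Y} {u : U ⟶ V}
    (h : u ≫ πV = πU) : (pullback.fst πU f ≫ u) ≫ πV = pullback.snd πU f ≫ f := by
  rw [Category.assoc, h, pullback.condition]

omit [TopologicalSpace G] [IsTopologicalGroup G] in
lemma twc_pull {U V Y X : Scheme.{0}} {f : X ⟶ Y} {πU : U ⟶ Y} {πV : V ⟶ Y} {u : U ⟶ V}
    {αU : kb →+* Γ(U, ⊤)} {αV : kb →+* Γ(V, ⊤)} {c : U → G}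
    (h : u ≫ πV = πU) (hu : Twc ρ αU αV u c) :
    Twc ρ ((pullback.fst πU f).appTop.hom.comp αU) ((pullback.fst πV f).appTop.hom.comp αV)
      (pullback.lift (pullback.fst πU f ≫ u) (pullback.snd πU f) (pull_w h))
      (fun t => c (pullback.fst πU f t) * 1) := by
  refine Twc.comap_iff.2 ?_
  rw [pullback.lift_fst]
  exact (Twc.comap _ _).comp hu

/-- Base change functor. -/
noncomputable def pull : Tw P ρ Y ⥤ Tw P ρ X where
  obj U :=
    { T := pullback U.π f
      π := pullback.snd U.π f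
      prop := P.pullback_snd _ _ U.prop
      α := (pullback.fst U.π f).appTop.hom.comp U.α }
  map {U V} u :=
    { f := pullback.lift (pullback.fst U.π f ≫ u.f) (pullback.snd U.π f) (pull_w u.w)
      c := ⟨fun t => u.c (pullback.fst U.π f t) * 1, by fun_prop⟩
      w := pullback.lift_snd _ _ _
      h := twc_pull u.w u.h }
  map_id U := by
    refine hom_ext ?_ (fun t => ?_)
    · refine pullback.hom_ext ?_ ?_
      · exact (pullback.lift_fst _ _ _).trans ((Category.comp_id _).trans (Category.id_comp _).symm)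
      · exact (pullback.lift_snd _ _ _).trans (Category.id_comp _).symm
    · exact mul_one _
  map_comp {U V W} u v := by
    refine hom_ext ?_ (fun t => ?_)
    · refine pullback.hom_ext ?_ ?_
      · refine (pullback.lift_fst _ _ _).trans ?_
        refine Eq.trans ?_ (Category.assoc _ _ _).symm
        refine Eq.trans ?_ (congrArg (fun z => pullback.lift (pullback.fst U.π f ≫ u.f)
          (pullback.snd U.π f) (pull_w u.w) ≫ z) (pullback.lift_fst _ _ _).symm)
        refine Eq.trans ?_ (Category.assoc _ _ _)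
        refine Eq.trans ?_ (congrArg (fun z => z ≫ v.f) (pullback.lift_fst _ _ _).symm)
        exact (Category.assoc _ _ _).symm
      · refine (pullback.lift_snd _ _ _).trans ?_
        refine Eq.trans ?_ (Category.assoc _ _ _).symm
        refine Eq.trans ?_ (congrArg (fun z => pullback.lift (pullback.fst U.π f ≫ u.f)
          (pullback.snd U.π f) (pull_w u.w) ≫ z) (pullback.lift_snd _ _ _).symm)
        exact (pullback.lift_snd _ _ _).symm
    · change v.c (u.f (pullback.fst U.π f t)) * u.c (pullback.fst U.π f t) * 1 =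
        v.c (pullback.fst V.π f (pullback.lift (pullback.fst U.π f ≫ u.f)
          (pullback.snd U.π f) (pull_w u.w) t)) * 1 * (u.c (pullback.fst U.π f t) * 1)
      rw [lift_fst_pt]
      simp


lemma pm_isPullback {U V Y X : Scheme.{0}} {f : X ⟶ Y} {πU : U ⟶ Y} {πV : V ⟶ Y} {u : U ⟶ V}
    (h : u ≫ πV = πU) :
    IsPullback (pullback.lift (pullback.fst πU f ≫ u) (pullback.snd πU f) (pull_w h))
      (pullback.fst πU f) (pullback.fst πV f) u := by
  refine IsPullback.of_right (h₁₂ := pullback.snd πV f) (h₂₂ := πV) (v₁₃ := f) ?_ ?_ ?_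
  · rw [pullback.lift_snd, h]
    exact (IsPullback.of_hasPullback _ _).flip
  · rw [pullback.lift_fst]
  · exact (IsPullback.of_hasPullback _ _).flip

lemma pull_isPullback_aux {W U V T Y X : Scheme.{0}} {f : X ⟶ Y} {πU : U ⟶ Y} {πV : V ⟶ Y}
    {πT : T ⟶ Y} {πW : W ⟶ Y} {a : W ⟶ U} {b : W ⟶ V} {u : U ⟶ T} {v : V ⟶ T}
    (hu : u ≫ πT = πU) (hv : v ≫ πT = πV) (ha : a ≫ πU = πW) (hb : b ≫ πV = πW)
    (h : IsPullback a b u v) :
    IsPullback (pullback.lift (pullback.fst πW f ≫ a) (pullback.snd πW f) (pull_w ha))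
      (pullback.lift (pullback.fst πW f ≫ b) (pullback.snd πW f) (pull_w hb))
      (pullback.lift (pullback.fst πU f ≫ u) (pullback.snd πU f) (pull_w hu))
      (pullback.lift (pullback.fst πV f ≫ v) (pullback.snd πV f) (pull_w hv)) := by
  have h1 := (pm_isPullback (f := f) hb).flip.paste_horiz h
  refine IsPullback.of_right (h₁₂ := pullback.fst πU f) (h₂₂ := pullback.fst πT f) (v₁₃ := u)
    ?_ ?_ (pm_isPullback hu).flip
  · rw [pullback.lift_fst, pullback.lift_fst]
    exact h1
  · refine pullback.hom_ext ?_ ?_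
    · rw [Category.assoc, Category.assoc, pullback.lift_fst, pullback.lift_fst,
        ← Category.assoc, ← Category.assoc, pullback.lift_fst, pullback.lift_fst,
        Category.assoc, Category.assoc, h.w]
    · rw [Category.assoc, Category.assoc, pullback.lift_snd, pullback.lift_snd,
        pullback.lift_snd, pullback.lift_snd]

end pull

section reflect

/-- Inverse of a twisted morphism whose underlying morphism is an isomorphism. -/
noncomputable def invHom {U V : Tw P ρ X} (u : U ⟶ V) [IsIso u.f] : V ⟶ U where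
  f := inv u.f
  c := ⟨fun t => (u.c (inv u.f t))⁻¹ * 1, by fun_prop⟩
  w := by rw [← u.w, IsIso.inv_hom_id_assoc]
  h := by
    refine Twc.cancel u.h ?_
    rw [IsIso.inv_hom_id]
    exact Twc.id _

instance : (forget P ρ X).ReflectsIsomorphisms where
  reflects {U V} u h := by
    have : IsIso u.f := h
    refine ⟨⟨invHom u, hom_ext (IsIso.hom_inv_id u.f) (fun t => ?_),
      hom_ext (IsIso.inv_hom_id u.f) (fun t => ?_)⟩⟩
    · change (u.c (inv u.f (u.f t)))⁻¹ * 1 * u.c t = 1
      have e : inv u.f (u.f t) = t := by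
        rw [← Scheme.Hom.comp_apply, IsIso.hom_inv_id]; rfl
      rw [e, mul_one, inv_mul_cancel]
    · change u.c (inv u.f t) * ((u.c (inv u.f t))⁻¹ * 1) = 1
      rw [mul_one, mul_inv_cancel]

end reflect

section cont

variable [P.IsStableUnderBaseChange] [P.IsStableUnderComposition] [P.HasOfPostcompProperty P]

lemma isPullback_of_forget {W U V T : Tw P ρ X} {a : W ⟶ U} {b : W ⟶ V} {u : U ⟶ T} {v : V ⟶ T}
    (w : a ≫ u = b ≫ v) (h : IsPullback a.f b.f u.f v.f) : IsPullback a b u v := by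
  have : ReflectsLimit (cospan u v) (forget P ρ X) :=
    reflectsLimit_of_reflectsIsomorphisms _ _
  exact IsPullback.of_map (forget P ρ X) w h

instance pull_preserves {Y : Scheme.{0}} (f : X ⟶ Y) :
    PreservesLimitsOfShape WalkingCospan (pull (P := P) (ρ := ρ) f) where
  preservesLimit {K} := by
    have key := isPullback_of_forget (P := P) (ρ := ρ) (X := X)
      (W := (pull f).obj (pb (K.map WalkingCospan.Hom.inl) (K.map WalkingCospan.Hom.inr)))
      (a := (pull f).map (pbFst _ _)) (b := (pull f).map (pbSnd _ _))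
      (u := (pull f).map (K.map WalkingCospan.Hom.inl))
      (v := (pull f).map (K.map WalkingCospan.Hom.inr))
      (by rw [← Functor.map_comp, ← Functor.map_comp, pb_condition])
      (pull_isPullback_aux (K.map WalkingCospan.Hom.inl).w (K.map WalkingCospan.Hom.inr).w
        rfl (pbSnd _ _).w (IsPullback.of_hasPullback _ _))
    have : PreservesLimit (cospan (K.map WalkingCospan.Hom.inl) (K.map WalkingCospan.Hom.inr))
        (pull (P := P) (ρ := ρ) f) :=
      preservesLimit_of_preserves_limit_cone (isPullback_pb _ _).isLimit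
        ((isLimitMapConePullbackConeEquiv (pull (P := P) (ρ := ρ) f) (pb_condition _ _)).symm
          key.isLimit)
    exact preservesLimit_of_iso_diagram _ (diagramIsoCospan K).symm

omit [P.IsStableUnderComposition] [P.HasOfPostcompProperty P] in
lemma pull_cover {Y : Scheme.{0}} (f : X ⟶ Y) :
    precov P ρ Y ≤ (precov P ρ X).comap (pull (P := P) (ρ := ρ) f) := by
  intro U R hR
  obtain ⟨ι, Z, g, rfl⟩ := R.exists_eq_ofArrows
  change ((Presieve.ofArrows Z g).map _).map _ ∈ Scheme.proetalePrecoverage _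
  change (Presieve.ofArrows Z g).map _ ∈ Scheme.proetalePrecoverage _ at hR
  rw [Presieve.map_ofArrows] at hR
  rw [Presieve.map_ofArrows, Presieve.map_ofArrows]
  exact Precoverage.mem_coverings_of_isPullback _ hR (pullback.fst U.π f) _
    (fun i => pullback.fst (Z i).π f) (fun i => (pm_isPullback (g i).w))

instance pull_continuous {Y : Scheme.{0}} (f : X ⟶ Y) :
    (pull (P := P) (ρ := ρ) f).IsContinuous (topo P ρ Y) (topo P ρ X) :=
  Functor.isContinuous_toGrothendieck_of_pullbacksPreservedBy _ (precov P ρ Y)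
    (precov P ρ X) (pull_cover f)

section res

variable {H : Type} [Group H] [TopologicalSpace H] [IsTopologicalGroup H]
  {ρH : H →* (kb ≃+* kb)} (σ : H →* G) (hσc : Continuous σ) (hσ : ∀ h, ρ (σ h) = ρH h)

instance res_preserves :
    PreservesLimitsOfShape WalkingCospan (res (P := P) (X := X) σ hσc hσ) where
  preservesLimit {K} := by
    have key := isPullback_of_forget (P := P) (ρ := ρ) (X := X)
      (W := (res σ hσc hσ).obj (pb (K.map WalkingCospan.Hom.inl) (K.map WalkingCospan.Hom.inr)))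
      (a := (res σ hσc hσ).map (pbFst _ _)) (b := (res σ hσc hσ).map (pbSnd _ _))
      (u := (res σ hσc hσ).map (K.map WalkingCospan.Hom.inl))
      (v := (res σ hσc hσ).map (K.map WalkingCospan.Hom.inr))
      (by rw [← Functor.map_comp, ← Functor.map_comp, pb_condition])
      (IsPullback.of_hasPullback _ _)
    have : PreservesLimit (cospan (K.map WalkingCospan.Hom.inl) (K.map WalkingCospan.Hom.inr))
        (res (P := P) (X := X) σ hσc hσ) :=
      preservesLimit_of_preserves_limit_cone (isPullback_pb _ _).isLimit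
        ((isLimitMapConePullbackConeEquiv (res (P := P) (X := X) σ hσc hσ)
          (pb_condition _ _)).symm key.isLimit)
    exact preservesLimit_of_iso_diagram _ (diagramIsoCospan K).symm

omit [P.IsStableUnderBaseChange] [P.IsStableUnderComposition] [P.HasOfPostcompProperty P] in
lemma res_cover :
    precov P ρH X ≤ (precov P ρ X).comap (res (P := P) (X := X) σ hσc hσ) := by
  intro U R hR
  obtain ⟨ι, Z, g, rfl⟩ := R.exists_eq_ofArrows
  change ((Presieve.ofArrows Z g).map _).map _ ∈ Scheme.proetalePrecoverage _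
  change (Presieve.ofArrows Z g).map _ ∈ Scheme.proetalePrecoverage _ at hR
  rw [Presieve.map_ofArrows] at hR
  rw [Presieve.map_ofArrows, Presieve.map_ofArrows]
  exact hR

instance res_continuous :
    (res (P := P) (X := X) σ hσc hσ).IsContinuous (topo P ρH X) (topo P ρ X) :=
  Functor.isContinuous_toGrothendieck_of_pullbacksPreservedBy _ (precov P ρH X)
    (precov P ρ X) (res_cover σ hσc hσ)

end res

end cont

section untw

variable {H : Type} [Group H] [TopologicalSpace H] [IsTopologicalGroup H]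
  {ρH : H →* (kb ≃+* kb)}

/-- The source of a morphism, with the `kb`-structure pulled back from the target. -/
def untw {Z : Scheme.{0}} {U : Tw P ρ X} (f : Z ⟶ U.T) (π : Z ⟶ X) (hπ : P π) : Tw P ρ X where
  T := Z
  π := π
  prop := hπ
  α := f.appTop.hom.comp U.α

/-- The untwisted morphism. -/
def untwHom {Z : Scheme.{0}} {U : Tw P ρ X} (f : Z ⟶ U.T) (π : Z ⟶ X) (hπ : P π)
    (h : f ≫ U.π = π) : untw f π hπ ⟶ U where
  f := f
  c := 1
  w := h
  h := Twc.comap _ _

/-- Comparison with a twisted morphism. -/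
def untwTo {Z U : Tw P ρ X} (g : Z ⟶ U) : untw g.f Z.π Z.prop ⟶ Z where
  f := 𝟙 _
  c := ⟨fun t => (g.c t)⁻¹ * 1, by fun_prop⟩
  w := Category.id_comp _
  h := by
    refine Twc.cancel (g := 𝟙 Z.T) g.h ?_
    rw [Category.id_comp]
    exact Twc.comap _ _

lemma untwTo_comp {Z U : Tw P ρ X} (g : Z ⟶ U) :
    untwTo g ≫ g = untwHom g.f Z.π Z.prop g.w := by
  refine hom_ext (Category.id_comp _) (fun t => ?_)
  change g.c t * ((g.c t)⁻¹ * 1) = 1
  rw [mul_one, mul_inv_cancel]

variable [P.IsStableUnderBaseChange] [P.IsStableUnderComposition] [P.HasOfPostcompProperty P]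

variable (σ : H →* G) (hσc : Continuous σ) (hσ : ∀ h, ρ (σ h) = ρH h)

instance res_cocontinuous :
    (res (P := P) (X := X) σ hσc hσ).IsCocontinuous (topo P ρH X) (topo P ρ X) where
  cover_lift {U} S hS := by
    obtain ⟨R, hR, hRS⟩ := mem_topo_iff.1 hS
    obtain ⟨ι, Z, g, rfl⟩ := R.exists_eq_ofArrows
    refine mem_topo_iff.2 ⟨Presieve.ofArrows (fun i => untw (U := U) (g i).f (Z i).π (Z i).prop)
      (fun i => untwHom (U := U) (g i).f (Z i).π (Z i).prop (g i).w), ?_, ?_⟩
    · change (Presieve.ofArrows Z g).map _ ∈ Scheme.proetalePrecoverage _ at hR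
      rw [Presieve.map_ofArrows] at hR
      change (Presieve.ofArrows _ _).map _ ∈ Scheme.proetalePrecoverage _
      rw [Presieve.map_ofArrows]
      exact hR
    · rintro _ _ ⟨i⟩
      change S.arrows ((res σ hσc hσ).map
        (untwHom (U := U) (g i).f (Z i).π (Z i).prop (g i).w))
      have h1 : S.arrows (g i) := hRS _ _ ⟨i⟩
      have h2 := S.downward_closed h1 (untwTo (g i))
      rw [untwTo_comp] at h2
      have h3 : (res σ hσc hσ).map (untwHom (U := U) (g i).f (Z i).π (Z i).prop (g i).w) =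
          untwHom (U := (res (P := P) (X := X) σ hσc hσ).obj U) (g i).f (Z i).π (Z i).prop
            (g i).w :=
        hom_ext rfl (fun t => map_one σ)
      rw [h3]
      exact h2

end untw

end cat

end Tw
end Pool.Agent.H72.MP
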